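import Pool.Agent.Y773.IQ.Quad

/-! # Counting pairs of coprime ideals in a fixed relation modulo `𝔮`

The version for the ideals of an imaginary quadratic field (of any class number) of
`Pool.Agent.Y693.AB.Cnt` (helper693, Gaussian integers). -/

set_option autoImplicit false
set_option linter.unusedSectionVars false

open NumberField Filter Topology

namespace Pool.Agent.Y773.AB

open Pool.Agent.Y767 (Mq Mq_cop Mq_ne_bot Mq_cancel Cls cls cls_eq)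
open Pool.Agent.Y773.IQ (T1 T1_cop pi1 pi1_coe cg absNorm_pos' ne_zero_of_cop norm_sub_le'
  finite_units)

section

variable (K : Type) [Field K] [NumberField K]

/-- linear bound for the number of ideals -/
theorem ideals_le : ∃ C : ℝ, 0 < C ∧ ∀ (Z : ℝ) (S : Finset (Ideal (𝓞 K))), 0 ≤ Z →
    (∀ 𝔞 ∈ S, 𝔞 ≠ ⊥ ∧ (Ideal.absNorm 𝔞 : ℝ) ≤ Z) → (S.card : ℝ) ≤ C * Z := by
  classical
  obtain ⟨f, hf⟩ : ∃ f : ℝ → ℕ, ∀ s, f s = Nat.card {I : nonZeroDivisors (Ideal (𝓞 K)) //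
      (Ideal.absNorm (I : Ideal (𝓞 K)) : ℝ) ≤ s} := ⟨_, fun _ => rfl⟩
  have hlim := NumberField.Ideal.tendsto_norm_le_div_atTop₀ K
  set L : ℝ := ((2 ^ InfinitePlace.nrRealPlaces K * (2 * Real.pi) ^ InfinitePlace.nrComplexPlaces K *
    Units.regulator K * classNumber K) / (Units.torsionOrder K * Real.sqrt |discr K|)) with hL
  have hev := (hlim.eventually_lt_const (lt_add_one L))
  obtain ⟨s0, hs0⟩ := hev.exists_forall_of_atTop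
  set s1 : ℝ := max s0 1 with hs1
  have hfin : ∀ s : ℝ, 0 ≤ s → Finite {I : nonZeroDivisors (Ideal (𝓞 K)) //
      (Ideal.absNorm (I : Ideal (𝓞 K)) : ℝ) ≤ s} := by
    intro s hs
    have h1 := Ideal.finite_setOfPred_absNorm_le₀ (S := 𝓞 K) ⌊s⌋₊
    have h2 : {I : nonZeroDivisors (Ideal (𝓞 K)) | (Ideal.absNorm (I : Ideal (𝓞 K)) : ℝ) ≤ s}.Finite := by
      refine h1.subset fun I hI => ?_
      exact Nat.le_floor hI
    exact h2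
  have hcard : ∀ (Z : ℝ) (S : Finset (Ideal (𝓞 K))), 0 ≤ Z →
      (∀ 𝔞 ∈ S, 𝔞 ≠ ⊥ ∧ (Ideal.absNorm 𝔞 : ℝ) ≤ Z) → S.card ≤ f Z := by
    intro Z S hZ hS
    have := hfin Z hZ
    have hSc : S.card = Nat.card S := by rw [Nat.card_eq_fintype_card, Fintype.card_coe]
    rw [hf, hSc]
    refine Nat.card_le_card_of_injective (fun 𝔞 : S => (⟨⟨𝔞.1, mem_nonZeroDivisors_iff_ne_zero.mpr
      (hS 𝔞.1 𝔞.2).1⟩, (hS 𝔞.1 𝔞.2).2⟩ : {I : nonZeroDivisors (Ideal (𝓞 K)) //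
      (Ideal.absNorm (I : Ideal (𝓞 K)) : ℝ) ≤ Z})) ?_
    intro a b hab
    have h1 := congrArg (fun x : {I : nonZeroDivisors (Ideal (𝓞 K)) //
      (Ideal.absNorm (I : Ideal (𝓞 K)) : ℝ) ≤ Z} => (x.1 : Ideal (𝓞 K))) hab
    exact Subtype.ext h1
  refine ⟨|L| + 1 + f s1, by positivity, fun Z S hZ hS => ?_⟩
  have hf0 : (0 : ℝ) ≤ f s1 := Nat.cast_nonneg _
  have hLa := le_abs_self L
  by_cases hZ1 : Z < 1
  · have hS0 : S = ∅ := by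
      rw [Finset.eq_empty_iff_forall_notMem]
      intro 𝔞 h𝔞
      obtain ⟨h1, h2⟩ := hS 𝔞 h𝔞
      have h3 : (1 : ℝ) ≤ (Ideal.absNorm 𝔞 : ℝ) := by exact_mod_cast absNorm_pos' h1
      linarith
    rw [hS0, Finset.card_empty, Nat.cast_zero]
    positivity
  rw [not_lt] at hZ1
  by_cases hZs : Z ≤ s1
  · have h1 : S.card ≤ f s1 := hcard s1 S (by linarith) (fun 𝔞 h => ⟨(hS 𝔞 h).1, (hS 𝔞 h).2.trans hZs⟩)
    have h2 : (S.card : ℝ) ≤ f s1 := by exact_mod_cast h1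
    have h3 : (f s1 : ℝ) * 1 ≤ (|L| + 1 + f s1) * Z := by
      refine mul_le_mul ?_ hZ1 zero_le_one (by positivity)
      have := abs_nonneg L
      linarith
    linarith
  · rw [not_le] at hZs
    have h1 := hcard Z S (by linarith) hS
    have h2 : (S.card : ℝ) ≤ f Z := by exact_mod_cast h1
    have h3 := hs0 Z ((le_max_left _ _).trans hZs.le)
    have hZ0 : 0 < Z := by linarith
    rw [div_lt_iff₀ hZ0, ← hf Z] at h3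
    have h4 : (L + 1) * Z ≤ (|L| + 1 + f s1) * Z := mul_le_mul_of_nonneg_right (by linarith) hZ0.le
    linarith

/-- elements of an ideal, of bounded norm -/
theorem elts_le [Finite (𝓞 K)ˣ] : ∃ C : ℝ, 0 < C ∧ ∀ (Z : ℝ) (𝔮 : Ideal (𝓞 K)) (S : Finset (𝓞 K)),
    0 ≤ Z → 𝔮 ≠ ⊥ → (∀ t ∈ S, t ∈ 𝔮 ∧ (Ideal.absNorm (Ideal.span {t}) : ℝ) ≤ Z) →
    (S.card : ℝ) ≤ 1 + C * (Z / Ideal.absNorm 𝔮) := by
  classical
  obtain ⟨C, hC, h⟩ := ideals_le K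
  have := Fintype.ofFinite (𝓞 K)ˣ
  have hU : 0 < Nat.card (𝓞 K)ˣ := Nat.card_pos
  have hU' : (0 : ℝ) < Nat.card (𝓞 K)ˣ := by exact_mod_cast hU
  refine ⟨Nat.card (𝓞 K)ˣ * C, by positivity, fun Z 𝔮 S hZ hbot hS => ?_⟩
  have hN : (0 : ℝ) < Ideal.absNorm 𝔮 := by exact_mod_cast absNorm_pos' hbot
  have h1 : S.card ≤ (S.erase 0).card + 1 := by
    have := Finset.pred_card_le_card_erase (s := S) (a := 0)
    omega
  have h2 := Finset.card_le_mul_card_image (f := fun t : 𝓞 K => Ideal.span {t}) (S.erase 0)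
    (Nat.card (𝓞 K)ˣ) (by
      intro 𝔡 h𝔡
      obtain ⟨t0, ht0, rfl⟩ := Finset.mem_image.mp h𝔡
      have h3 : (S.erase 0).filter (fun t => Ideal.span {t} = Ideal.span {t0}) ⊆
          (Finset.univ : Finset (𝓞 K)ˣ).image (fun u : (𝓞 K)ˣ => t0 * u) := by
        intro t ht
        obtain ⟨h4, h5⟩ := Finset.mem_filter.mp ht
        obtain ⟨u, hu⟩ := (Ideal.span_singleton_eq_span_singleton.mp h5).symm
        exact Finset.mem_image.mpr ⟨u, Finset.mem_univ _, hu⟩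
      refine (Finset.card_le_card h3).trans (Finset.card_image_le.trans ?_)
      rw [Nat.card_eq_fintype_card]
      exact le_rfl)
  obtain ⟨D, hD⟩ : ∃ D, D = (S.erase 0).image (fun t : 𝓞 K => Ideal.span {t}) := ⟨_, rfl⟩
  rw [← hD] at h2
  have hDm : ∀ 𝔡 ∈ D, 𝔡 ≠ ⊥ ∧ 𝔮 ∣ 𝔡 ∧ (Ideal.absNorm 𝔡 : ℝ) ≤ Z := by
    intro 𝔡 h𝔡
    rw [hD] at h𝔡
    obtain ⟨t, ht, rfl⟩ := Finset.mem_image.mp h𝔡
    obtain ⟨h3, h4⟩ := Finset.mem_erase.mp ht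
    obtain ⟨h5, h6⟩ := hS t h4
    exact ⟨by rw [Ne, Ideal.span_singleton_eq_bot]; exact h3,
      Ideal.dvd_iff_le.mpr ((Ideal.span_singleton_le_iff_mem 𝔮).mpr h5), h6⟩
  choose! e he using fun 𝔡 (h𝔡 : 𝔡 ∈ D) => (hDm 𝔡 h𝔡).2.1
  have h3 : D.card = (D.image e).card := by
    symm
    apply Finset.card_image_of_injOn
    intro 𝔡 h𝔡 𝔡' h𝔡' hee
    rw [he 𝔡 h𝔡, he 𝔡' h𝔡', hee]
  have h4 := h (Z / Ideal.absNorm 𝔮) (D.image e) (by positivity) (by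
    intro 𝔢 h𝔢
    obtain ⟨𝔡, h𝔡, rfl⟩ := Finset.mem_image.mp h𝔢
    obtain ⟨h5, -, h6⟩ := hDm 𝔡 h𝔡
    have h7 := he 𝔡 h𝔡
    refine ⟨?_, ?_⟩
    · intro h8
      rw [h8, Ideal.mul_bot] at h7
      exact h5 h7
    · rw [le_div_iff₀ hN]
      have h8 := congrArg (fun I : Ideal (𝓞 K) => (Ideal.absNorm I : ℝ)) h7
      simp only [map_mul, Nat.cast_mul] at h8
      rw [mul_comm, ← h8]
      exact h6)
  rw [← h3] at h4
  have h5 : (S.card : ℝ) ≤ ((S.erase 0).card : ℝ) + 1 := by exact_mod_cast h1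
  have h6 : ((S.erase 0).card : ℝ) ≤ Nat.card (𝓞 K)ˣ * D.card := by exact_mod_cast h2
  have h7 : (Nat.card (𝓞 K)ˣ : ℝ) * D.card ≤ Nat.card (𝓞 K)ˣ * (C * (Z / Ideal.absNorm 𝔮)) :=
    mul_le_mul_of_nonneg_left h4 hU'.le
  calc (S.card : ℝ) ≤ 1 + Nat.card (𝓞 K)ˣ * (C * (Z / Ideal.absNorm 𝔮)) := by linarith
    _ = _ := by ring

end

section

variable {K : Type} [Field K] [NumberField K]

/-- two pairs with the same determinant against a third -/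
theorem same_det {𝔞 𝔟 𝔰 𝔯 : Ideal (𝓞 K)} (hcop : IsCoprime 𝔞 𝔟) {a b x y : 𝓞 K}
    (ha : Ideal.span {a} = 𝔞 * 𝔰) (hb : Ideal.span {b} = 𝔟 * 𝔯) (ha0 : a ≠ 0) (hb0 : b ≠ 0)
    (hx : x ∈ 𝔰) (hy : y ∈ 𝔯) (h : a * y = b * x) : ∃ t : 𝓞 K, x = a * t ∧ y = b * t := by
  obtain ⟨α, hα, β, hβ, hab⟩ := Ideal.isCoprime_iff_exists.mp hcop
  have h1 : α * x ∈ Ideal.span {a} := by rw [ha]; exact Ideal.mul_mem_mul hα hx
  have h2 : β * y ∈ Ideal.span {b} := by rw [hb]; exact Ideal.mul_mem_mul hβ hy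
  obtain ⟨t1, ht1⟩ := Ideal.mem_span_singleton'.mp h1
  obtain ⟨t2, ht2⟩ := Ideal.mem_span_singleton'.mp h2
  -- `α y = b t1`
  have h3 : α * y = b * t1 := by
    apply mul_left_cancel₀ ha0
    linear_combination α * h - b * ht1
  have h4 : β * x = a * t2 := by
    apply mul_left_cancel₀ hb0
    linear_combination -β * h - a * ht2
  refine ⟨t1 + t2, ?_, ?_⟩
  · linear_combination -(x) * hab - ht1 + h4
  · linear_combination -(y) * hab + h3 - ht2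

end

section

variable {K : Type} [Field K] [NumberField K]

theorem norm_span_mul (x y : 𝓞 K) : (Ideal.absNorm (Ideal.span {x * y}) : ℝ) =
    (Ideal.absNorm (Ideal.span {x}) : ℝ) * Ideal.absNorm (Ideal.span {y}) := by
  rw [← Ideal.span_singleton_mul_span_singleton, map_mul]
  push_cast; rfl

/-- the pairs of elements on a line through the largest one -/
theorem line_count (hsubN : ∀ x y : 𝓞 K, (Ideal.absNorm (Ideal.span {x - y}) : ℝ) ≤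
      2 * ((Ideal.absNorm (Ideal.span {x}) : ℝ) + Ideal.absNorm (Ideal.span {y})))
    {C2 : ℝ} (hel : ∀ (Z : ℝ) (𝔮 : Ideal (𝓞 K)) (S : Finset (𝓞 K)),
      0 ≤ Z → 𝔮 ≠ ⊥ → (∀ t ∈ S, t ∈ 𝔮 ∧ (Ideal.absNorm (Ideal.span {t}) : ℝ) ≤ Z) →
      (S.card : ℝ) ≤ 1 + C2 * (Z / Ideal.absNorm 𝔮))
    {𝔞 𝔟 𝔰 𝔯 : Ideal (𝓞 K)} (h𝔞 : 𝔞 ≠ ⊥) (h𝔰0 : 𝔰 ≠ ⊥) (h𝔯0 : 𝔯 ≠ ⊥)
    (hcop : IsCoprime 𝔞 𝔟) {a b : 𝓞 K}
    (ha : Ideal.span {a} = 𝔞 * 𝔰) (hb : Ideal.span {b} = 𝔟 * 𝔯) (ha0 : a ≠ 0) (hb0 : b ≠ 0)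
    {M : ℝ} (hM0 : 0 < M) (hM : M = Ideal.absNorm 𝔞 ∨ M = Ideal.absNorm 𝔟)
    (F : Finset (𝓞 K × 𝓞 K)) (w0 : 𝓞 K × 𝓞 K) (hw0 : w0 ∈ F)
    (hF : ∀ w ∈ F, w.1 ∈ 𝔰 ∧ w.2 ∈ 𝔯 ∧
      (Ideal.absNorm (Ideal.span {w.1}) : ℝ) ≤ M * Ideal.absNorm 𝔰 ∧
      (Ideal.absNorm (Ideal.span {w.2}) : ℝ) ≤ M * Ideal.absNorm 𝔯 ∧
      a * w.2 - b * w.1 = a * w0.2 - b * w0.1) :
    (F.card : ℝ) ≤ 1 + C2 * 4 := by
  classical
  have h𝔰p : (0 : ℝ) < Ideal.absNorm 𝔰 := by exact_mod_cast absNorm_pos' h𝔰0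
  have h𝔯p : (0 : ℝ) < Ideal.absNorm 𝔯 := by exact_mod_cast absNorm_pos' h𝔯0
  obtain ⟨s0, r0, n3, n5, -⟩ := hF w0 hw0
  have hex : ∀ w : 𝓞 K × 𝓞 K, ∃ t : 𝓞 K, w ∈ F → w.1 - w0.1 = a * t ∧ w.2 - w0.2 = b * t := by
    intro w
    by_cases hw : w ∈ F
    · obtain ⟨h1, h2, -, -, h4⟩ := hF w hw
      obtain ⟨t, ht1, ht2⟩ := same_det hcop ha hb ha0 hb0
        (sub_mem h1 s0) (sub_mem h2 r0) (by linear_combination h4)
      exact ⟨t, fun _ => ⟨ht1, ht2⟩⟩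
    · exact ⟨0, fun h => absurd h hw⟩
  choose τ hτ using hex
  have hinj : Set.InjOn τ F := by
    intro w hw w' hw' hee
    rw [Finset.mem_coe] at hw hw'
    obtain ⟨c1, c2⟩ := hτ w hw
    obtain ⟨d1, d2⟩ := hτ w' hw'
    rw [← hee] at d1 d2
    exact Prod.ext (by linear_combination c1 - d1) (by linear_combination c2 - d2)
  have hsmall : ∀ w ∈ F, (Ideal.absNorm (Ideal.span {τ w}) : ℝ) ≤ 4 := by
    intro w hw
    obtain ⟨c1, c2⟩ := hτ w hw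
    obtain ⟨-, -, n1, n2, -⟩ := hF w hw
    have q1 : (Ideal.absNorm 𝔞 : ℝ) * Ideal.absNorm (Ideal.span {τ w}) ≤ 4 * M := by
      have r1 := hsubN w.1 w0.1
      rw [c1, norm_span_mul, ha, map_mul] at r1
      push_cast at r1
      have r2 : Ideal.absNorm 𝔰 * ((Ideal.absNorm 𝔞 : ℝ) *
          Ideal.absNorm (Ideal.span {τ w})) ≤ Ideal.absNorm 𝔰 * (4 * M) := by
        calc Ideal.absNorm 𝔰 * ((Ideal.absNorm 𝔞 : ℝ) *
          Ideal.absNorm (Ideal.span {τ w})) = (Ideal.absNorm 𝔞 : ℝ) *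
            Ideal.absNorm 𝔰 * Ideal.absNorm (Ideal.span {τ w}) := by ring
          _ ≤ 2 * ((Ideal.absNorm (Ideal.span {w.1}) : ℝ) + Ideal.absNorm (Ideal.span {w0.1})) := r1
          _ ≤ 2 * (M * Ideal.absNorm 𝔰 + M * Ideal.absNorm 𝔰) := by gcongr
          _ = _ := by ring
      exact le_of_mul_le_mul_left r2 h𝔰p
    have q2 : (Ideal.absNorm 𝔟 : ℝ) * Ideal.absNorm (Ideal.span {τ w}) ≤ 4 * M := by
      have r1 := hsubN w.2 w0.2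
      rw [c2, norm_span_mul, hb, map_mul] at r1
      push_cast at r1
      have r2 : Ideal.absNorm 𝔯 * ((Ideal.absNorm 𝔟 : ℝ) *
          Ideal.absNorm (Ideal.span {τ w})) ≤ Ideal.absNorm 𝔯 * (4 * M) := by
        calc Ideal.absNorm 𝔯 * ((Ideal.absNorm 𝔟 : ℝ) *
          Ideal.absNorm (Ideal.span {τ w})) = (Ideal.absNorm 𝔟 : ℝ) *
            Ideal.absNorm 𝔯 * Ideal.absNorm (Ideal.span {τ w}) := by ring
          _ ≤ 2 * ((Ideal.absNorm (Ideal.span {w.2}) : ℝ) + Ideal.absNorm (Ideal.span {w0.2})) := r1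
          _ ≤ 2 * (M * Ideal.absNorm 𝔯 + M * Ideal.absNorm 𝔯) := by gcongr
          _ = _ := by ring
      exact le_of_mul_le_mul_left r2 h𝔯p
    have q3 : M * Ideal.absNorm (Ideal.span {τ w}) ≤ M * 4 := by
      rw [mul_comm M 4]
      rcases hM with h5 | h5
      · rw [← h5] at q1
        exact q1
      · rw [← h5] at q2
        exact q2
    exact le_of_mul_le_mul_left q3 hM0
  have h4 := hel 4 ⊤ (F.image τ) (by norm_num) top_ne_bot (by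
    intro t ht
    obtain ⟨w, hw, rfl⟩ := Finset.mem_image.mp ht
    exact ⟨Submodule.mem_top, hsmall w hw⟩)
  rw [Finset.card_image_of_injOn hinj, Ideal.absNorm_top, Nat.cast_one, div_one] at h4
  exact h4

/-- pairs of elements, with one determinant condition -/
theorem pair_count (hsubN : ∀ x y : 𝓞 K, (Ideal.absNorm (Ideal.span {x - y}) : ℝ) ≤
      2 * ((Ideal.absNorm (Ideal.span {x}) : ℝ) + Ideal.absNorm (Ideal.span {y})))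
    {C2 : ℝ} (hC2 : 0 < C2) (hel : ∀ (Z : ℝ) (𝔮 : Ideal (𝓞 K)) (S : Finset (𝓞 K)),
      0 ≤ Z → 𝔮 ≠ ⊥ → (∀ t ∈ S, t ∈ 𝔮 ∧ (Ideal.absNorm (Ideal.span {t}) : ℝ) ≤ Z) →
      (S.card : ℝ) ≤ 1 + C2 * (Z / Ideal.absNorm 𝔮))
    {𝔮 𝔞 𝔟 𝔰 𝔯 : Ideal (𝓞 K)} (hbot : 𝔮 ≠ ⊥) (h𝔞 : 𝔞 ≠ ⊥) (h𝔰0 : 𝔰 ≠ ⊥) (h𝔯0 : 𝔯 ≠ ⊥)
    (hcop : IsCoprime 𝔞 𝔟) {a b : 𝓞 K}
    (ha : Ideal.span {a} = 𝔞 * 𝔰) (hb : Ideal.span {b} = 𝔟 * 𝔯) (ha0 : a ≠ 0) (hb0 : b ≠ 0)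
    {M B m : ℝ} (hM0 : 0 < M) (hM : M = Ideal.absNorm 𝔞 ∨ M = Ideal.absNorm 𝔟)
    (hMa : (Ideal.absNorm 𝔞 : ℝ) ≤ M) (hMb : (Ideal.absNorm 𝔟 : ℝ) ≤ M) (hMB : M ≤ B)
    (hm1 : 1 ≤ m) (h𝔰m : (Ideal.absNorm 𝔰 : ℝ) ≤ m) (h𝔯m : (Ideal.absNorm 𝔯 : ℝ) ≤ m)
    (S : Finset (𝓞 K × 𝓞 K))
    (hS : ∀ w ∈ S, w.1 ∈ 𝔰 ∧ w.2 ∈ 𝔯 ∧
      (Ideal.absNorm (Ideal.span {w.1}) : ℝ) ≤ M * Ideal.absNorm 𝔰 ∧
      (Ideal.absNorm (Ideal.span {w.2}) : ℝ) ≤ M * Ideal.absNorm 𝔯 ∧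
      a * w.2 - b * w.1 ∈ 𝔮) :
    (S.card : ℝ) ≤ (1 + C2 * 4) * (1 + C2 * (4 * m ^ 2)) * (1 + B ^ 2 / Ideal.absNorm 𝔮) := by
  classical
  have hN : (0 : ℝ) < Ideal.absNorm 𝔮 := by exact_mod_cast absNorm_pos' hbot
  have hdet : ∀ w ∈ S, (Ideal.absNorm (Ideal.span {a * w.2 - b * w.1}) : ℝ) ≤
      4 * m ^ 2 * B ^ 2 := by
    intro w hw
    obtain ⟨-, -, h3, h4, -⟩ := hS w hw
    refine (hsubN _ _).trans ?_
    rw [norm_span_mul, norm_span_mul, ha, hb, map_mul, map_mul]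
    push_cast
    have k1 : (Ideal.absNorm 𝔞 : ℝ) * Ideal.absNorm 𝔰 * (Ideal.absNorm (Ideal.span {w.2}) : ℝ) ≤
        (B * m) * (B * m) := by
      have hBm : 0 ≤ B * m := mul_nonneg (by linarith) (by linarith)
      refine mul_le_mul ?_ ?_ (by positivity) hBm
      · exact mul_le_mul (hMa.trans hMB) h𝔰m (by positivity) (by linarith)
      · exact h4.trans (mul_le_mul hMB h𝔯m (by positivity) (by linarith))
    have k2 : (Ideal.absNorm 𝔟 : ℝ) * Ideal.absNorm 𝔯 * (Ideal.absNorm (Ideal.span {w.1}) : ℝ) ≤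
        (B * m) * (B * m) := by
      have hBm : 0 ≤ B * m := mul_nonneg (by linarith) (by linarith)
      refine mul_le_mul ?_ ?_ (by positivity) hBm
      · exact mul_le_mul (hMb.trans hMB) h𝔯m (by positivity) (by linarith)
      · exact h3.trans (mul_le_mul hMB h𝔰m (by positivity) (by linarith))
    calc _ ≤ 2 * ((B * m) * (B * m) + (B * m) * (B * m)) := by linarith
      _ = _ := by ring
  have himg := hel (4 * m ^ 2 * B ^ 2) 𝔮 (S.image (fun w => a * w.2 - b * w.1))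
    (by positivity) hbot (by
      intro t ht
      obtain ⟨w, hw, rfl⟩ := Finset.mem_image.mp ht
      exact ⟨(hS w hw).2.2.2.2, hdet w hw⟩)
  obtain ⟨n4, hn4⟩ : ∃ n4 : ℕ, n4 = ⌊1 + C2 * 4⌋₊ := ⟨_, rfl⟩
  have hfib : ∀ t ∈ S.image (fun w => a * w.2 - b * w.1),
      (S.filter (fun w => a * w.2 - b * w.1 = t)).card ≤ n4 := by
    intro t ht
    obtain ⟨w0, hw0, rfl⟩ := Finset.mem_image.mp ht
    rw [hn4]
    refine Nat.le_floor (line_count hsubN hel h𝔞 h𝔰0 h𝔯0 hcop ha hb ha0 hb0 hM0 hM _ w0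
      (Finset.mem_filter.mpr ⟨hw0, rfl⟩) ?_)
    intro w hw
    obtain ⟨h1, h2⟩ := Finset.mem_filter.mp hw
    obtain ⟨h3, h4, h5, h6, -⟩ := hS w h1
    exact ⟨h3, h4, h5, h6, h2⟩
  have hfin := Finset.card_le_mul_card_image S n4 hfib
  have h5 : (n4 : ℝ) ≤ 1 + C2 * 4 := by
    rw [hn4]; exact Nat.floor_le (by positivity)
  have h6 : (S.card : ℝ) ≤ n4 * ((S.image (fun w => a * w.2 - b * w.1)).card : ℝ) := by
    exact_mod_cast hfin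
  calc (S.card : ℝ) ≤ n4 * ((S.image (fun w => a * w.2 - b * w.1)).card : ℝ) := h6
    _ ≤ (1 + C2 * 4) * (1 + C2 * (4 * m ^ 2 * B ^ 2 / Ideal.absNorm 𝔮)) := by gcongr
    _ ≤ (1 + C2 * 4) * ((1 + C2 * (4 * m ^ 2)) * (1 + B ^ 2 / Ideal.absNorm 𝔮)) := by
        refine mul_le_mul_of_nonneg_left ?_ (by positivity)
        have h7 : 0 ≤ B ^ 2 / (Ideal.absNorm 𝔮 : ℝ) := by positivity
        have h8 : C2 * (4 * m ^ 2 * B ^ 2 / (Ideal.absNorm 𝔮 : ℝ)) =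
            C2 * (4 * m ^ 2) * (B ^ 2 / (Ideal.absNorm 𝔮 : ℝ)) := by ring
        rw [h8]
        have h9 : 0 ≤ C2 * (4 * m ^ 2) := by positivity
        nlinarith
    _ = _ := by ring

end

section

variable {K : Type} [Field K] [NumberField K]

/-- generators of `𝔞𝔰`, `𝔟𝔯` which keep track of the class modulo `𝔮` -/
theorem gens {𝔮 : Ideal (𝓞 K)} (htop : 𝔮 ≠ ⊤) {v w : Mq 𝔮 × Mq 𝔮} {c : Cls (pi1 htop)}
    (hv : cls (pi1 htop) v.1 = c * cls (pi1 htop) v.2)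
    (hw : cls (pi1 htop) w.1 = c * cls (pi1 htop) w.2) {𝔰 𝔯 : Ideal (𝓞 K)} {a1 b1 a b : 𝓞 K}
    (ha1 : Ideal.span {a1} = (v.1 : Ideal (𝓞 K)) * 𝔰)
    (hb1 : Ideal.span {b1} = (v.2 : Ideal (𝓞 K)) * 𝔯)
    (ha : Ideal.span {a} = (w.1 : Ideal (𝓞 K)) * 𝔰)
    (hb : Ideal.span {b} = (w.2 : Ideal (𝓞 K)) * 𝔯) :
    ∃ u : (𝓞 K)ˣ, a1 * (b * u) - b1 * a ∈ 𝔮 := by
  have hc : cls (pi1 htop) (v.1 * w.2) = cls (pi1 htop) (v.2 * w.1) := by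
    rw [map_mul, map_mul, hv, hw, mul_comm c, mul_assoc]
  have hcanc := Mq_cancel htop
  obtain ⟨x, y, hxy⟩ := cls_eq hc
  have h3 := congrArg Subtype.val hxy
  rw [Submonoid.coe_mul, Submonoid.coe_mul, Submonoid.coe_mul, Submonoid.coe_mul,
    pi1_coe, pi1_coe] at h3
  have h4 : Ideal.span {(x : 𝓞 K) * a1 * b} = Ideal.span {(y : 𝓞 K) * b1 * a} := by
    rw [← Ideal.span_singleton_mul_span_singleton, ← Ideal.span_singleton_mul_span_singleton,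
      ← Ideal.span_singleton_mul_span_singleton, ← Ideal.span_singleton_mul_span_singleton,
      ha1, hb, hb1, ha]
    calc Ideal.span {(x : 𝓞 K)} * ((v.1 : Ideal (𝓞 K)) * 𝔰) * ((w.2 : Ideal (𝓞 K)) * 𝔯) =
        (Ideal.span {(x : 𝓞 K)} * ((v.1 : Ideal (𝓞 K)) * (w.2 : Ideal (𝓞 K)))) * (𝔰 * 𝔯) := by
          ring
      _ = (Ideal.span {(y : 𝓞 K)} * ((v.2 : Ideal (𝓞 K)) * (w.1 : Ideal (𝓞 K)))) *
          (𝔰 * 𝔯) := by rw [h3]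
      _ = _ := by ring
  rw [Ideal.span_singleton_eq_span_singleton] at h4
  obtain ⟨u, hu⟩ := h4
  refine ⟨u, ?_⟩
  have hx := x.2
  have hy := y.2
  change (x : 𝓞 K) - 1 ∈ 𝔮 at hx
  change (y : 𝓞 K) - 1 ∈ 𝔮 at hy
  have h5 : a1 * (b * (u : 𝓞 K)) - b1 * a = (((y : 𝓞 K) - 1) * (b1 * a) -
      ((x : 𝓞 K) - 1) * (a1 * (b * (u : 𝓞 K)))) := by
    linear_combination hu
  rw [h5]
  exact sub_mem (Ideal.mul_mem_right _ _ hy) (Ideal.mul_mem_right _ _ hx)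

/-- one pair of classes -/
theorem class_count (hsubN : ∀ x y : 𝓞 K, (Ideal.absNorm (Ideal.span {x - y}) : ℝ) ≤
      2 * ((Ideal.absNorm (Ideal.span {x}) : ℝ) + Ideal.absNorm (Ideal.span {y})))
    {C2 : ℝ} (hC2 : 0 < C2) (hel : ∀ (Z : ℝ) (𝔮 : Ideal (𝓞 K)) (S : Finset (𝓞 K)),
      0 ≤ Z → 𝔮 ≠ ⊥ → (∀ t ∈ S, t ∈ 𝔮 ∧ (Ideal.absNorm (Ideal.span {t}) : ℝ) ≤ Z) →
      (S.card : ℝ) ≤ 1 + C2 * (Z / Ideal.absNorm 𝔮))
    {𝔮 : Ideal (𝓞 K)} (hbot : 𝔮 ≠ ⊥) (htop : 𝔮 ≠ ⊤) (c : Cls (pi1 htop))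
    {𝔰 𝔯 : Ideal (𝓞 K)} (h𝔰0 : 𝔰 ≠ ⊥) (h𝔯0 : 𝔯 ≠ ⊥) {B m : ℝ} (hB : 0 ≤ B)
    (hm1 : 1 ≤ m) (h𝔰m : (Ideal.absNorm 𝔰 : ℝ) ≤ m) (h𝔯m : (Ideal.absNorm 𝔯 : ℝ) ≤ m)
    (S : Finset (Mq 𝔮 × Mq 𝔮))
    (hS : ∀ v ∈ S, cls (pi1 htop) v.1 = c * cls (pi1 htop) v.2 ∧
      IsCoprime (v.1 : Ideal (𝓞 K)) (v.2 : Ideal (𝓞 K)) ∧
      (Ideal.absNorm (v.1 : Ideal (𝓞 K)) : ℝ) ≤ B ∧ (Ideal.absNorm (v.2 : Ideal (𝓞 K)) : ℝ) ≤ B ∧
      (∃ a : 𝓞 K, Ideal.span {a} = (v.1 : Ideal (𝓞 K)) * 𝔰) ∧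
      (∃ b : 𝓞 K, Ideal.span {b} = (v.2 : Ideal (𝓞 K)) * 𝔯)) :
    (S.card : ℝ) ≤ (1 + C2 * 4) * (1 + C2 * (4 * m ^ 2)) * (1 + B ^ 2 / Ideal.absNorm 𝔮) := by
  classical
  have hN : (0 : ℝ) < Ideal.absNorm 𝔮 := by exact_mod_cast absNorm_pos' hbot
  rcases S.eq_empty_or_nonempty with h0 | hne
  · rw [h0, Finset.card_empty, Nat.cast_zero]
    positivity
  obtain ⟨v, hv, hmax⟩ := S.exists_max_image (fun v => max (Ideal.absNorm (v.1 : Ideal (𝓞 K)))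
    (Ideal.absNorm (v.2 : Ideal (𝓞 K)))) hne
  obtain ⟨hv1, hv2, hv3, hv4, ⟨a1, ha1⟩, ⟨b1, hb1⟩⟩ := hS v hv
  have ha10 : a1 ≠ 0 := by
    rintro rfl
    rw [Ideal.span_singleton_eq_bot.mpr rfl] at ha1
    exact mul_ne_zero (Mq_ne_bot htop v.1) h𝔰0 ha1.symm
  have hb10 : b1 ≠ 0 := by
    rintro rfl
    rw [Ideal.span_singleton_eq_bot.mpr rfl] at hb1
    exact mul_ne_zero (Mq_ne_bot htop v.2) h𝔯0 hb1.symm
  have hgen : ∀ w : Mq 𝔮 × Mq 𝔮, ∃ p : 𝓞 K × 𝓞 K, w ∈ S →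
      Ideal.span {p.1} = (w.1 : Ideal (𝓞 K)) * 𝔰 ∧ Ideal.span {p.2} = (w.2 : Ideal (𝓞 K)) * 𝔯 ∧
        a1 * p.2 - b1 * p.1 ∈ 𝔮 := by
    intro w
    by_cases hw : w ∈ S
    · obtain ⟨hw1, -, -, -, ⟨a, ha⟩, ⟨b, hb⟩⟩ := hS w hw
      obtain ⟨u, hu⟩ := gens htop hv1 hw1 ha1 hb1 ha hb
      refine ⟨(a, b * u), fun _ => ⟨ha, ?_, hu⟩⟩
      rw [← hb]
      exact Ideal.span_singleton_mul_right_unit u.isUnit b
    · exact ⟨0, fun h => absurd h hw⟩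
  choose g hg using hgen
  have hinj : Set.InjOn g S := by
    intro w hw w' hw' hee
    rw [Finset.mem_coe] at hw hw'
    obtain ⟨f1, f2, -⟩ := hg w hw
    obtain ⟨f1', f2', -⟩ := hg w' hw'
    rw [hee, f1'] at f1
    rw [hee, f2'] at f2
    exact Prod.ext (Subtype.ext (mul_right_cancel₀ h𝔰0 f1).symm)
      (Subtype.ext (mul_right_cancel₀ h𝔯0 f2).symm)
  rw [← Finset.card_image_of_injOn hinj]
  obtain ⟨M, hM⟩ : ∃ M : ℕ, M = max (Ideal.absNorm (v.1 : Ideal (𝓞 K)))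
    (Ideal.absNorm (v.2 : Ideal (𝓞 K))) := ⟨_, rfl⟩
  have hM0 : (0 : ℝ) < M := by
    have h5 : 0 < Ideal.absNorm (v.1 : Ideal (𝓞 K)) := absNorm_pos' (Mq_ne_bot htop v.1)
    have h6 : 0 < M := by rw [hM]; exact lt_of_lt_of_le h5 (le_max_left _ _)
    exact_mod_cast h6
  have hMor : (M : ℝ) = Ideal.absNorm (v.1 : Ideal (𝓞 K)) ∨
      (M : ℝ) = Ideal.absNorm (v.2 : Ideal (𝓞 K)) := by
    rcases max_choice (Ideal.absNorm (v.1 : Ideal (𝓞 K)))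
      (Ideal.absNorm (v.2 : Ideal (𝓞 K))) with h5 | h5
    · left; rw [hM, h5]
    · right; rw [hM, h5]
  refine pair_count hsubN hC2 hel hbot (Mq_ne_bot htop v.1) h𝔰0 h𝔯0 hv2 ha1 hb1 ha10 hb10 hM0 hMor
    ?_ ?_ ?_ hm1 h𝔰m h𝔯m _ ?_
  · rw [hM]; exact_mod_cast le_max_left _ _
  · rw [hM]; exact_mod_cast le_max_right _ _
  · rcases hMor with h5 | h5
    · rw [h5]; exact hv3
    · rw [h5]; exact hv4
  intro p hp
  obtain ⟨w, hw, rfl⟩ := Finset.mem_image.mp hp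
  obtain ⟨g1, g2, g3⟩ := hg w hw
  have l1 := hmax w hw
  rw [← hM] at l1
  have m1 : (Ideal.absNorm (w.1 : Ideal (𝓞 K)) : ℝ) ≤ M := by
    exact_mod_cast (le_max_left _ _).trans l1
  have m2 : (Ideal.absNorm (w.2 : Ideal (𝓞 K)) : ℝ) ≤ M := by
    exact_mod_cast (le_max_right _ _).trans l1
  refine ⟨?_, ?_, ?_, ?_, g3⟩
  · have : (g w).1 ∈ (w.1 : Ideal (𝓞 K)) * 𝔰 := by
      rw [← g1]; exact Ideal.mem_span_singleton_self _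
    exact Ideal.mul_le_right this
  · have : (g w).2 ∈ (w.2 : Ideal (𝓞 K)) * 𝔯 := by
      rw [← g2]; exact Ideal.mem_span_singleton_self _
    exact Ideal.mul_le_right this
  · rw [g1, map_mul]
    push_cast
    exact mul_le_mul_of_nonneg_right m1 (Nat.cast_nonneg _)
  · rw [g2, map_mul]
    push_cast
    exact mul_le_mul_of_nonneg_right m2 (Nat.cast_nonneg _)

end

section

variable (K : Type) [Field K] [NumberField K] [IsTotallyComplex K]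

/-- a bound for each fibre -/
theorem card_le_fib {α β : Type*} [Finite β] (f : α → β) (S : Finset α) (c : ℝ)
    (h : ∀ (b : β) (T : Finset α), (∀ v ∈ T, v ∈ S ∧ f v = b) → (T.card : ℝ) ≤ c) :
    (S.card : ℝ) ≤ Nat.card β * c := by
  classical
  have := Fintype.ofFinite β
  have hpart : S.card = ∑ p : β, (S.filter (fun v => f v = p)).card :=
    Finset.card_eq_sum_card_fiberwise (f := f) (t := Finset.univ) (fun _ _ => Finset.mem_univ _)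
  rw [hpart]
  push_cast
  refine (Finset.sum_le_sum fun p _ => h p _ fun v hv => Finset.mem_filter.mp hv).trans ?_
  rw [Finset.sum_const, nsmul_eq_mul, Finset.card_univ, Nat.card_eq_fintype_card]

/-- representatives of the inverse classes -/
theorem reps (K : Type) [Field K] [NumberField K] : ∃ (rp : ClassGroup (𝓞 K) → Ideal (𝓞 K)) (m : ℝ),
    1 ≤ m ∧ (∀ A, rp A ≠ ⊥ ∧ (Ideal.absNorm (rp A) : ℝ) ≤ m) ∧
    ∀ (A : ClassGroup (𝓞 K)) (𝔞 : nonZeroDivisors (Ideal (𝓞 K))), ClassGroup.mk0 𝔞 = A →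
      ∃ a : 𝓞 K, Ideal.span {a} = (𝔞 : Ideal (𝓞 K)) * rp A := by
  classical
  have hrep : ∀ A : ClassGroup (𝓞 K), ∃ 𝔰 : nonZeroDivisors (Ideal (𝓞 K)),
      ClassGroup.mk0 𝔰 = A⁻¹ := fun A => ClassGroup.mk0_surjective A⁻¹
  choose rp hrp using hrep
  refine ⟨fun A => (rp A : Ideal (𝓞 K)),
    1 + ∑ A : ClassGroup (𝓞 K), (Ideal.absNorm (rp A : Ideal (𝓞 K)) : ℝ), ?_, fun A => ?_, ?_⟩
  · have : 0 ≤ ∑ A : ClassGroup (𝓞 K), (Ideal.absNorm (rp A : Ideal (𝓞 K)) : ℝ) :=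
      Finset.sum_nonneg fun _ _ => Nat.cast_nonneg _
    linarith
  · have : (Ideal.absNorm (rp A : Ideal (𝓞 K)) : ℝ) ≤
        ∑ A : ClassGroup (𝓞 K), (Ideal.absNorm (rp A : Ideal (𝓞 K)) : ℝ) :=
      Finset.single_le_sum (f := fun A => (Ideal.absNorm (rp A : Ideal (𝓞 K)) : ℝ))
        (fun _ _ => Nat.cast_nonneg _) (Finset.mem_univ A)
    exact ⟨nonZeroDivisors.ne_zero (rp A).2, by linarith⟩
  · intro A 𝔞 hA
    have h3 : ClassGroup.mk0 (𝔞 * rp A) = 1 := by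
      rw [map_mul, hrp A, hA, mul_inv_cancel]
    rw [ClassGroup.mk0_eq_one_iff] at h3
    obtain ⟨a, ha⟩ := h3.principal
    exact ⟨a, ha.symm⟩

theorem cg_prin {K : Type} [Field K] [NumberField K] {rp : ClassGroup (𝓞 K) → Ideal (𝓞 K)}
    (hrp : ∀ (A : ClassGroup (𝓞 K)) (𝔞 : nonZeroDivisors (Ideal (𝓞 K))), ClassGroup.mk0 𝔞 = A →
      ∃ a : 𝓞 K, Ideal.span {a} = (𝔞 : Ideal (𝓞 K)) * rp A)
    {𝔮 : Ideal (𝓞 K)} (htop : 𝔮 ≠ ⊤) (𝔞 : Mq 𝔮) (A : ClassGroup (𝓞 K)) (h : cg htop 𝔞 = A) :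
    ∃ a : 𝓞 K, Ideal.span {a} = (𝔞 : Ideal (𝓞 K)) * rp A := by
  unfold cg at h
  obtain ⟨a, ha⟩ := hrp A _ h
  exact ⟨a, ha⟩

/-- pairs of coprime ideals in a fixed relation -/
theorem lattice_count (h2 : Module.finrank ℚ K = 2) : ∃ C : ℝ, 0 < C ∧
    ∀ (𝔮 : Ideal (𝓞 K)) (_ : 𝔮 ≠ ⊥) (htop : 𝔮 ≠ ⊤) (c : Cls (pi1 htop)) (B : ℝ)
      (S : Finset (Mq 𝔮 × Mq 𝔮)), 0 ≤ B →
    (∀ v ∈ S, cls (pi1 htop) v.1 = c * cls (pi1 htop) v.2 ∧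
      IsCoprime (v.1 : Ideal (𝓞 K)) (v.2 : Ideal (𝓞 K)) ∧
      (Ideal.absNorm (v.1 : Ideal (𝓞 K)) : ℝ) ≤ B ∧ (Ideal.absNorm (v.2 : Ideal (𝓞 K)) : ℝ) ≤ B) →
    (S.card : ℝ) ≤ C * (1 + B ^ 2 / Ideal.absNorm 𝔮) := by
  classical
  have hfu : Finite (𝓞 K)ˣ := finite_units (K := K) h2
  have hNsub := norm_sub_le' (K := K) h2
  have hsubN : ∀ x y : 𝓞 K, (Ideal.absNorm (Ideal.span {x - y}) : ℝ) ≤
      2 * ((Ideal.absNorm (Ideal.span {x}) : ℝ) + Ideal.absNorm (Ideal.span {y})) := by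
    intro x y
    exact_mod_cast hNsub x y
  obtain ⟨C2, hC2, hel⟩ := elts_le K
  obtain ⟨rp, m, hm1, hm, hrp⟩ := reps K
  obtain ⟨h, hh⟩ : ∃ h : ℕ, h = Nat.card (ClassGroup (𝓞 K) × ClassGroup (𝓞 K)) :=
    ⟨_, rfl⟩
  obtain ⟨E, hE⟩ : ∃ E : ℝ, E = (1 + C2 * 4) * (1 + C2 * (4 * m ^ 2)) := ⟨_, rfl⟩
  have hE0 : 0 < E := by rw [hE]; positivity
  refine ⟨(h + 1) * E, by positivity, ?_⟩
  intro 𝔮 hbot htop c B S hB hS
  have hN : (0 : ℝ) < Ideal.absNorm 𝔮 := by exact_mod_cast absNorm_pos' hbot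
  have hfin : Finite (ClassGroup (𝓞 K) × ClassGroup (𝓞 K)) := inferInstance
  have h8 := card_le_fib (fun v : Mq 𝔮 × Mq 𝔮 => (cg htop v.1, cg htop v.2)) S
      (E * (1 + B ^ 2 / Ideal.absNorm 𝔮)) (by
    rintro ⟨A, A'⟩ T hT
    rw [hE]
    refine class_count hsubN hC2 hel hbot htop c (hm A).1 (hm A').1 hB hm1 (hm A).2 (hm A').2 _ ?_
    intro v hv
    obtain ⟨h3, h4⟩ := hT v hv
    obtain ⟨h5, h6, h7, h8⟩ := hS v h3
    rw [Prod.mk.injEq] at h4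
    exact ⟨h5, h6, h7, h8, cg_prin hrp htop v.1 A h4.1, cg_prin hrp htop v.2 A' h4.2⟩)
  rw [← hh] at h8
  refine h8.trans ?_
  have h7 : 0 ≤ E * (1 + B ^ 2 / (Ideal.absNorm 𝔮 : ℝ)) := by
    positivity
  calc (h : ℝ) * (E * (1 + B ^ 2 / (Ideal.absNorm 𝔮 : ℝ))) ≤
      (h + 1) * (E * (1 + B ^ 2 / (Ideal.absNorm 𝔮 : ℝ))) :=
        mul_le_mul_of_nonneg_right (by linarith) h7
    _ = _ := by ring

end

end Pool.Agent.Y773.AB
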