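import Pool.Agent.W352.ChAbs.Main
import Pool.Agent.W401.Cheb.Main

/-!
# Every element of an abelian Galois group is a Frobenius element outside a given modulus
-/

set_option autoImplicit false
set_option linter.unusedSectionVars false

namespace Pool.Agent.Y773.AB

open NumberField Filter Topology IsDedekindDomain Pool.Agent.W401.Cheb

theorem chebK : ChebK := Pool.Agent.W352.ChAbs.main chebotarev fun L => torsor L

theorem coe_smul' {K : Type} [Field K] [NumberField K] (σ : GK K) (x : 𝓞 (AlgebraicClosure K)) :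
    ((σ • x : 𝓞 (AlgebraicClosure K)) : AlgebraicClosure K) = σ (x : AlgebraicClosure K) := rfl

theorem exists_frob (K E : Type) [Field K] [NumberField K] [Field E] [NumberField E] [Algebra K E]
    [IsAbelianGalois K E] (𝔮 : Ideal (𝓞 K)) (h𝔮 : 𝔮 ≠ ⊥) (g : E ≃ₐ[K] E) :
    ∃ (𝔭 : Ideal (𝓞 K)) (P : Ideal (𝓞 E)), Prime 𝔭 ∧ IsCoprime 𝔭 𝔮 ∧ P.IsPrime ∧
      (∀ x ∈ 𝔭, algebraMap (𝓞 K) (𝓞 E) x ∈ P) ∧
      ∀ x y : 𝓞 E, (y : E) = g (x : E) → y - x ^ (Ideal.absNorm 𝔭) ∈ P := by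
  classical
  let ι : E →ₐ[K] AlgebraicClosure K := IsAlgClosed.lift
  let _ : Algebra E (AlgebraicClosure K) := ι.toRingHom.toAlgebra
  have : IsScalarTower K E (AlgebraicClosure K) :=
    IsScalarTower.of_algebraMap_eq' ι.comp_algebraMap.symm
  have hι : ∀ x, algebraMap E (AlgebraicClosure K) x = ι x := fun x => rfl
  let r : GK K →* (E ≃ₐ[K] E) := AlgEquiv.restrictNormalHom E
  have hr : ∀ (σ : GK K) (x : E), ι (r σ x) = σ (ι x) := fun σ x =>
    AlgEquiv.restrictNormal_commutes σ E x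
  have hrs : Function.Surjective r := AlgEquiv.restrictNormalHom_surjective (F := K) (K₁ := E)
    (AlgebraicClosure K)
  -- the kernel is open
  have hU : IsOpen (r.ker : Set (GK K)) := by
    have hfd : FiniteDimensional K ι.fieldRange := by
      exact (AlgEquiv.ofInjectiveField ι).toLinearEquiv.finiteDimensional
    refine Subgroup.isOpen_mono (H₁ := ι.fieldRange.fixingSubgroup) ?_
      (IntermediateField.fixingSubgroup_isOpen ι.fieldRange)
    intro σ hσ
    rw [MonoidHom.mem_ker]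
    refine AlgEquiv.ext fun x => ι.injective ?_
    change ι (r σ x) = ι x
    rw [hr]
    exact (IntermediateField.mem_fixingSubgroup_iff _ _).mp hσ (ι x) ⟨x, rfl⟩
  have hcomm : ∀ a b : E ≃ₐ[K] E, a * b = b * a := fun a b => mul_comm' a b
  -- the set
  let C : Set (GK K) := {σ | r σ = g}
  have hC1 : ∀ σ ∈ C, ∀ τ : GK K, τ * σ * τ⁻¹ ∈ C := by
    intro σ hσ τ
    change r (τ * σ * τ⁻¹) = g
    have h1 : r σ = g := hσ
    rw [map_mul, map_mul, h1, hcomm (r τ) g, mul_assoc, ← map_mul, mul_inv_cancel, map_one, mul_one]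
  have hC2 : ∀ σ ∈ C, ∀ u ∈ r.ker, σ * u ∈ C := by
    intro σ hσ u hu
    change r (σ * u) = g
    have h1 : r σ = g := hσ
    rw [map_mul, h1, MonoidHom.mem_ker.mp hu, mul_one]
  have h1 := chebK K r.ker hU C hC1 hC2
  by_contra hcon
  have key : ∀ v : HeightOneSpectrum (𝓞 K), (∃ σ ∈ C, IsFrob v σ) → v.asIdeal ∣ 𝔮 := by
    rintro v ⟨σ, hσ, Q, hQ, hQv, hQσ⟩
    by_contra hnd
    apply hcon
    have hcop : IsCoprime v.asIdeal 𝔮 := by
      rw [Ideal.isCoprime_iff_sup_eq]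
      rcases v.isMaximal.out.le_iff.mp (show v.asIdeal ≤ v.asIdeal ⊔ 𝔮 from le_sup_left) with h | h
      · exact h
      · exact absurd (Ideal.dvd_iff_le.mpr (h ▸ le_sup_right)) hnd
    refine ⟨v.asIdeal, Q.comap (RingOfIntegers.mapRingHom (ι : E →+* AlgebraicClosure K)), v.prime,
      hcop, Ideal.comap_isPrime _ _, ?_, ?_⟩
    · intro x hx
      rw [← hQv, Ideal.mem_comap] at hx
      rw [Ideal.mem_comap]
      have h2 : RingOfIntegers.mapRingHom (ι : E →+* AlgebraicClosure K)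
          (algebraMap (𝓞 K) (𝓞 E) x) = algebraMap (𝓞 K) (𝓞 (AlgebraicClosure K)) x := by
        apply RingOfIntegers.ext
        change ι (algebraMap K E (x : K)) = algebraMap K (AlgebraicClosure K) (x : K)
        exact ι.commutes _
      rw [h2]
      exact hx
    · intro x y hxy
      rw [Ideal.mem_comap, map_sub, map_pow]
      have h2 := hQσ (RingOfIntegers.mapRingHom (ι : E →+* AlgebraicClosure K) x)
      have h3 : σ • RingOfIntegers.mapRingHom (ι : E →+* AlgebraicClosure K) x =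
          RingOfIntegers.mapRingHom (ι : E →+* AlgebraicClosure K) y := by
        apply RingOfIntegers.ext
        rw [coe_smul']
        change σ (ι (x : E)) = ι (y : E)
        rw [hxy, ← hr]
        have h4 : r σ = g := hσ
        rw [h4]
      rw [h3] at h2
      exact h2
  have hfin : {v : HeightOneSpectrum (𝓞 K) | v.asIdeal ∣ 𝔮}.Finite := Ideal.finite_factors h𝔮
  obtain ⟨N, hN⟩ : ∃ N : ℕ, N = {v : HeightOneSpectrum (𝓞 K) | v.asIdeal ∣ 𝔮}.ncard := ⟨_, rfl⟩
  have h2 : ∀ n : ℕ, dens (fun v : HeightOneSpectrum (𝓞 K) => ∃ σ ∈ C, IsFrob v σ) n ≤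
      (N : ℝ) / (Nat.primeCounting n : ℝ) := by
    intro n
    unfold dens
    apply div_le_div_of_nonneg_right _ (Nat.cast_nonneg _)
    have h3 : Nat.card {v : HeightOneSpectrum (𝓞 K) // Ideal.absNorm v.asIdeal ≤ n ∧
        ∃ σ ∈ C, IsFrob v σ} ≤ N := by
      rw [hN]
      have h4 : {v : HeightOneSpectrum (𝓞 K) | Ideal.absNorm v.asIdeal ≤ n ∧
        ∃ σ ∈ C, IsFrob v σ} ⊆ {v : HeightOneSpectrum (𝓞 K) | v.asIdeal ∣ 𝔮} :=
        fun v hv => key v hv.2
      exact Set.ncard_le_ncard h4 hfin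
    exact_mod_cast h3
  have h3 : Tendsto (fun n : ℕ => (N : ℝ) / (Nat.primeCounting n : ℝ)) atTop (𝓝 0) := by
    apply Tendsto.const_div_atTop
    exact tendsto_natCast_atTop_atTop.comp Nat.tendsto_primeCounting
  have h4 := le_of_tendsto_of_tendsto' h1 h3 h2
  have hfinq : Finite (GK K ⧸ r.ker) := Subgroup.quotient_finite_of_isOpen r.ker hU
  have h5 : 0 < ((QuotientGroup.mk : GK K → GK K ⧸ r.ker) '' C).ncard := by
    rw [Set.ncard_pos (Set.toFinite _)]
    obtain ⟨σ, hσ⟩ := hrs g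
    exact ⟨_, σ, hσ, rfl⟩
  have h6 : 0 < Nat.card (GK K ⧸ r.ker) := Nat.card_pos
  have h7 : (0 : ℝ) < (((QuotientGroup.mk : GK K → GK K ⧸ r.ker) '' C).ncard : ℝ) /
      (Nat.card (GK K ⧸ r.ker) : ℝ) := by positivity
  exact absurd h4 (not_le.2 h7)

end Pool.Agent.Y773.AB
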