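import Mathlib

/-!
# The local identity behind the factorisation of zeta functions of abelian extensions
-/

set_option autoImplicit false

open Complex Filter Topology

namespace Pool.Agent.Y773.AB

section

variable {G : Type} [CommGroup G] [Finite G]

lemma fin_dual : Finite (G →* ℂˣ) := by
  have : NeZero (Monoid.exponent G) := ⟨Monoid.exponent_ne_zero_of_finite⟩
  refine Nat.finite_of_card_ne_zero ?_
  rw [CommGroup.card_monoidHom_of_hasEnoughRootsOfUnity G ℂ]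
  exact Nat.card_pos.ne'

open Classical in
/-- orthogonality -/
lemma sum_chars [Fintype (G →* ℂˣ)] (a : G) :
    ∑ χ : G →* ℂˣ, ((χ a : ℂˣ) : ℂ) = if a = 1 then (Nat.card G : ℂ) else 0 := by
  have : NeZero (Monoid.exponent G) := ⟨Monoid.exponent_ne_zero_of_finite⟩
  split_ifs with h
  · subst h
    simp only [map_one, Units.val_one, Finset.sum_const, nsmul_eq_mul, mul_one]
    rw [Finset.card_univ, ← Nat.card_eq_fintype_card,
      CommGroup.card_monoidHom_of_hasEnoughRootsOfUnity G ℂ]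
  · obtain ⟨φ, hφ⟩ := CommGroup.exists_apply_ne_one_of_hasEnoughRootsOfUnity G ℂ h
    have h1 : ∑ χ : G →* ℂˣ, ((χ a : ℂˣ) : ℂ) =
        ((φ a : ℂˣ) : ℂ) * ∑ χ : G →* ℂˣ, ((χ a : ℂˣ) : ℂ) := by
      rw [Finset.mul_sum]
      refine (Fintype.sum_equiv (Equiv.mulLeft φ) _ _ fun χ => ?_).symm
      rw [Equiv.coe_mulLeft, MonoidHom.mul_apply, Units.val_mul]
    have h2 : (1 - ((φ a : ℂˣ) : ℂ)) * ∑ χ : G →* ℂˣ, ((χ a : ℂˣ) : ℂ) = 0 := by
      linear_combination h1
    rcases mul_eq_zero.mp h2 with h3 | h3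
    · exfalso
      apply hφ
      ext
      rw [Units.val_one]
      exact (sub_eq_zero.mp h3).symm
    · exact h3

lemma norm_char (χ : G →* ℂˣ) (a : G) : ‖((χ a : ℂˣ) : ℂ)‖ = 1 := by
  have h1 : ((χ a : ℂˣ) : ℂ) ^ Nat.card G = 1 := by
    rw [← Units.val_pow_eq_pow_val, ← map_pow, pow_card_eq_one', map_one, Units.val_one]
  exact Complex.norm_eq_one_of_pow_eq_one h1 Nat.card_pos.ne'

/-- the logarithmic local identity -/
theorem sum_log [Fintype (G →* ℂˣ)] (g : G) {x : ℂ} (hx : ‖x‖ < 1) :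
    ∑ χ : G →* ℂˣ, -Complex.log (1 - ((χ g : ℂˣ) : ℂ) * x) =
      ((Nat.card G : ℂ) / (orderOf g : ℂ)) * -Complex.log (1 - x ^ orderOf g) := by
  classical
  have hf : 0 < orderOf g := orderOf_pos g
  have hf0 : (orderOf g : ℂ) ≠ 0 := by exact_mod_cast hf.ne'
  have h1 : ∀ χ : G →* ℂˣ, HasSum (fun n : ℕ => (((χ g : ℂˣ) : ℂ) * x) ^ n / (n : ℂ))
      (-Complex.log (1 - ((χ g : ℂˣ) : ℂ) * x)) := by
    intro χ
    refine Complex.hasSum_taylorSeries_neg_log ?_
    rw [norm_mul, norm_char, one_mul]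
    exact hx
  have h2 := hasSum_sum (s := Finset.univ) (fun χ (_ : χ ∈ (Finset.univ : Finset (G →* ℂˣ))) => h1 χ)
  have h3 : ∀ n : ℕ, ∑ χ : G →* ℂˣ, (((χ g : ℂˣ) : ℂ) * x) ^ n / (n : ℂ) =
      if orderOf g ∣ n then (Nat.card G : ℂ) * (x ^ n / (n : ℂ)) else 0 := by
    intro n
    have h4 : ∀ χ : G →* ℂˣ, (((χ g : ℂˣ) : ℂ) * x) ^ n / (n : ℂ) =
        ((χ (g ^ n) : ℂˣ) : ℂ) * (x ^ n / (n : ℂ)) := by
      intro χ
      rw [map_pow, Units.val_pow_eq_pow_val, mul_pow]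
      ring
    simp_rw [h4]
    rw [← Finset.sum_mul, sum_chars]
    by_cases h5 : orderOf g ∣ n
    · rw [if_pos h5, if_pos (orderOf_dvd_iff_pow_eq_one.mp h5)]
    · rw [if_neg h5, if_neg (fun h6 => h5 (orderOf_dvd_iff_pow_eq_one.mpr h6)), zero_mul]
  simp_rw [h3] at h2
  have hxf : ‖x ^ orderOf g‖ < 1 := by
    rw [norm_pow]
    exact pow_lt_one₀ (norm_nonneg _) hx hf.ne'
  have h6 := (Complex.hasSum_taylorSeries_neg_log hxf).mul_left
    ((Nat.card G : ℂ) / (orderOf g : ℂ))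
  have hinj : Function.Injective (fun k : ℕ => orderOf g * k) :=
    fun a b h => Nat.eq_of_mul_eq_mul_left hf h
  have h7 : HasSum (fun n : ℕ => if orderOf g ∣ n then (Nat.card G : ℂ) * (x ^ n / (n : ℂ)) else 0)
      (((Nat.card G : ℂ) / (orderOf g : ℂ)) * -Complex.log (1 - x ^ orderOf g)) := by
    rw [← hinj.hasSum_iff]
    · refine h6.congr_fun fun k => ?_
      simp only [Function.comp_apply, dvd_mul_right, if_true]
      rw [pow_mul]
      push_cast
      by_cases hk : (k : ℂ) = 0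
      · rw [hk]; simp
      · field_simp
    · intro n hn
      rw [if_neg]
      rintro ⟨k, rfl⟩
      exact hn ⟨k, rfl⟩
  exact h2.unique h7

end

end Pool.Agent.Y773.AB
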