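import Pool.Agent.H370R2.Local

/-!
# Counting the zeros of a product
-/

set_option autoImplicit false

open Complex Filter Topology Set Metric
open H370 (zset mult NN Ns Nd)

namespace Pool.Agent.Y773.AB

/-- the region -/
def Rg (T1 T2 : ℝ) : Set ℂ := {s : ℂ | 0 < s.re ∧ s.re < 1 ∧ T1 < s.im ∧ s.im ≤ T2}

/-- number of zeros on the critical line, with multiplicity -/
noncomputable def NL (F : ℂ → ℂ) (T1 T2 : ℝ) : ℕ :=
  ∑ᶠ s ∈ {s : ℂ | s ∈ zset F T1 T2 ∧ s.re = 1 / 2}, mult F s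

lemma mem_zset {F : ℂ → ℂ} {T1 T2 : ℝ} {s : ℂ} :
    s ∈ zset F T1 T2 ↔ s ∈ Rg T1 T2 ∧ F s = 0 := by
  constructor
  · rintro ⟨h1, h2, h3, h4, h5⟩
    exact ⟨⟨h1, h2, h3, h4⟩, h5⟩
  · rintro ⟨⟨h1, h2, h3, h4⟩, h5⟩
    exact ⟨h1, h2, h3, h4, h5⟩

section

variable {F : ℂ → ℂ} {T1 T2 : ℝ}

lemma mult_zero {s : ℂ} (hs : AnalyticAt ℂ F s) (h0 : F s ≠ 0) : mult F s = 0 := by
  unfold mult analyticOrderNatAt
  rw [hs.analyticOrderAt_eq_zero.mpr h0]
  rfl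

lemma mult_pos' {s : ℂ} (hs : AnalyticAt ℂ F s) (ht : analyticOrderAt F s ≠ ⊤) (h0 : F s = 0) :
    1 ≤ mult F s := by
  unfold mult
  rw [Nat.one_le_iff_ne_zero]
  intro h
  have h1 := Nat.cast_analyticOrderNatAt ht
  rw [h, Nat.cast_zero] at h1
  exact hs.analyticOrderAt_ne_zero.mpr h0 h1.symm

/-- the number of zeros as a sum over any finite set containing them -/
lemma NN_eq_sum (han : ∀ s ∈ Rg T1 T2, AnalyticAt ℂ F s) (U : Finset ℂ)
    (hU : ∀ s ∈ U, s ∈ Rg T1 T2) (hz : ∀ s ∈ zset F T1 T2, s ∈ U) :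
    NN F T1 T2 = ∑ s ∈ U, mult F s := by
  classical
  unfold NN
  have hfin : (zset F T1 T2).Finite := U.finite_toSet.subset hz
  rw [finsum_mem_eq_finite_toFinset_sum _ hfin]
  refine Finset.sum_subset (fun s hs => hz s (hfin.mem_toFinset.mp hs)) fun s hs hs' => ?_
  rw [hfin.mem_toFinset] at hs'
  refine mult_zero (han s (hU s hs)) fun h0 => hs' ?_
  exact mem_zset.mpr ⟨hU s hs, h0⟩

lemma NL_eq_sum (han : ∀ s ∈ Rg T1 T2, AnalyticAt ℂ F s) (U : Finset ℂ)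
    (hU : ∀ s ∈ U, s ∈ Rg T1 T2) (hz : ∀ s ∈ zset F T1 T2, s ∈ U) :
    NL F T1 T2 = (open Classical in ∑ s ∈ U.filter (fun s => s.re = 1 / 2), mult F s) := by
  classical
  unfold NL
  have hfin : {s : ℂ | s ∈ zset F T1 T2 ∧ s.re = 1 / 2}.Finite :=
    U.finite_toSet.subset fun s hs => hz s hs.1
  rw [finsum_mem_eq_finite_toFinset_sum _ hfin]
  refine Finset.sum_subset (fun s hs => ?_) fun s hs hs' => ?_
  · rw [hfin.mem_toFinset] at hs
    exact Finset.mem_filter.mpr ⟨hz s hs.1, hs.2⟩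
  · rw [hfin.mem_toFinset] at hs'
    obtain ⟨h1, h2⟩ := Finset.mem_filter.mp hs
    refine mult_zero (han s (hU s h1)) fun h0 => hs' ?_
    exact ⟨mem_zset.mpr ⟨hU s h1, h0⟩, h2⟩

lemma Ns_le_NL (hfin : (zset F T1 T2).Finite) : Ns F T1 T2 ≤ NL F T1 T2 := by
  classical
  unfold Ns NL
  have hfin1 : {s : ℂ | s ∈ zset F T1 T2 ∧ s.re = 1 / 2 ∧ mult F s = 1}.Finite :=
    hfin.subset fun s hs => hs.1
  have hfin2 : {s : ℂ | s ∈ zset F T1 T2 ∧ s.re = 1 / 2}.Finite :=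
    hfin.subset fun s hs => hs.1
  rw [Set.ncard_eq_toFinset_card _ hfin1, finsum_mem_eq_finite_toFinset_sum _ hfin2,
    Finset.card_eq_sum_ones]
  have hsub : hfin1.toFinset ⊆ hfin2.toFinset := by
    intro s hs
    rw [hfin1.mem_toFinset] at hs
    rw [hfin2.mem_toFinset]
    exact ⟨hs.1, hs.2.1⟩
  refine le_trans (Finset.sum_le_sum fun s hs => ?_)
    (Finset.sum_le_sum_of_subset_of_nonneg hsub fun _ _ _ => Nat.zero_le _)
  rw [hfin1.mem_toFinset] at hs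
  exact hs.2.2.ge

lemma NL_le_NN (hfin : (zset F T1 T2).Finite) : NL F T1 T2 ≤ NN F T1 T2 := by
  classical
  unfold NN NL
  have hfin2 : {s : ℂ | s ∈ zset F T1 T2 ∧ s.re = 1 / 2}.Finite :=
    hfin.subset fun s hs => hs.1
  rw [finsum_mem_eq_finite_toFinset_sum _ hfin, finsum_mem_eq_finite_toFinset_sum _ hfin2]
  refine Finset.sum_le_sum_of_subset_of_nonneg (fun s hs => ?_) fun _ _ _ => Nat.zero_le _
  rw [hfin2.mem_toFinset] at hs
  rw [hfin.mem_toFinset]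
  exact hs.1

/-- transfer of the counts -/
lemma count_congr {G : ℂ → ℂ} (hF : ∀ s ∈ Rg T1 T2, AnalyticAt ℂ F s)
    (hG : ∀ s ∈ Rg T1 T2, AnalyticAt ℂ G s)
    (h : ∀ s ∈ Rg T1 T2, analyticOrderAt F s = analyticOrderAt G s) :
    zset F T1 T2 = zset G T1 T2 ∧ NN F T1 T2 = NN G T1 T2 ∧ Ns F T1 T2 = Ns G T1 T2 ∧
      Nd F T1 T2 = Nd G T1 T2 := by
  have h1 : zset F T1 T2 = zset G T1 T2 := by
    ext s
    rw [mem_zset, mem_zset]
    refine and_congr_right fun hs => ?_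
    rw [← (hF s hs).analyticOrderAt_ne_zero, ← (hG s hs).analyticOrderAt_ne_zero, h s hs]
  have h2 : ∀ s ∈ Rg T1 T2, mult F s = mult G s := by
    intro s hs
    unfold mult analyticOrderNatAt
    rw [h s hs]
  refine ⟨h1, ?_, ?_, ?_⟩
  · unfold NN
    rw [h1]
    exact finsum_mem_congr rfl fun s hs => h2 s (mem_zset.mp hs).1
  · unfold Ns
    congr 1
    ext s
    constructor
    · rintro ⟨a, b, c⟩
      rw [h1] at a
      exact ⟨a, b, (h2 s (mem_zset.mp a).1) ▸ c⟩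
    · rintro ⟨a, b, c⟩
      rw [← h1] at a
      exact ⟨a, b, (h2 s (mem_zset.mp a).1).symm ▸ c⟩
  · unfold Nd
    rw [h1]

end

/-- the order of a product with a factor without zeros -/
lemma order_mul_ne {F G u : ℂ → ℂ} {s : ℂ} (hG : AnalyticAt ℂ G s) (hu : AnalyticAt ℂ u s)
    (hu0 : u s ≠ 0) (h : F =ᶠ[𝓝 s] fun z => G z * u z) :
    analyticOrderAt F s = analyticOrderAt G s := by
  rw [analyticOrderAt_congr h]
  have h1 : (fun z => G z * u z) = G * u := rfl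
  rw [h1, analyticOrderAt_mul hG hu, hu.analyticOrderAt_eq_zero.mpr hu0, add_zero]

section prod

variable {ι : Type} [Fintype ι] {F : ι → ℂ → ℂ} {T1 T2 : ℝ}

lemma order_prod {s : ℂ} (h : ∀ i, AnalyticAt ℂ (F i) s) (S : Finset ι) :
    analyticOrderAt (fun z => ∏ i ∈ S, F i z) s = ∑ i ∈ S, analyticOrderAt (F i) s := by
  classical
  induction S using Finset.induction_on with
  | empty =>
    simp only [Finset.prod_empty, Finset.sum_empty]
    exact analyticAt_const.analyticOrderAt_eq_zero.mpr one_ne_zero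
  | insert i S hi ih =>
    simp only [Finset.prod_insert hi, Finset.sum_insert hi]
    have h1 : (fun z => F i z * ∏ j ∈ S, F j z) = F i * fun z => ∏ j ∈ S, F j z := rfl
    rw [h1, analyticOrderAt_mul (h i) (Finset.analyticAt_fun_prod _ fun j _ => h j), ih]

/-- the zeros of a product -/
theorem NN_prod {Z u : ℂ → ℂ} (hF : ∀ i, ∀ s ∈ Rg T1 T2, AnalyticAt ℂ (F i) s)
    (hnt : ∀ i, ∀ s ∈ Rg T1 T2, analyticOrderAt (F i) s ≠ ⊤)
    (hfin : ∀ i, (zset (F i) T1 T2).Finite)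
    (hu : ∀ s ∈ Rg T1 T2, AnalyticAt ℂ u s ∧ u s ≠ 0)
    (hZ : ∀ s ∈ Rg T1 T2, Z =ᶠ[𝓝 s] fun z => (∏ i, F i z) * u z) :
    (zset Z T1 T2).Finite ∧ NN Z T1 T2 = ∑ i, NN (F i) T1 T2 ∧
      NL Z T1 T2 = ∑ i, NL (F i) T1 T2 := by
  classical
  have hPan : ∀ s ∈ Rg T1 T2, AnalyticAt ℂ (fun z => ∏ i, F i z) s := fun s hs =>
    Finset.analyticAt_fun_prod _ fun i _ => hF i s hs
  have hZan : ∀ s ∈ Rg T1 T2, AnalyticAt ℂ Z s := fun s hs =>
    ((hPan s hs).mul (hu s hs).1).congr (hZ s hs).symm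
  have hord : ∀ s ∈ Rg T1 T2, analyticOrderAt Z s = ∑ i, analyticOrderAt (F i) s := by
    intro s hs
    rw [order_mul_ne (hPan s hs) (hu s hs).1 (hu s hs).2 (hZ s hs),
      order_prod (fun i => hF i s hs)]
  have hm : ∀ s ∈ Rg T1 T2, mult Z s = ∑ i, mult (F i) s := by
    intro s hs
    have h1 := hord s hs
    have h2 : ∀ i, analyticOrderAt (F i) s = ((mult (F i) s : ℕ) : ℕ∞) := fun i =>
      (Nat.cast_analyticOrderNatAt (hnt i s hs)).symm
    simp_rw [h2] at h1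
    rw [← Nat.cast_sum] at h1
    unfold mult analyticOrderNatAt
    unfold mult at h1
    rw [h1]
    rfl
  obtain ⟨U, hU⟩ : ∃ U : Finset ℂ, ∀ s, s ∈ U ↔ ∃ i, s ∈ zset (F i) T1 T2 := by
    refine ⟨Finset.univ.biUnion fun i => (hfin i).toFinset, fun s => ?_⟩
    rw [Finset.mem_biUnion]
    constructor
    · rintro ⟨i, -, hi⟩
      exact ⟨i, (hfin i).mem_toFinset.mp hi⟩
    · rintro ⟨i, hi⟩
      exact ⟨i, Finset.mem_univ _, (hfin i).mem_toFinset.mpr hi⟩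
  have hUR : ∀ s ∈ U, s ∈ Rg T1 T2 := by
    intro s hs
    obtain ⟨i, hi⟩ := (hU s).mp hs
    exact (mem_zset.mp hi).1
  have hzU : ∀ s ∈ zset Z T1 T2, s ∈ U := by
    intro s hs
    obtain ⟨h1, h2⟩ := mem_zset.mp hs
    by_contra hnot
    have h3 : ∀ i, F i s ≠ 0 := fun i h0 => hnot ((hU s).mpr ⟨i, mem_zset.mpr ⟨h1, h0⟩⟩)
    have h4 : analyticOrderAt Z s = 0 := by
      rw [hord s h1]
      exact Finset.sum_eq_zero fun i _ => (hF i s h1).analyticOrderAt_eq_zero.mpr (h3 i)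
    exact (hZan s h1).analyticOrderAt_ne_zero.mpr h2 h4
  refine ⟨U.finite_toSet.subset hzU, ?_, ?_⟩
  · rw [NN_eq_sum hZan U hUR hzU]
    have h1 : ∀ i, NN (F i) T1 T2 = ∑ s ∈ U, mult (F i) s := fun i =>
      NN_eq_sum (hF i) U hUR fun s hs => (hU s).mpr ⟨i, hs⟩
    simp_rw [h1]
    rw [Finset.sum_comm]
    exact Finset.sum_congr rfl fun s hs => hm s (hUR s hs)
  · rw [NL_eq_sum hZan U hUR hzU]
    have h1 : ∀ i, NL (F i) T1 T2 = ∑ s ∈ U.filter (fun s => s.re = 1 / 2), mult (F i) s :=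
      fun i => NL_eq_sum (hF i) U hUR fun s hs => (hU s).mpr ⟨i, hs⟩
    simp_rw [h1]
    rw [Finset.sum_comm]
    exact Finset.sum_congr rfl fun s hs => hm s (hUR s (Finset.mem_filter.mp hs).1)

end prod

end Pool.Agent.Y773.AB
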