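import Pool.Agent.Y773.HK.Eul
import Pool.Agent.Y773.HK.Rs
import Pool.Agent.Y772.DK.Main

/-!
# Restriction of a character to the ideals prime to a modulus: the Euler factors
-/

set_option autoImplicit false
set_option linter.unusedSectionVars false

open NumberField Complex Filter Topology Set

namespace Pool.Agent.Y773.AB

open Pool.Agent.Y773 (LI zz hasSum_log norm_zz_lt)

section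

variable {K : Type} [Field K] [NumberField K]

open Classical in
/-- restriction to the ideals prime to `𝔪` -/
noncomputable def res (𝔪 : Ideal (𝓞 K)) (htop : 𝔪 ≠ ⊤) (ψ : Ideal (𝓞 K) →*₀ ℂ) :
    Ideal (𝓞 K) →*₀ ℂ where
  toFun 𝔞 := if IsCoprime 𝔞 𝔪 then ψ 𝔞 else 0
  map_zero' := by
    rw [if_neg]
    intro h
    rw [Ideal.zero_eq_bot, Ideal.isCoprime_iff_sup_eq, bot_sup_eq] at h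
    exact htop h
  map_one' := by
    rw [if_pos isCoprime_one_left, map_one]
  map_mul' 𝔞 𝔟 := by
    by_cases h1 : IsCoprime 𝔞 𝔪
    · by_cases h2 : IsCoprime 𝔟 𝔪
      · rw [if_pos h1, if_pos h2, if_pos (h1.mul_left h2), map_mul]
      · rw [if_neg h2, if_neg (fun h => h2 (IsCoprime.mul_left_iff.mp h).2), mul_zero]
    · rw [if_neg h1, if_neg (fun h => h1 (IsCoprime.mul_left_iff.mp h).1), zero_mul]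

open Classical in
lemma res_apply (𝔪 : Ideal (𝓞 K)) (htop : 𝔪 ≠ ⊤) (ψ : Ideal (𝓞 K) →*₀ ℂ) (𝔞 : Ideal (𝓞 K)) :
    res 𝔪 htop ψ 𝔞 = if IsCoprime 𝔞 𝔪 then ψ 𝔞 else 0 := rfl

lemma res_cop {𝔪 : Ideal (𝓞 K)} (htop : 𝔪 ≠ ⊤) (ψ : Ideal (𝓞 K) →*₀ ℂ) {𝔞 : Ideal (𝓞 K)}
    (h : IsCoprime 𝔞 𝔪) : res 𝔪 htop ψ 𝔞 = ψ 𝔞 := by
  rw [res_apply, if_pos h]

lemma res_not {𝔪 : Ideal (𝓞 K)} (htop : 𝔪 ≠ ⊤) (ψ : Ideal (𝓞 K) →*₀ ℂ) {𝔞 : Ideal (𝓞 K)}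
    (h : ¬ IsCoprime 𝔞 𝔪) : res 𝔪 htop ψ 𝔞 = 0 := by
  rw [res_apply, if_neg h]

lemma norm_res_le {𝔪 : Ideal (𝓞 K)} (htop : 𝔪 ≠ ⊤) {ψ : Ideal (𝓞 K) →*₀ ℂ}
    (hψ : ∀ 𝔞, ‖ψ 𝔞‖ ≤ 1) (𝔞 : Ideal (𝓞 K)) : ‖res 𝔪 htop ψ 𝔞‖ ≤ 1 := by
  rw [res_apply]
  split_ifs
  · exact hψ 𝔞
  · rw [norm_zero]; exact zero_le_one

/-- the Euler product -/
lemma hasProd_prime {ψ : Ideal (𝓞 K) →*₀ ℂ} (hψ : ∀ 𝔞, ‖ψ 𝔞‖ ≤ 1) {s : ℂ} (hs : 1 < s.re) :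
    HasProd (fun 𝔭 : {𝔭 : Ideal (𝓞 K) // Prime 𝔭} =>
      (1 - ψ 𝔭 * ((Ideal.absNorm (𝔭 : Ideal (𝓞 K)) : ℕ) : ℂ) ^ (-s))⁻¹) (LI ψ s) := by
  have h1 := (hasSum_log hψ hs).cexp
  rw [← Pool.Agent.Y772.DK.LI_eq_exp ψ hψ hs] at h1
  refine h1.congr_fun fun 𝔭 => ?_
  have hz := norm_zz_lt hψ hs 𝔭.2
  have hne : 1 - zz ψ s 𝔭.1 ≠ 0 := by
    intro h0
    have h5 : zz ψ s 𝔭.1 = 1 := (sub_eq_zero.mp h0).symm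
    rw [h5, norm_one] at hz
    exact lt_irrefl _ hz
  change _ = Complex.exp (-Complex.log (1 - zz ψ s 𝔭.1))
  rw [Complex.exp_neg, Complex.exp_log hne]
  rfl

lemma cop_iff {𝔭 𝔪 : Ideal (𝓞 K)} (h : Prime 𝔭) : IsCoprime 𝔭 𝔪 ↔ ¬ 𝔭 ∣ 𝔪 := by
  rw [isCoprime_comm]
  exact coprime_prime_iff h 𝔪

lemma fin_pr {𝔪 : Ideal (𝓞 K)} (h : 𝔪 ≠ ⊥) :
    {𝔭 : {𝔭 : Ideal (𝓞 K) // Prime 𝔭} | (𝔭 : Ideal (𝓞 K)) ∣ 𝔪}.Finite := by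
  have h1 : Set.Finite {𝔭 : Ideal (𝓞 K) | 𝔭 ∣ 𝔪} := Pool.Agent.Y772.DK.finite_dvd h
  exact Set.Finite.preimage (f := fun 𝔭 : {𝔭 : Ideal (𝓞 K) // Prime 𝔭} => (𝔭 : Ideal (𝓞 K)))
    Subtype.val_injective.injOn h1

/-- the finite product of the Euler factors at the primes dividing `𝔪` -/
noncomputable def Ef (𝔪 : Ideal (𝓞 K)) (ψ : Ideal (𝓞 K) →*₀ ℂ) (s : ℂ) : ℂ :=
  ∏ᶠ 𝔭 ∈ {𝔭 : {𝔭 : Ideal (𝓞 K) // Prime 𝔭} | (𝔭 : Ideal (𝓞 K)) ∣ 𝔪},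
    (1 - ψ 𝔭 * ((Ideal.absNorm (𝔭 : Ideal (𝓞 K)) : ℕ) : ℂ) ^ (-s))

lemma Ef_eq {𝔪 : Ideal (𝓞 K)} (h : 𝔪 ≠ ⊥) (ψ : Ideal (𝓞 K) →*₀ ℂ) (s : ℂ) :
    Ef 𝔪 ψ s = ∏ 𝔭 ∈ (fin_pr h).toFinset,
      (1 - ψ 𝔭 * ((Ideal.absNorm (𝔭 : Ideal (𝓞 K)) : ℕ) : ℂ) ^ (-s)) := by
  unfold Ef
  rw [finprod_mem_eq_finite_toFinset_prod _ (fin_pr h)]

lemma norm_prime_ge {𝔭 : Ideal (𝓞 K)} (h : Prime 𝔭) : 2 ≤ Ideal.absNorm 𝔭 := by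
  have h1 : Ideal.absNorm 𝔭 ≠ 0 := fun h0 => h.ne_zero (Ideal.absNorm_eq_zero_iff.mp h0)
  have h2 : Ideal.absNorm 𝔭 ≠ 1 := fun h0 =>
    (Ideal.isPrime_of_prime h).ne_top (Ideal.absNorm_eq_one_iff.mp h0)
  omega

lemma fac_ne {ψ : Ideal (𝓞 K) →*₀ ℂ} (hψ : ∀ 𝔞, ‖ψ 𝔞‖ ≤ 1) {𝔭 : Ideal (𝓞 K)} (h : Prime 𝔭)
    {s : ℂ} (hs : 0 < s.re) : ‖ψ 𝔭 * ((Ideal.absNorm 𝔭 : ℕ) : ℂ) ^ (-s)‖ < 1 := by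
  have hN := norm_prime_ge h
  rw [norm_mul, Complex.norm_natCast_cpow_of_pos (by omega)]
  have h3 : ((Ideal.absNorm 𝔭 : ℕ) : ℝ) ^ (-s).re < 1 := by
    refine Real.rpow_lt_one_of_one_lt_of_neg (by exact_mod_cast (by omega : 1 < Ideal.absNorm 𝔭)) ?_
    simpa using hs
  calc _ ≤ 1 * ((Ideal.absNorm 𝔭 : ℕ) : ℝ) ^ (-s).re :=
        mul_le_mul_of_nonneg_right (hψ 𝔭) (by positivity)
    _ < 1 := by rw [one_mul]; exact h3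

lemma Ef_ne {𝔪 : Ideal (𝓞 K)} (h : 𝔪 ≠ ⊥) {ψ : Ideal (𝓞 K) →*₀ ℂ} (hψ : ∀ 𝔞, ‖ψ 𝔞‖ ≤ 1)
    {s : ℂ} (hs : 0 < s.re) : Ef 𝔪 ψ s ≠ 0 := by
  rw [Ef_eq h]
  refine Finset.prod_ne_zero_iff.mpr fun 𝔭 _ h0 => ?_
  have h1 := fac_ne hψ 𝔭.2 hs
  rw [← sub_eq_zero.mp h0, norm_one] at h1
  exact lt_irrefl _ h1

lemma Ef_diff {𝔪 : Ideal (𝓞 K)} (h : 𝔪 ≠ ⊥) (ψ : Ideal (𝓞 K) →*₀ ℂ) :
    Differentiable ℂ (Ef 𝔪 ψ) := by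
  have h1 : Ef 𝔪 ψ = fun s => ∏ 𝔭 ∈ (fin_pr h).toFinset,
      (1 - ψ 𝔭 * ((Ideal.absNorm (𝔭 : Ideal (𝓞 K)) : ℕ) : ℂ) ^ (-s)) := funext (Ef_eq h ψ)
  rw [h1]
  refine Differentiable.fun_finsetProd fun 𝔭 _ => ?_
  have h2 : ((Ideal.absNorm (𝔭 : Ideal (𝓞 K)) : ℕ) : ℂ) ≠ 0 := by
    have := norm_prime_ge 𝔭.2
    exact_mod_cast (by omega : Ideal.absNorm (𝔭 : Ideal (𝓞 K)) ≠ 0)
  intro s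
  exact (differentiableAt_const _).sub ((differentiableAt_const _).mul
    ((differentiableAt_id.neg).const_cpow (Or.inl h2)))

/-- **the L-function of the restriction** -/
theorem LI_res {𝔪 : Ideal (𝓞 K)} (h : 𝔪 ≠ ⊥) (htop : 𝔪 ≠ ⊤) {ψ : Ideal (𝓞 K) →*₀ ℂ}
    (hψ : ∀ 𝔞, ‖ψ 𝔞‖ ≤ 1) {s : ℂ} (hs : 1 < s.re) :
    LI (res 𝔪 htop ψ) s = LI ψ s * Ef 𝔪 ψ s := by
  classical
  have h1 := hasProd_prime (norm_res_le htop hψ) hs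
  have h2 := hasProd_prime hψ hs
  have h3 : HasProd (fun 𝔭 : {𝔭 : Ideal (𝓞 K) // Prime 𝔭} =>
      if (𝔭 : Ideal (𝓞 K)) ∣ 𝔪 then
        (1 - ψ 𝔭 * ((Ideal.absNorm (𝔭 : Ideal (𝓞 K)) : ℕ) : ℂ) ^ (-s)) else 1) (Ef 𝔪 ψ s) := by
    rw [Ef_eq h]
    have h4 := hasProd_prod_of_ne_finset_one (L := SummationFilter.unconditional _) (f := fun 𝔭 : {𝔭 : Ideal (𝓞 K) // Prime 𝔭} =>
      if (𝔭 : Ideal (𝓞 K)) ∣ 𝔪 then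
        (1 - ψ 𝔭 * ((Ideal.absNorm (𝔭 : Ideal (𝓞 K)) : ℕ) : ℂ) ^ (-s)) else 1)
      (s := (fin_pr h).toFinset) (by
        intro 𝔭 h𝔭
        rw [Set.Finite.mem_toFinset] at h𝔭
        exact if_neg h𝔭)
    convert h4 using 1
    refine Finset.prod_congr rfl fun 𝔭 h𝔭 => ?_
    rw [Set.Finite.mem_toFinset] at h𝔭
    exact (if_pos h𝔭).symm
  refine h1.unique ((h2.mul h3).congr_fun fun 𝔭 => ?_)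
  have hne : (1 - ψ 𝔭 * ((Ideal.absNorm (𝔭 : Ideal (𝓞 K)) : ℕ) : ℂ) ^ (-s)) ≠ 0 := by
    intro h0
    have h1 := fac_ne hψ 𝔭.2 (s := s) (by linarith)
    rw [← sub_eq_zero.mp h0, norm_one] at h1
    exact lt_irrefl _ h1
  by_cases h5 : (𝔭 : Ideal (𝓞 K)) ∣ 𝔪
  · rw [res_not htop ψ (fun h6 => (cop_iff 𝔭.2).mp h6 h5), if_pos h5, zero_mul, sub_zero, inv_one,
      inv_mul_cancel₀ hne]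
  · rw [res_cop htop ψ ((cop_iff 𝔭.2).mpr h5), if_neg h5, mul_one]

end

end Pool.Agent.Y773.AB
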