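import Pool.Agent.Y773.HG.Ent
import Pool.Agent.Y773.HG.FeK
import Pool.Agent.Y772.FE.Gam
import Pool.Agent.Y772.DK.Main
import Pool.Agent.H370R2.Local

/-!
# Continuation of the L-functions of all characters (the trivial one included), with growth
-/

set_option autoImplicit false
set_option linter.unusedSectionVars false

open NumberField Complex Filter Topology Set MeasureTheory

namespace Pool.Agent.Y773.G

section

variable {K : Type} [Field K] [NumberField K]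

/-- `(s - 1) L(s, η)` is entire, with its growth -/
theorem LI_mero {𝔪 : Ideal (𝓞 K)} {e : InfinitePlace K → ℕ} {η : Ideal (𝓞 K) →*₀ ℂ}
    (h : IsModChar 𝔪 e η) :
    ∃ H : ℂ → ℂ, Differentiable ℂ H ∧ (∀ s : ℂ, 1 < s.re → H s = (s - 1) * LI η s) ∧
      ∃ M : ℝ, 0 ≤ M ∧ ∀ z : ℂ, -1 / 2 ≤ z.re → z.re ≤ 3 / 2 → 2 ≤ |z.im| →
        ‖H z‖ ≤ M * (‖z‖ + 2) * Real.exp (Fintype.card (K →+* ℂ) * Real.pi * |z.im|) := by
  classical
  obtain ⟨V, hV, hweak⟩ := fam_weak K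
  obtain ⟨C, hC, hmel⟩ := mellin_Ftot K
  have hN : ∀ c, Nice e (Ps η e (rp K c)) := fun c => h.nice (rp_ne_bot c)
  choose B hB using fun c => (hN c).bdd
  have hN0 := hN (Classical.arbitrary _)
  have hB' : ∀ c x, ‖Ps η e (rp K c) x‖ ≤ ∑ c, |B c| := fun c x =>
    (hB c x).trans ((le_abs_self _).trans (Finset.single_le_sum (f := fun c => |B c|)
      (fun _ _ => abs_nonneg _) (Finset.mem_univ c)))
  obtain ⟨P, hPf, hPg, hPk, hPε, hPf0, hPg0⟩ := hweak (rp K) reps_rp e hN0.he hN0.cpx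
    (fun c => Ps η e (rp K c)) _ hB' (fun c => (hN c).unit) (mm (rp K) 𝔪) (Dd K)
    (mm_pos rp_ne_bot h.ne_bot) Dd_pos Dd_mem (fun c => h.per_m (rp_ne_bot c) (mm_mem _ _ c))
  have hf0 : P.f₀ = 0 := by
    rw [hPf0, Finset.sum_eq_zero fun c _ => (hN c).zero, mul_zero]
  have hfF : P.f = Ftot η e (rp K) := hPf
  have hC' : (C : ℂ) ≠ 0 := by exact_mod_cast hC.ne'
  have hlam : ∀ s : ℂ, 1 < s.re → (s - 1) * mellin (Ftot η e (rp K)) s =
      (s - 1) * P.Λ₀ s + P.ε * P.g₀ := by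
    intro s hs
    have h1 := (P.hasMellin (s := s) (by rw [hPk]; exact hs)).2
    rw [hf0] at h1
    simp only [sub_zero] at h1
    rw [hfF] at h1
    have h2 : P.Λ s = P.Λ₀ s - (P.ε / (1 - s)) * P.g₀ := by
      unfold WeakFEPair.Λ
      rw [hf0, hPk, smul_zero, sub_zero, smul_eq_mul, Complex.ofReal_one]
    have h3 : (1 : ℂ) - s ≠ 0 := by
      intro h4
      have := congrArg Complex.re h4
      simp at this
      linarith
    have h5 : mellin (Ftot η e (rp K)) s = P.Λ s := h1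
    rw [h5, h2]
    field_simp
    ring
  have hconv : ∀ s, MellinConvergent P.f_modif s := fun s =>
    (P.isStrongFEPair_toStrongFEPair.hasMellin s).1
  obtain ⟨C0, hC0⟩ := mellin_strip_bound hconv (-1 / 2) (3 / 2)
  have hC0' : ∀ s : ℂ, -1 / 2 ≤ s.re → s.re ≤ 3 / 2 → ‖P.Λ₀ s‖ ≤ C0 := fun s h1 h2 => hC0 s h1 h2
  have hC0n : 0 ≤ C0 := (norm_nonneg _).trans (hC0' 0 (by norm_num) (by norm_num))
  obtain ⟨M, hM0, hM⟩ := Pool.Agent.Y772.FE.inv_GG_le (R := 1) one_pos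
    (e := ex e) (ex_le h.sig_le)
  refine ⟨fun s => (C : ℂ)⁻¹ * (((s - 1) * P.Λ₀ s + P.ε * P.g₀) *
    ∏ φ : K →+* ℂ, (Complex.Gammaℝ (s + ex e φ))⁻¹), ?_, ?_, ?_⟩
  · refine Differentiable.const_mul (Differentiable.mul ?_ (differentiable_gam (ex e))) _
    exact ((differentiable_id.sub_const 1).mul P.differentiable_Λ₀).add_const _
  · intro s hs
    simp only
    rw [← hlam s hs, (hmel (rp K) reps_rp e η h.norm_le_one hN s hs).2, Finset.prod_inv_distrib]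
    have h3 := gam_ne_zero (ex e) (s := s) (by linarith)
    field_simp
  · refine ⟨‖(C : ℂ)⁻¹‖ * ((C0 + ‖P.ε * P.g₀‖) * M), by positivity, fun z h1 h2 h3 => ?_⟩
    have h4 := hM z h1 h2 h3
    have h5 : (GG 1 (ex e) z)⁻¹ = ∏ φ : K →+* ℂ, (Complex.Gammaℝ (z + ex e φ))⁻¹ := by
      unfold GG
      rw [Complex.ofReal_one, Complex.one_cpow, one_mul, Finset.prod_inv_distrib]
    rw [h5] at h4
    have h6 : ‖(z - 1) * P.Λ₀ z + P.ε * P.g₀‖ ≤ (C0 + ‖P.ε * P.g₀‖) * (‖z‖ + 2) := by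
      refine (norm_add_le _ _).trans ?_
      rw [norm_mul]
      have h7 : ‖z - 1‖ ≤ ‖z‖ + 1 := by
        refine (norm_sub_le _ _).trans ?_
        rw [norm_one]
      have h8 := hC0' z h1 h2
      have h9 : ‖z - 1‖ * ‖P.Λ₀ z‖ ≤ (‖z‖ + 1) * C0 :=
        mul_le_mul h7 h8 (norm_nonneg _) (by positivity)
      have h10 : 0 ≤ ‖P.ε * P.g₀‖ * (‖z‖ + 1) := by positivity
      nlinarith
    rw [norm_mul, norm_mul]
    calc ‖(C : ℂ)⁻¹‖ * (‖(z - 1) * P.Λ₀ z + P.ε * P.g₀‖ *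
          ‖∏ φ : K →+* ℂ, (Complex.Gammaℝ (z + ex e φ))⁻¹‖)
        ≤ ‖(C : ℂ)⁻¹‖ * (((C0 + ‖P.ε * P.g₀‖) * (‖z‖ + 2)) *
          (M * Real.exp (Fintype.card (K →+* ℂ) * Real.pi * |z.im|))) := by
          gcongr
      _ = _ := by ring

end

end Pool.Agent.Y773.G
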