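import Pool.Agent.H370R2.Local

/-!
# A crude bound for the number of zeros
-/

set_option autoImplicit false

open Complex Filter Topology Set Metric
open H370 (zset mult NN)

namespace Pool.Agent.Y773.AB

/-- a crude bound for the number of zeros between `T` and `2T` -/
theorem zcount_crude (H : ℂ → ℂ) (hd : Differentiable ℂ H) (A M n : ℝ) (hA : 1 ≤ A) (hM : 0 ≤ M)
    (hn : 0 ≤ n) (hright : ∀ s : ℂ, 3 / 2 ≤ s.re → ‖H s‖ ≤ ‖s - 1‖ * A)
    (hlow : ∀ s : ℂ, 2 ≤ s.re → ‖s - 1‖ * A⁻¹ ≤ ‖H s‖)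
    (hstrip : ∀ z : ℂ, -1 / 2 ≤ z.re → z.re ≤ 3 / 2 → 2 ≤ |z.im| →
        ‖H z‖ ≤ M * (‖z‖ + 2) * Real.exp (n * |z.im|)) :
    ∃ B : ℝ, 0 < B ∧ ∀ T : ℝ, 5 ≤ T → (zset H T (2 * T)).Finite ∧
      (NN H T (2 * T) : ℝ) ≤ B * T ^ 2 := by
  classical
  have hlr : 0 < Real.log (5 / 2 / (21 / 10)) := Real.log_pos (by norm_num)
  obtain ⟨κ, hκ⟩ : ∃ κ : ℝ, κ = Real.log (5 / 2 / (21 / 10)) := ⟨_, rfl⟩
  have hκ0 : 0 < κ := by rw [hκ]; exact hlr
  obtain ⟨E, hE⟩ : ∃ E : ℝ, E = Real.log ((M + A + 1) * A) + 14 + 7 * n := ⟨_, rfl⟩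
  have hMA : 1 ≤ (M + A + 1) * A := by nlinarith
  have hE0 : 0 < E := by
    rw [hE]
    have := Real.log_nonneg hMA
    linarith
  have hA0 : 0 < A := by linarith
  refine ⟨3 * (E / κ), by positivity, fun T hT => ?_⟩
  -- one disc
  have hdisc : ∀ (m : ℕ), T - 1 / 2 ≤ m → (m : ℝ) ≤ 2 * T + 1 / 2 →
      ∀ S : Finset ℂ, (∀ z ∈ S, z ∈ closedBall (⟨2, m⟩ : ℂ) (21 / 10)) →
      ∑ z ∈ S, (mult H z : ℝ) ≤ E / κ * T := by
    intro m hm1 hm2 S hS
    obtain ⟨c, hc⟩ : ∃ c : ℂ, c = ⟨2, m⟩ := ⟨_, rfl⟩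
    rw [← hc] at hS
    have hcre : c.re = 2 := by rw [hc]
    have hcim : c.im = m := by rw [hc]
    have hc1 : 1 ≤ ‖c - 1‖ := by
      have := Complex.abs_re_le_norm (c - 1)
      rw [Complex.sub_re, hcre, Complex.one_re] at this
      norm_num at this
      exact this
    have hHc : A⁻¹ ≤ ‖H c‖ := by
      refine le_trans ?_ (hlow c (by rw [hcre]))
      have : 0 < A⁻¹ := by positivity
      nlinarith
    have hHc0 : H c ≠ 0 := by
      intro h0
      rw [h0, norm_zero] at hHc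
      have : 0 < A⁻¹ := by positivity
      linarith
    obtain ⟨MM, hMM⟩ : ∃ MM : ℝ, MM = (M + A + 1) * (7 * T) * Real.exp (n * (7 * T)) := ⟨_, rfl⟩
    have hbound : ∀ z ∈ closedBall c (5 / 2), ‖H z‖ ≤ MM := by
      intro z hz
      rw [mem_closedBall, dist_eq_norm] at hz
      have h1 := (Complex.abs_re_le_norm (z - c)).trans hz
      have h2 := (Complex.abs_im_le_norm (z - c)).trans hz
      rw [Complex.sub_re, hcre, abs_le] at h1
      rw [Complex.sub_im, hcim, abs_le] at h2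
      have h3 : ‖z‖ + 2 ≤ 7 * T := by
        have h4 : ‖c‖ ≤ 2 + m := by
          refine (Complex.norm_le_abs_re_add_abs_im c).trans ?_
          rw [hcre, hcim, abs_of_nonneg (show (0 : ℝ) ≤ (m : ℝ) from Nat.cast_nonneg m), abs_two]
        have h5 : ‖z‖ ≤ ‖c‖ + 5 / 2 := by
          calc ‖z‖ = ‖c + (z - c)‖ := by congr 1; ring
            _ ≤ ‖c‖ + ‖z - c‖ := norm_add_le _ _
            _ ≤ _ := by linarith
        linarith
      have h6 : 2 ≤ |z.im| := by
        rw [le_abs]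
        left
        linarith
      have h7 : |z.im| ≤ 7 * T := by
        rw [abs_le]
        constructor <;> linarith
      have hexp : Real.exp (n * |z.im|) ≤ Real.exp (n * (7 * T)) :=
        Real.exp_le_exp.mpr (mul_le_mul_of_nonneg_left h7 hn)
      have hexp1 : 1 ≤ Real.exp (n * (7 * T)) := Real.one_le_exp (by positivity)
      have hz0 := norm_nonneg z
      rcases le_total z.re (3 / 2) with h8 | h8
      · refine (hstrip z (by linarith) h8 h6).trans ?_
        rw [hMM]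
        have h9 : M * (‖z‖ + 2) ≤ (M + A + 1) * (7 * T) :=
          mul_le_mul (by linarith) h3 (by linarith) (by linarith)
        exact mul_le_mul h9 hexp (Real.exp_pos _).le (by positivity)
      · refine (hright z h8).trans ?_
        rw [hMM]
        have h9 : ‖z - 1‖ ≤ 7 * T := by
          have := norm_sub_le z 1
          rw [norm_one] at this
          linarith
        have h10 : ‖z - 1‖ * A ≤ (M + A + 1) * (7 * T) := by
          calc ‖z - 1‖ * A ≤ (7 * T) * (M + A + 1) :=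
                mul_le_mul h9 (by linarith) hA0.le (by linarith)
            _ = _ := by ring
        have h11 : 0 ≤ (M + A + 1) * (7 * T) := by positivity
        nlinarith
    have hMM1 : 1 ≤ MM := by
      rw [hMM]
      have h1 : 1 ≤ (M + A + 1) * (7 * T) := by nlinarith
      have h2 : 1 ≤ Real.exp (n * (7 * T)) := Real.one_le_exp (by positivity)
      nlinarith
    have hJ := H370.Loc.jensen_mult (f := H) (c := c) (r := 21 / 10) (R := 5 / 2) (M := MM)
      (by norm_num) (by norm_num) hMM1 (fun z _ => hd.analyticAt z) hHc0 hbound S hS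
    rw [← hκ] at hJ
    refine hJ.trans ?_
    rw [div_mul_eq_mul_div]
    refine div_le_div_of_nonneg_right ?_ hκ0.le
    have h1 : MM / ‖H c‖ ≤ MM * A := by
      rw [div_le_iff₀ (by linarith [inv_pos.mpr hA0])]
      have h2 : 1 ≤ A * ‖H c‖ := by
        have := mul_le_mul_of_nonneg_left hHc hA0.le
        rwa [mul_inv_cancel₀ hA0.ne'] at this
      have h3 : 0 ≤ MM := by linarith
      nlinarith
    have h2 : 0 < MM / ‖H c‖ := div_pos (by linarith) (by linarith [inv_pos.mpr hA0])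
    refine (Real.log_le_log h2 h1).trans ?_
    have h3 : MM * A = ((M + A + 1) * A) * ((7 * T) * Real.exp (n * (7 * T))) := by
      rw [hMM]; ring
    rw [h3, Real.log_mul (by positivity) (by positivity), Real.log_mul (by positivity)
      (Real.exp_pos _).ne', Real.log_exp]
    have h4 : Real.log (7 * T) ≤ 14 * T := by
      have := Real.log_le_sub_one_of_pos (show (0 : ℝ) < 7 * T by linarith)
      linarith
    have h5 := Real.log_nonneg hMA
    rw [hE]
    nlinarith
  -- all discs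
  have hall : ∀ S : Finset ℂ, (∀ z ∈ S, z ∈ zset H T (2 * T)) →
      ∑ z ∈ S, (mult H z : ℝ) ≤ 3 * (E / κ) * T ^ 2 := by
    intro S hS
    obtain ⟨f, hf⟩ : ∃ f : ℂ → ℕ, ∀ z, f z = ⌊z.im + 1 / 2⌋₊ := ⟨_, fun _ => rfl⟩
    have hfz : ∀ z ∈ S, (f z : ℝ) ≤ z.im + 1 / 2 ∧ z.im - 1 / 2 ≤ f z := by
      intro z hz
      obtain ⟨h1, h2, h3, h4, h5⟩ := hS z hz
      rw [hf]
      refine ⟨Nat.floor_le (by linarith), ?_⟩
      have := Nat.lt_floor_add_one (z.im + 1 / 2)
      linarith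
    have hmaps : ∀ z ∈ S, f z ∈ (Finset.range (⌊2 * T + 1 / 2⌋₊ + 1)).filter
        (fun m : ℕ => T - 1 / 2 ≤ (m : ℝ)) := by
      intro z hz
      obtain ⟨h1, h2, h3, h4, h5⟩ := hS z hz
      obtain ⟨h6, h7⟩ := hfz z hz
      rw [Finset.mem_filter, Finset.mem_range]
      refine ⟨Nat.lt_succ_of_le (Nat.le_floor (by linarith)), by linarith⟩
    rw [← Finset.sum_fiberwise_of_maps_to hmaps]
    have hterm : ∀ m ∈ (Finset.range (⌊2 * T + 1 / 2⌋₊ + 1)).filter
        (fun m : ℕ => T - 1 / 2 ≤ (m : ℝ)),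
        ∑ z ∈ S.filter (fun z => f z = m), (mult H z : ℝ) ≤ E / κ * T := by
      intro m hm
      rw [Finset.mem_filter, Finset.mem_range] at hm
      have hm2 : (m : ℝ) ≤ 2 * T + 1 / 2 := by
        have h1 : m ≤ ⌊2 * T + 1 / 2⌋₊ := Nat.lt_succ_iff.mp hm.1
        exact (Nat.cast_le.mpr h1).trans (Nat.floor_le (by linarith))
      refine hdisc m hm.2 hm2 _ fun z hz => ?_
      rw [Finset.mem_filter] at hz
      obtain ⟨h1, h2, h3, h4, h5⟩ := hS z hz.1
      obtain ⟨h6, h7⟩ := hfz z hz.1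
      rw [hz.2] at h6 h7
      rw [mem_closedBall, dist_eq_norm]
      have h8 : ‖z - (⟨2, m⟩ : ℂ)‖ ^ 2 ≤ (21 / 10 : ℝ) ^ 2 := by
        rw [← Complex.normSq_eq_norm_sq, Complex.normSq_apply]
        simp only [Complex.sub_re, Complex.sub_im]
        have h9 : (z.re - 2) * (z.re - 2) ≤ 4 := by nlinarith
        have h10 : (z.im - m) * (z.im - m) ≤ 1 / 4 := by nlinarith
        linarith
      exact le_of_sq_le_sq h8 (by norm_num)
    refine (Finset.sum_le_card_nsmul _ _ _ hterm).trans ?_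
    rw [nsmul_eq_mul]
    have hcard : (((Finset.range (⌊2 * T + 1 / 2⌋₊ + 1)).filter
        (fun m : ℕ => T - 1 / 2 ≤ (m : ℝ))).card : ℝ) ≤ 3 * T := by
      have h1 : ((Finset.range (⌊2 * T + 1 / 2⌋₊ + 1)).filter
        (fun m : ℕ => T - 1 / 2 ≤ (m : ℝ))).card ≤ ⌊2 * T + 1 / 2⌋₊ + 1 := by
        refine (Finset.card_filter_le _ _).trans ?_
        rw [Finset.card_range]
      have h2 : ((⌊2 * T + 1 / 2⌋₊ + 1 : ℕ) : ℝ) ≤ 3 * T := by
        push_cast
        have := Nat.floor_le (show (0 : ℝ) ≤ 2 * T + 1 / 2 by linarith)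
        linarith
      exact (Nat.cast_le.mpr h1).trans h2
    have h3 : 0 ≤ E / κ * T := by positivity
    calc _ ≤ (3 * T) * (E / κ * T) := mul_le_mul_of_nonneg_right hcard h3
      _ = _ := by ring
  -- multiplicities are positive
  have hH2 : H 2 ≠ 0 := by
    intro h0
    have := hlow 2 (by norm_num)
    rw [h0, norm_zero] at this
    have h1 : (2 : ℂ) - 1 = 1 := by norm_num
    rw [h1, norm_one, one_mul] at this
    have h2 : 0 < A⁻¹ := by positivity
    linarith
  have hpos : ∀ z, H z = 0 → 1 ≤ mult H z := by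
    intro z hz
    exact (H370.Loc.mult_pos (K := Set.univ) isPreconnected_univ
      (fun z _ => hd.analyticAt z) (mem_univ 2) hH2 (mem_univ z)).mpr hz
  have hfin : (zset H T (2 * T)).Finite := by
    by_contra hinf
    obtain ⟨S, hS, hcard⟩ := Set.Infinite.exists_subset_card_eq hinf
      (⌊3 * (E / κ) * T ^ 2⌋₊ + 1)
    have h1 := hall S (fun z hz => hS hz)
    have h2 : (S.card : ℝ) ≤ ∑ z ∈ S, (mult H z : ℝ) := by
      rw [Finset.card_eq_sum_ones]
      push_cast
      refine Finset.sum_le_sum fun z hz => ?_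
      exact_mod_cast hpos z (hS hz).2.2.2.2
    rw [hcard] at h2
    push_cast at h2
    have h3 := Nat.lt_floor_add_one (3 * (E / κ) * T ^ 2)
    linarith
  refine ⟨hfin, ?_⟩
  unfold NN
  rw [finsum_mem_eq_finite_toFinset_sum _ hfin]
  push_cast
  exact hall _ fun z hz => hfin.mem_toFinset.mp hz

end Pool.Agent.Y773.AB
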