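import Pool.Agent.Y773.AB.Art
import Pool.Agent.Y773.AB.Unr
import Pool.Agent.Y773.AB.Res
import Pool.Agent.Y773.AB.Zc
import Pool.Agent.Y773.AB.Ord
import Pool.Agent.Y773.AB.Loc

/-!
# All the characters of the quotient: the L-functions without the Euler factors at `𝔫`
-/

set_option autoImplicit false
set_option linter.unusedSectionVars false

open NumberField Filter Topology MeasureTheory

namespace Pool.Agent.Y773.AB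

open Pool.Agent.Y773 (TPos LI cc)
open Pool.Agent.Y767 (Mq Mq_cop Mq_ne_bot Cls cls cls_pi cK card_dual finite_dual eq_of_LI)
open Pool.Agent.Y773.IQ (T1 T1_cop pi1 pi1_coe absNorm_pos' cls_card_le Fam Fam_finite tM tM_coe
  one_le_norm cd cd_spec tpos_all LL LL_eq good exists_prim exists_rep prim_unique ne_zero_of_cop
  ofM' ofM'_pos ofM'_supp cop_mono cop_one cg cg_eq exists_moving)
open H370 (zset NN Ns Nd mult)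

section

variable {K : Type} [Field K] [NumberField K]

/-- primes dividing `𝔮` divide `𝔫` -/
def Rad (𝔮 𝔫 : Ideal (𝓞 K)) : Prop := ∀ 𝔭 : Ideal (𝓞 K), Prime 𝔭 → 𝔭 ∣ 𝔮 → 𝔭 ∣ 𝔫

lemma cop_of_rad {𝔮 𝔫 : Ideal (𝓞 K)} (hbot : 𝔮 ≠ ⊥) (h : Rad 𝔮 𝔫) {𝔞 : Ideal (𝓞 K)}
    (h𝔞 : IsCoprime 𝔞 𝔫) : IsCoprime 𝔞 𝔮 := by
  rw [Ideal.isCoprime_iff_sup_eq]
  by_contra hne
  obtain ⟨𝔭, h𝔭, hle⟩ := Ideal.exists_le_maximal _ hne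
  have h1 : 𝔮 ≤ 𝔭 := le_sup_right.trans hle
  have h2 : 𝔞 ≤ 𝔭 := le_sup_left.trans hle
  have h0 : 𝔭 ≠ ⊥ := by
    rintro rfl
    exact hbot (le_bot_iff.mp h1)
  have hp : Prime 𝔭 := Ideal.prime_of_isPrime h0 h𝔭.isPrime
  have h3 : 𝔫 ≤ 𝔭 := Ideal.dvd_iff_le.mp (h 𝔭 hp (Ideal.dvd_iff_le.mpr h1))
  rw [Ideal.isCoprime_iff_sup_eq] at h𝔞
  exact h𝔭.ne_top (top_le_iff.mp (h𝔞 ▸ sup_le h2 h3))

/-- the character `𝔞 ↦ χ(art 𝔞)` of the ideals prime to `𝔫` -/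
noncomputable def etc {𝔮 : Ideal (𝓞 K)} (htop : 𝔮 ≠ ⊤) {𝔫 : Ideal (𝓞 K)} (hn : 𝔫 ≠ ⊤)
    {Γ : Type} [CommGroup Γ] (art : Mq 𝔮 →* Γ) (χ : Γ →* ℂˣ) : Ideal (𝓞 K) →*₀ ℂ :=
  res 𝔫 hn (ofM' htop (χ.comp art))

variable {𝔮 𝔫 : Ideal (𝓞 K)} {Γ : Type} [CommGroup Γ]

lemma etc_cop (hbot : 𝔮 ≠ ⊥) (htop : 𝔮 ≠ ⊤) (hn : 𝔫 ≠ ⊤) (hr : Rad 𝔮 𝔫) (art : Mq 𝔮 →* Γ)
    (χ : Γ →* ℂˣ) {𝔞 : Ideal (𝓞 K)} (h : IsCoprime 𝔞 𝔫) :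
    etc htop hn art χ 𝔞 = ((χ (art ⟨𝔞, cop_of_rad hbot hr h⟩) : ℂˣ) : ℂ) := by
  unfold etc
  rw [res_cop hn _ h, ofM'_pos htop _ (cop_of_rad hbot hr h)]
  rfl

lemma etc_not (htop : 𝔮 ≠ ⊤) (hn : 𝔫 ≠ ⊤) (art : Mq 𝔮 →* Γ)
    (χ : Γ →* ℂˣ) {𝔞 : Ideal (𝓞 K)} (h : ¬ IsCoprime 𝔞 𝔫) :
    etc htop hn art χ 𝔞 = 0 := res_not hn _ h

lemma etc_res (hbot : 𝔮 ≠ ⊥) (htop : 𝔮 ≠ ⊤) (hn : 𝔫 ≠ ⊤) (hr : Rad 𝔮 𝔫) (art : Mq 𝔮 →* Γ)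
    (χ : Γ →* ℂˣ) {ψ : Ideal (𝓞 K) →*₀ ℂ}
    (hψ : ∀ x : Mq 𝔮, ψ (x : Ideal (𝓞 K)) = (χ (art x) : ℂˣ)) :
    etc htop hn art χ = res 𝔫 hn ψ := by
  ext 𝔞
  by_cases h : IsCoprime 𝔞 𝔫
  · rw [etc_cop hbot htop hn hr art χ h, res_cop hn ψ h,
      ← hψ ⟨𝔞, cop_of_rad hbot hr h⟩]
  · rw [etc_not htop hn art χ h, res_not hn ψ h]

/-- it is a character modulo `𝔫 𝔮` -/
theorem etc_mod (hbot : 𝔮 ≠ ⊥) (htop : 𝔮 ≠ ⊤) (hnb : 𝔫 ≠ ⊥) (hn : 𝔫 ≠ ⊤) (hr : Rad 𝔮 𝔫)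
    (art : Mq 𝔮 →* Γ) (h1 : ∀ x : T1 htop, art (pi1 htop x) = 1) (χ : Γ →* ℂˣ) :
    ∃ e : InfinitePlace K → ℕ, G.IsModChar (𝔫 * 𝔮) e (etc htop hn art χ) := by
  have hSig := Pool.Agent.Y772.G.t_sig
  have hne : 𝔫 * 𝔮 ≠ ⊥ := mul_ne_zero hnb hbot
  have hray : ∀ x : 𝓞 K, x ≠ 0 → x - 1 ∈ 𝔫 * 𝔮 → TPos K x →
      etc htop hn art χ (Ideal.span {x}) = 1 := by
    intro x hx0 hx _
    have h2 : x - 1 ∈ 𝔫 := Ideal.mul_le_left (I := 𝔫) (J := 𝔮) hx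
    have h3 : x - 1 ∈ 𝔮 := Ideal.mul_le_right (I := 𝔫) (J := 𝔮) hx
    rw [etc_cop hbot htop hn hr art χ (cop_one h2)]
    have h4 : art ⟨Ideal.span {x}, cop_of_rad hbot hr (cop_one h2)⟩ = 1 := h1 ⟨x, h3⟩
    rw [h4, map_one, Units.val_one]
  obtain ⟨e, he, hcx, hsig⟩ := hSig K (𝔫 * 𝔮) _ hne hray
  refine ⟨e, hne, ?_, he, hcx, fun 𝔞 => ?_, hsig⟩
  · intro h
    have h2 : 𝔫 * 𝔮 ≤ 𝔫 := Ideal.mul_le_left
    rw [h] at h2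
    exact hn (top_le_iff.mp h2)
  · rw [IsCoprime.mul_right_iff]
    constructor
    · intro h
      have h2 : IsCoprime 𝔞 𝔫 := by
        by_contra h3
        exact h (etc_not htop hn art χ h3)
      exact ⟨h2, cop_of_rad hbot hr h2⟩
    · rintro ⟨h2, -⟩
      rw [etc_cop hbot htop hn hr art χ h2]
      exact Units.ne_zero _

/-- the unramified characters -/
noncomputable def psiC (c : ClassGroup (𝓞 K) →* ℂˣ) : Ideal (𝓞 K) →*₀ ℂ := by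
  classical
  exact {
    toFun := fun 𝔞 => if h : 𝔞 = ⊥ then 0 else
      ((c (ClassGroup.mk0 ⟨𝔞, mem_nonZeroDivisors_iff_ne_zero.mpr h⟩) : ℂˣ) : ℂ)
    map_zero' := dif_pos rfl
    map_one' := by
      rw [dif_neg (by rw [Ideal.one_eq_top]; exact top_ne_bot)]
      have : (⟨1, mem_nonZeroDivisors_iff_ne_zero.mpr
        (by rw [Ideal.one_eq_top]; exact top_ne_bot)⟩ : nonZeroDivisors (Ideal (𝓞 K))) = 1 := rfl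
      rw [this, map_one, map_one, Units.val_one]
    map_mul' := fun 𝔞 𝔟 => by
      by_cases h1 : 𝔞 = ⊥
      · rw [dif_pos h1, dif_pos (by rw [h1, Ideal.bot_mul]), zero_mul]
      · by_cases h2 : 𝔟 = ⊥
        · rw [dif_pos h2, dif_pos (by rw [h2, Ideal.mul_bot]), mul_zero]
        · rw [dif_neg h1, dif_neg h2, dif_neg (show ¬ 𝔞 * 𝔟 = ⊥ from mul_ne_zero h1 h2), ← Units.val_mul, ← map_mul,
            ← map_mul]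
          rfl }

open Classical in
lemma psiC_apply (c : ClassGroup (𝓞 K) →* ℂˣ) {𝔞 : Ideal (𝓞 K)} (h : 𝔞 ≠ ⊥) :
    psiC c 𝔞 = ((c (ClassGroup.mk0 ⟨𝔞, mem_nonZeroDivisors_iff_ne_zero.mpr h⟩) : ℂˣ) : ℂ) := by
  change (if h : 𝔞 = ⊥ then 0 else
      ((c (ClassGroup.mk0 ⟨𝔞, mem_nonZeroDivisors_iff_ne_zero.mpr h⟩) : ℂˣ) : ℂ)) = _
  rw [dif_neg h]

lemma psiC_cg (c : ClassGroup (𝓞 K) →* ℂˣ) (htop : 𝔮 ≠ ⊤) (x : Mq 𝔮) :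
    psiC c (x : Ideal (𝓞 K)) = ((c (cg htop x) : ℂˣ) : ℂ) :=
  psiC_apply c (Mq_ne_bot htop x)

lemma psiC_norm (c : ClassGroup (𝓞 K) →* ℂˣ) (𝔞 : Ideal (𝓞 K)) : ‖psiC c 𝔞‖ ≤ 1 := by
  by_cases h : 𝔞 = ⊥
  · rw [h, ← Ideal.zero_eq_bot, map_zero, norm_zero]; exact zero_le_one
  · rw [psiC_apply c h, norm_char]

lemma cg_surj (hbot : 𝔮 ≠ ⊥) (htop : 𝔮 ≠ ⊤) : Function.Surjective (cg (K := K) htop) := by
  intro C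
  obtain ⟨𝔠, h𝔠⟩ := ClassGroup.mk0_surjective C⁻¹
  have h0 : (𝔠 : Ideal (𝓞 K)) ≠ ⊥ := nonZeroDivisors.coe_ne_zero 𝔠
  obtain ⟨y, 𝔟, -, h2, h3⟩ := exists_moving (𝔠 := (𝔠 : Ideal (𝓞 K))) (𝔣 := ⊤) (𝔮 := 𝔮) le_top
    hbot h0 (by rw [Ideal.isCoprime_iff_sup_eq]; exact sup_top_eq _)
  have h𝔟 : 𝔟 ≠ ⊥ := Mq_ne_bot htop ⟨𝔟, h3⟩
  refine ⟨⟨𝔟, h3⟩, ?_⟩
  have hy : y ≠ 0 := by
    rintro rfl
    rw [Ideal.span_singleton_eq_bot.mpr rfl] at h2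
    exact mul_ne_zero h0 h𝔟 h2.symm
  have h5 : ClassGroup.mk0 𝔠 * cg htop ⟨𝔟, h3⟩ = 1 := by
    unfold cg
    rw [← map_mul, ClassGroup.mk0_eq_one_iff]
    change (((𝔠 : Ideal (𝓞 K)) * 𝔟 : Ideal (𝓞 K))).IsPrincipal
    rw [← h2]
    exact ⟨⟨y, rfl⟩⟩
  rw [h𝔠] at h5
  exact (inv_mul_eq_one.mp h5).symm

/-- a character of the quotient which is trivial on the principal ideals comes from the class
group -/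
theorem exists_class (hbot : 𝔮 ≠ ⊥) (htop : 𝔮 ≠ ⊤) (art : Mq 𝔮 →* Γ) (χ : Γ →* ℂˣ)
    (hχ : ∀ (x : 𝓞 K) (hx : IsCoprime (Ideal.span {x}) 𝔮), χ (art ⟨Ideal.span {x}, hx⟩) = 1) :
    ∃ c : ClassGroup (𝓞 K) →* ℂˣ, ∀ x : Mq 𝔮, psiC c (x : Ideal (𝓞 K)) = (χ (art x) : ℂˣ) := by
  have key : ∀ a b : Mq 𝔮, cg htop a = cg htop b → χ (art a) = χ (art b) := by
    intro a b h
    obtain ⟨x', y', hx', hy', hxy⟩ := cg_eq htop h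
    have h2 : (⟨Ideal.span {x'}, cop_one hx'⟩ : Mq 𝔮) * a = ⟨Ideal.span {y'}, hy'⟩ * b :=
      Subtype.ext hxy
    have h3 := congrArg (fun z => χ (art z)) h2
    simp only [map_mul] at h3
    rwa [hχ x' (cop_one hx'), hχ y' hy', one_mul, one_mul] at h3
  choose r hr using cg_surj (K := K) hbot htop
  have hmul : ∀ a b : Mq 𝔮, cg htop (a * b) = cg htop a * cg htop b := by
    intro a b
    unfold cg
    rw [← map_mul]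
    rfl
  have hone : cg htop (1 : Mq 𝔮) = 1 := by
    have := hmul 1 1
    rw [mul_one] at this
    exact mul_eq_left.mp this.symm
  refine ⟨{ toFun := fun C => χ (art (r C))
            map_one' := ?_
            map_mul' := fun C D => ?_ }, fun x => ?_⟩
  · rw [key (r 1) 1 ((hr 1).trans hone.symm), map_one, map_one]
  · rw [← map_mul, ← map_mul]
    refine key _ _ ?_
    rw [hmul, hr, hr, hr]
  · rw [psiC_cg _ htop]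
    change ((χ (art (r (cg htop x))) : ℂˣ) : ℂ) = _
    rw [key _ x (hr _)]

end

end Pool.Agent.Y773.AB
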