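import Pool.Agent.Y773.AB.Tup
import Pool.Agent.Y767.HC.Ext

/-!
# Mean squares over a subgroup of the characters of a finite abelian group
-/

set_option autoImplicit false

namespace Pool.Agent.Y773.AB

open Pool.Agent.Y767 (card_dual finite_dual)

section

variable {C : Type} [CommGroup C]

/-- the evaluation at the characters of `H` -/
def ev (H : Subgroup (C →* ℂˣ)) : C →* (H → ℂˣ) where
  toFun c F := (F : C →* ℂˣ) c
  map_one' := by
    funext F
    exact map_one _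
  map_mul' a b := by
    funext F
    exact map_mul _ _ _

lemma ev_eq {H : Subgroup (C →* ℂˣ)} {a b : C} :
    ev H a = ev H b ↔ ∀ F ∈ H, F a = F b := by
  constructor
  · intro h F hF
    exact congrFun h ⟨F, hF⟩
  · intro h
    funext F
    exact h F.1 F.2

/-- the characters of `H` are characters of `C / ker` -/
theorem card_ker_mul [Finite C] (H : Subgroup (C →* ℂˣ)) :
    Nat.card (ev H).ker * Nat.card H ≤ Nat.card C := by
  have hfd := finite_dual C
  have h1 : Nat.card H ≤ Nat.card (C ⧸ (ev H).ker) := by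
    rw [← card_dual (C ⧸ (ev H).ker)]
    have := finite_dual (C ⧸ (ev H).ker)
    refine Nat.card_le_card_of_injective (fun F : H => QuotientGroup.lift (ev H).ker
      (F : C →* ℂˣ) (fun c hc => congrFun hc F)) ?_
    intro F F' h
    apply Subtype.ext
    refine MonoidHom.ext fun c => ?_
    have h2 := DFunLike.congr_fun h (QuotientGroup.mk c)
    exact h2
  have h2 := Subgroup.card_eq_card_quotient_mul_card_subgroup (ev H).ker
  rw [h2, mul_comm]
  exact Nat.mul_le_mul_right _ h1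

/-- the values are roots of unity -/
lemma norm_val [Finite C] (F : C →* ℂˣ) (c : C) : ‖((F c : ℂˣ) : ℂ)‖ = 1 := by
  have h1 : ((F c : ℂˣ) : ℂ) ^ Nat.card C = 1 := by
    rw [← Units.val_pow_eq_pow_val, ← map_pow, pow_card_eq_one', map_one, Units.val_one]
  exact Complex.norm_eq_one_of_pow_eq_one h1 Nat.card_pos.ne'

lemma conj_val [Finite C] (F : C →* ℂˣ) (c : C) :
    (starRingEnd ℂ) ((F c : ℂˣ) : ℂ) = ((F c⁻¹ : ℂˣ) : ℂ) := by
  rw [← Complex.inv_eq_conj (norm_val F c), map_inv, Units.val_inv_eq_inv_val]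

/-- orthogonality -/
theorem orth (H : Subgroup (C →* ℂˣ)) [Fintype H] (c : C) [Decidable (ev H c = 1)] :
    ∑ F : H, (((F : C →* ℂˣ) c : ℂˣ) : ℂ) = if ev H c = 1 then (Fintype.card H : ℂ) else 0 := by
  split_ifs with h
  · have : ∀ F : H, (((F : C →* ℂˣ) c : ℂˣ) : ℂ) = 1 := fun F => by
      have h1 : (F : C →* ℂˣ) c = 1 := congrFun h F
      rw [h1, Units.val_one]
    rw [Finset.sum_congr rfl fun F _ => this F, Finset.sum_const, Finset.card_univ, nsmul_eq_mul,
      mul_one]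
  · have h1 : ∃ F0 : H, (F0 : C →* ℂˣ) c ≠ 1 := by
      by_contra hcon
      push Not at hcon
      exact h (funext fun F => hcon F)
    obtain ⟨F0, hF0⟩ := h1
    obtain ⟨S, hS⟩ : ∃ S, S = ∑ F : H, (((F : C →* ℂˣ) c : ℂˣ) : ℂ) := ⟨_, rfl⟩
    rw [← hS]
    have h2 : (((F0 : C →* ℂˣ) c : ℂˣ) : ℂ) * S = S := by
      rw [hS, Finset.mul_sum]
      rw [← Equiv.sum_comp (Equiv.mulLeft F0) (fun F : H => (((F : C →* ℂˣ) c : ℂˣ) : ℂ))]
      refine Finset.sum_congr rfl fun F _ => ?_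
      rw [Equiv.coe_mulLeft, Subgroup.coe_mul, MonoidHom.mul_apply, Units.val_mul]
    have h3 : ((((F0 : C →* ℂˣ) c : ℂˣ) : ℂ) - 1) * S = 0 := by
      rw [sub_mul, h2, one_mul, sub_self]
    rcases mul_eq_zero.mp h3 with h4 | h4
    · exfalso
      apply hF0
      apply Units.ext
      rw [Units.val_one]
      exact sub_eq_zero.mp h4
    · exact h4

end

section

variable {M C : Type} [CommMonoid M] [CommGroup C] [Finite C]

/-- the mean square over `H` -/
theorem ms_general (cls : M →* C) (H : Subgroup (C →* ℂˣ)) [Fintype H] (B : Finset M)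
    (w : M → ℂ) :
    ∑ F : H, ‖∑ a ∈ B, w a * (((F : C →* ℂˣ) (cls a) : ℂˣ) : ℂ)‖ ^ 2 ≤
      (Fintype.card H : ℝ) * (∑ a ∈ B, ‖w a‖ ^ 2 +
        ∑ p ∈ PP ((ev H).comp cls) B, ‖w p.1‖ * ‖w p.2‖) := by
  classical
  have hab : ∀ a b : M, ∑ F : H, (((F : C →* ℂˣ) (cls a) : ℂˣ) : ℂ) *
      (starRingEnd ℂ) (((F : C →* ℂˣ) (cls b) : ℂˣ) : ℂ) =
      if ((ev H).comp cls) a = ((ev H).comp cls) b then (Fintype.card H : ℂ) else 0 := by
    intro a b
    have e1 : ∀ F : H, (((F : C →* ℂˣ) (cls a) : ℂˣ) : ℂ) *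
        (starRingEnd ℂ) (((F : C →* ℂˣ) (cls b) : ℂˣ) : ℂ) =
        (((F : C →* ℂˣ) (cls a * (cls b)⁻¹) : ℂˣ) : ℂ) := by
      intro F
      rw [conj_val, map_mul, Units.val_mul]
    rw [Finset.sum_congr rfl fun F _ => e1 F, orth]
    have e2 : ev H (cls a * (cls b)⁻¹) = 1 ↔ ((ev H).comp cls) a = ((ev H).comp cls) b := by
      rw [map_mul, map_inv, mul_inv_eq_one]
      rfl
    simp only [e2]
  have h1 : ∀ F : H, ((‖∑ a ∈ B, w a * (((F : C →* ℂˣ) (cls a) : ℂˣ) : ℂ)‖ ^ 2 : ℝ) : ℂ) =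
      ∑ a ∈ B, ∑ b ∈ B, (w a * (starRingEnd ℂ) (w b)) *
        ((((F : C →* ℂˣ) (cls a) : ℂˣ) : ℂ) *
          (starRingEnd ℂ) (((F : C →* ℂˣ) (cls b) : ℂˣ) : ℂ)) := by
    intro F
    push_cast
    rw [← Complex.mul_conj', map_sum, Finset.sum_mul_sum]
    refine Finset.sum_congr rfl fun a _ => Finset.sum_congr rfl fun b _ => ?_
    rw [map_mul]
    ring
  have h3 : ((∑ F : H, ‖∑ a ∈ B, w a * (((F : C →* ℂˣ) (cls a) : ℂˣ) : ℂ)‖ ^ 2 : ℝ) : ℂ) =
      (Fintype.card H : ℂ) * (∑ a ∈ B, ((‖w a‖ ^ 2 : ℝ) : ℂ) +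
        ∑ p ∈ PP ((ev H).comp cls) B, w p.1 * (starRingEnd ℂ) (w p.2)) := by
    rw [Complex.ofReal_sum, Finset.sum_congr rfl fun F _ => h1 F, Finset.sum_comm]
    have h4 : ∀ a ∈ B, ∑ F : H, ∑ b ∈ B, (w a * (starRingEnd ℂ) (w b)) *
        ((((F : C →* ℂˣ) (cls a) : ℂˣ) : ℂ) *
          (starRingEnd ℂ) (((F : C →* ℂˣ) (cls b) : ℂˣ) : ℂ)) =
        ∑ b ∈ B, (if ((ev H).comp cls) a = ((ev H).comp cls) b then
          (Fintype.card H : ℂ) * (w a * (starRingEnd ℂ) (w b)) else 0) := by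
      intro a ha
      rw [Finset.sum_comm]
      refine Finset.sum_congr rfl fun b hb => ?_
      rw [← Finset.mul_sum, hab a b]
      split_ifs
      · ring
      · ring
    rw [Finset.sum_congr rfl h4, ← Finset.sum_product' (s := B) (t := B)
      (f := fun a b => if ((ev H).comp cls) a = ((ev H).comp cls) b then
        (Fintype.card H : ℂ) * (w a * (starRingEnd ℂ) (w b)) else 0)]
    have h5 : ∀ x ∈ B ×ˢ B, (if ((ev H).comp cls) x.1 = ((ev H).comp cls) x.2 then
        (Fintype.card H : ℂ) * (w x.1 * (starRingEnd ℂ) (w x.2)) else 0) =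
        (if x.1 = x.2 then (Fintype.card H : ℂ) * (w x.1 * (starRingEnd ℂ) (w x.2)) else 0) +
        (if x.1 ≠ x.2 ∧ ((ev H).comp cls) x.1 = ((ev H).comp cls) x.2 then
          (Fintype.card H : ℂ) * (w x.1 * (starRingEnd ℂ) (w x.2)) else 0) := by
      intro x _
      by_cases hx : x.1 = x.2
      · have hr : ((ev H).comp cls) x.1 = ((ev H).comp cls) x.2 := by rw [hx]
        have hr' : ¬ (x.1 ≠ x.2 ∧ ((ev H).comp cls) x.1 = ((ev H).comp cls) x.2) :=
          fun h => h.1 hx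
        simp only [if_pos hr, if_neg hr', if_pos hx, add_zero]
      · by_cases hr : ((ev H).comp cls) x.1 = ((ev H).comp cls) x.2
        · have hr' : x.1 ≠ x.2 ∧ ((ev H).comp cls) x.1 = ((ev H).comp cls) x.2 := ⟨hx, hr⟩
          simp only [if_pos hr, if_neg hx, if_pos hr', zero_add]
        · have hr' : ¬ (x.1 ≠ x.2 ∧ ((ev H).comp cls) x.1 = ((ev H).comp cls) x.2) :=
            fun h => hr h.2
          simp only [if_neg hr, if_neg hx, if_neg hr', zero_add]
    rw [Finset.sum_congr rfl h5, Finset.sum_add_distrib, mul_add]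
    congr 1
    · rw [Finset.sum_product, Finset.mul_sum]
      refine Finset.sum_congr rfl fun a ha => ?_
      simp only
      rw [Finset.sum_ite_eq, if_pos ha]
      push_cast
      rw [← Complex.mul_conj']
    · rw [← Finset.sum_filter, Finset.mul_sum]
      refine Finset.sum_congr ?_ (fun _ _ => rfl)
      ext x
      rw [mem_PP, Finset.mem_filter, Finset.mem_product, and_assoc]
  have hc0 : (0 : ℝ) ≤ (Fintype.card H : ℝ) := Nat.cast_nonneg _
  have h6 : ‖((∑ F : H, ‖∑ a ∈ B, w a * (((F : C →* ℂˣ) (cls a) : ℂˣ) : ℂ)‖ ^ 2 : ℝ) : ℂ)‖ =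
      ∑ F : H, ‖∑ a ∈ B, w a * (((F : C →* ℂˣ) (cls a) : ℂˣ) : ℂ)‖ ^ 2 := by
    rw [Complex.norm_real, Real.norm_of_nonneg]
    exact Finset.sum_nonneg fun F _ => sq_nonneg _
  rw [← h6, h3, norm_mul, Complex.norm_natCast]
  refine mul_le_mul_of_nonneg_left ?_ hc0
  refine (norm_add_le _ _).trans (add_le_add ?_ ?_)
  · refine (norm_sum_le _ _).trans (le_of_eq ?_)
    refine Finset.sum_congr rfl fun a _ => ?_
    rw [Complex.norm_real, Real.norm_of_nonneg (sq_nonneg _)]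
  · refine (norm_sum_le _ _).trans (le_of_eq ?_)
    refine Finset.sum_congr rfl fun p _ => ?_
    rw [norm_mul, RCLike.norm_conj]

end

end Pool.Agent.Y773.AB
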