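import Pool.Agent.Y773.AB.Hfn

/-!
# The zeros of the L-functions of all the characters of a large quotient of a ray class group
-/

set_option autoImplicit false
set_option linter.unusedSectionVars false

open NumberField Filter Topology MeasureTheory

namespace Pool.Agent.Y773.AB

open Pool.Agent.Y773 (TPos LI cc)
open Pool.Agent.Y767 (Mq Mq_cop Mq_ne_bot Cls cls cls_pi cK card_dual finite_dual eq_of_LI)
open Pool.Agent.Y773.IQ (T1 T1_cop pi1 pi1_coe absNorm_pos' cls_card_le Fam Fam_finite tM tM_coe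
  one_le_norm cd cd_spec tpos_all LL LL_eq good exists_ge)
open H370 (zset NN Ns Nd mult)

section

variable {K : Type} [Field K] [NumberField K]

/-- existence of the functions -/
theorem exists_Hchi {𝔮 𝔫 : Ideal (𝓞 K)} (hbot : 𝔮 ≠ ⊥) (htop : 𝔮 ≠ ⊤) (hnb : 𝔫 ≠ ⊥)
    (hn : 𝔫 ≠ ⊤) (hr : Rad 𝔮 𝔫) {Γ : Type} [CommGroup Γ] (art : Mq 𝔮 →* Γ)
    (h1 : ∀ x : T1 htop, art (pi1 htop x) = 1) :
    ∃ H : (Γ →* ℂˣ) → ℂ → ℂ, ∀ χ, Differentiable ℂ (H χ) ∧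
      ∀ s : ℂ, 1 < s.re → H χ s = (s - 1) * LI (etc htop hn art χ) s := by
  have key : ∀ χ : Γ →* ℂˣ, ∃ H : ℂ → ℂ, Differentiable ℂ H ∧
      ∀ s : ℂ, 1 < s.re → H s = (s - 1) * LI (etc htop hn art χ) s := by
    intro χ
    obtain ⟨e, he⟩ := etc_mod hbot htop hnb hn hr art h1 χ
    obtain ⟨H, hH, hHL, -⟩ := G.LI_mero he
    exact ⟨H, hH, hHL⟩
  choose H hH using key
  exact ⟨H, hH⟩

end

section numeric

/-- the last numerical step -/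
lemma fin_num {A b S1 S2 c ε' W : ℝ} (hW : |c| ≤ W) (hb : 0 ≤ b)
    (h1 : (c + ε') * A ≤ S1) (h2 : 0 ≤ S2) (h3 : W * b ≤ ε' * A) :
    c * (A + b) ≤ S1 + S2 := by
  have h4 : c * b ≤ W * b := mul_le_mul_of_nonneg_right ((le_abs_self c).trans hW) hb
  nlinarith

end numeric

variable (K : Type) [Field K] [NumberField K] [IsTotallyComplex K]

theorem mainZ (h2 : Module.finrank ℚ K = 2) (δ : ℝ) (hδ : 2 / 3 < δ) (hδ1 : δ < 1) (ε : ℝ)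
    (hε : 0 < ε) : ∃ η X₀ : ℝ, 0 < η ∧ 1 < X₀ ∧ ∀ (𝔮 : Ideal (𝓞 K)) (_ : 𝔮 ≠ ⊥) (htop : 𝔮 ≠ ⊤)
      (𝔫 : Ideal (𝓞 K)) (_ : 𝔫 ≠ ⊥) (hn : 𝔫 ≠ ⊤) (_ : Rad 𝔮 𝔫)
      (Γ : Type) [CommGroup Γ] [Finite Γ] [Fintype (Γ →* ℂˣ)] (art : Mq 𝔮 →* Γ),
      (∀ x : T1 htop, art (pi1 htop x) = 1) → Function.Surjective art →
      X₀ ≤ (Ideal.absNorm 𝔮 : ℝ) → (Ideal.absNorm 𝔮 : ℝ) ^ δ ≤ Nat.card Γ →
      ∃ H : (Γ →* ℂˣ) → ℂ → ℂ, (∀ χ, Differentiable ℂ (H χ)) ∧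
        (∀ χ s, 1 < s.re → H χ s = (s - 1) * LI (etc htop hn art χ) s) ∧
      ∀ T : ℝ, (Real.log (Ideal.absNorm 𝔮)) ^ 2 ≤ T → T ≤ (Ideal.absNorm 𝔮 : ℝ) ^ η →
        1 ≤ T ∧ (∀ χ, (zset (H χ) T (2 * T)).Finite) ∧
        (Nat.card Γ : ℝ) * T ≤ ∑ χ, (NN (H χ) T (2 * T) : ℝ) ∧
        (2 - kap δ - ε) * ∑ χ, (NN (H χ) T (2 * T) : ℝ) ≤ ∑ χ, (Ns (H χ) T (2 * T) : ℝ) ∧
        (3 - kap δ - ε) / 2 * ∑ χ, (NN (H χ) T (2 * T) : ℝ) ≤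
          ∑ χ, (Nd (H χ) T (2 * T) : ℝ) := by
  classical
  have hδ0 : 0 < δ := by linarith
  obtain ⟨η, X1, hη, hX1, hG⟩ := mainG K h2 δ hδ hδ1 (ε / 2) (by positivity)
  obtain ⟨N1, hN1, hlow⟩ := lowW K h2 δ hδ0 hδ1
  have hfd : Finite (ClassGroup (𝓞 K) →* ℂˣ) := finite_dual _
  have hft : Fintype (ClassGroup (𝓞 K) →* ℂˣ) := Fintype.ofFinite _
  obtain ⟨Hc, B, hB, hHc, hHcL, hcount⟩ := exists_base K
  obtain ⟨h, hh⟩ : ∃ h : ℝ, h = Fintype.card (ClassGroup (𝓞 K) →* ℂˣ) := ⟨_, rfl⟩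
  have hh0 : 0 ≤ h := by rw [hh]; exact Nat.cast_nonneg _
  obtain ⟨W, hW⟩ : ∃ W : ℝ, W = |2 - kap δ - ε| + |(3 - kap δ - ε) / 2| := ⟨_, rfl⟩
  have hW0 : 0 ≤ W := by rw [hW]; positivity
  obtain ⟨N3, hN3, hbig⟩ := exists_ge (δ / 2) (W * (h * B) * (4 / ε)) (by positivity)
  refine ⟨min (min η (1 / 2)) (δ / 2), max (max X1 N1) (max N3 (Real.exp 3)), ?_, ?_, ?_⟩
  · exact lt_min (lt_min hη (by norm_num)) (by positivity)
  · exact lt_of_lt_of_le hX1 ((le_max_left _ _).trans (le_max_left _ _))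
  intro 𝔮 hbot htop 𝔫 hnb hn hr Γ _ _ _ art h1 hs hX hΓ
  have hXX1 : X1 ≤ (Ideal.absNorm 𝔮 : ℝ) := ((le_max_left _ _).trans (le_max_left _ _)).trans hX
  have hXN1 : N1 ≤ (Ideal.absNorm 𝔮 : ℝ) := ((le_max_right _ _).trans (le_max_left _ _)).trans hX
  have hXN3 : N3 ≤ (Ideal.absNorm 𝔮 : ℝ) := ((le_max_left _ _).trans (le_max_right _ _)).trans hX
  have hXe : Real.exp 3 ≤ (Ideal.absNorm 𝔮 : ℝ) :=
    ((le_max_right _ _).trans (le_max_right _ _)).trans hX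
  have hNp : (0 : ℝ) < (Ideal.absNorm 𝔮 : ℝ) := by linarith
  have hNge1 : (1 : ℝ) ≤ (Ideal.absNorm 𝔮 : ℝ) := by linarith
  have hlog3 : 3 ≤ Real.log (Ideal.absNorm 𝔮) := by
    rw [Real.le_log_iff_exp_le hNp]; exact hXe
  obtain ⟨H, hH⟩ := exists_Hchi hbot htop hnb hn hr art h1
  refine ⟨H, fun χ => (hH χ).1, fun χ s hs => (hH χ).2 s hs, fun T hT1 hT2 => ?_⟩
  obtain ⟨hfin, hne, -, hGT⟩ := hG 𝔮 hbot htop Γ art h1 hs hXX1 hΓ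
  have hTη : T ≤ (Ideal.absNorm 𝔮 : ℝ) ^ η := hT2.trans
    (Real.rpow_le_rpow_of_exponent_le hNge1 ((min_le_left _ _).trans (min_le_left _ _)))
  have hTh : T ≤ (Ideal.absNorm 𝔮 : ℝ) ^ (1 / 2 : ℝ) := hT2.trans
    (Real.rpow_le_rpow_of_exponent_le hNge1 ((min_le_left _ _).trans (min_le_right _ _)))
  have hTδ : T ≤ (Ideal.absNorm 𝔮 : ℝ) ^ (δ / 2) := hT2.trans
    (Real.rpow_le_rpow_of_exponent_le hNge1 (min_le_right _ _))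
  obtain ⟨g1, g2, g3, g4⟩ := hGT T hT1 hTη
  have hT5 : 5 ≤ T := by nlinarith
  have hT0 : 0 ≤ T := by linarith
  -- the family
  obtain ⟨S, hS⟩ : ∃ S : Finset (Ideal (𝓞 K) →*₀ ℂ), ∀ ψ, ψ ∈ S ↔ ψ ∈ FamA 𝔮 art :=
    ⟨hfin.toFinset, fun ψ => hfin.mem_toFinset⟩
  have hSe : FamA 𝔮 art = (S : Set (Ideal (𝓞 K) →*₀ ℂ)) := by
    ext ψ
    rw [Finset.mem_coe, hS]
  rw [hSe, finsum_mem_coe_finset, finsum_mem_coe_finset] at g3 g4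
  -- lower bound
  have hlowT : (Nat.card Γ : ℝ) * T ≤ ∑ ψ ∈ S, (NN (LL K ψ) T (2 * T) : ℝ) := by
    obtain ⟨H', hH', hfam⟩ := exists_H htop art h1 hs
    have := hlow 𝔮 hbot htop H' hXN1 (by rw [hH']; exact hΓ) S (fun ψ => by rw [hS, hfam]) T hT1 hTh
    rwa [hH'] at this
  -- ramified and unramified characters
  obtain ⟨R, hR⟩ : ∃ R : Finset (Γ →* ℂˣ), ∀ χ, χ ∈ R ↔
      ∃ (x : 𝓞 K) (hx : IsCoprime (Ideal.span {x}) 𝔮), χ (art ⟨Ideal.span {x}, hx⟩) ≠ 1 :=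
    ⟨Finset.univ.filter fun χ => ∃ (x : 𝓞 K) (hx : IsCoprime (Ideal.span {x}) 𝔮),
      χ (art ⟨Ideal.span {x}, hx⟩) ≠ 1, fun χ => by simp⟩
  have hex : ∀ χ : Γ →* ℂˣ, ∃ ψ : Ideal (𝓞 K) →*₀ ℂ, χ ∈ R → ψ ∈ FamA 𝔮 art ∧
      ∀ x : Mq 𝔮, ψ (x : Ideal (𝓞 K)) = (χ (art x) : ℂˣ) := by
    intro χ
    by_cases hχ : χ ∈ R
    · obtain ⟨ψ, hψ, -⟩ := FamA_unique hbot htop (fun x => tpos_all x) art h1 χ ((hR χ).mp hχ)
      exact ⟨ψ, fun _ => hψ⟩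
    · exact ⟨1, fun h => absurd h hχ⟩
  choose Ψ hΨ using hex
  have hram : ∀ χ ∈ R, zset (H χ) T (2 * T) = zset (LL K (Ψ χ)) T (2 * T) ∧
      NN (H χ) T (2 * T) = NN (LL K (Ψ χ)) T (2 * T) ∧
      Ns (H χ) T (2 * T) = Ns (LL K (Ψ χ)) T (2 * T) ∧
      Nd (H χ) T (2 * T) = Nd (LL K (Ψ χ)) T (2 * T) := fun χ hχ =>
    H_ram hbot htop hnb hn hr art χ (hΨ χ hχ).1.1 (hΨ χ hχ).2 (hH χ).1 (hH χ).2 hT0
  have hsumR : ∀ f : (Ideal (𝓞 K) →*₀ ℂ) → ℝ, ∑ χ ∈ R, f (Ψ χ) = ∑ ψ ∈ S, f ψ := by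
    intro f
    refine Finset.sum_bij (fun χ _ => Ψ χ) (fun χ hχ => (hS _).mpr (hΨ χ hχ).1) ?_ ?_
      (fun _ _ => rfl)
    · intro χ hχ χ' hχ' he
      refine MonoidHom.ext fun g => ?_
      obtain ⟨x, rfl⟩ := hs g
      ext
      have he' : Ψ χ = Ψ χ' := he
      rw [← (hΨ χ hχ).2 x, ← (hΨ χ' hχ').2 x, he']
    · intro ψ hψ
      obtain ⟨hψF, χ, hχ⟩ := (hS ψ).mp hψ
      have hχR : χ ∈ R := by
        rw [hR]
        obtain ⟨x, hx, hx1⟩ := fam_ram hbot (fun x => tpos_all x) hψF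
        refine ⟨x, hx, fun h => hx1 ?_⟩
        have h3 : ψ (Ideal.span {x}) = (χ (art ⟨Ideal.span {x}, hx⟩) : ℂˣ) := hχ ⟨_, hx⟩
        rw [h3, h, Units.val_one]
      refine ⟨χ, hχR, ?_⟩
      obtain ⟨ψ', -, huniq⟩ := FamA_unique hbot htop (fun x => tpos_all x) art h1 χ
        ((hR χ).mp hχR)
      exact (huniq _ (hΨ χ hχR)).trans (huniq ψ ⟨⟨hψF, χ, hχ⟩, hχ⟩).symm
  have hexU : ∀ χ : Γ →* ℂˣ, ∃ c : ClassGroup (𝓞 K) →* ℂˣ, χ ∉ R →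
      ∀ x : Mq 𝔮, psiC c (x : Ideal (𝓞 K)) = (χ (art x) : ℂˣ) := by
    intro χ
    by_cases hχ : χ ∈ R
    · exact ⟨1, fun h => absurd hχ h⟩
    · obtain ⟨c, hc⟩ := exists_class hbot htop art χ (by
        intro x hx
        by_contra h
        exact hχ ((hR χ).mpr ⟨x, hx, h⟩))
      exact ⟨c, fun _ => hc⟩
  choose C hC using hexU
  have hunr : ∀ χ, χ ∉ R → zset (H χ) T (2 * T) = zset (Hc (C χ)) T (2 * T) ∧
      NN (H χ) T (2 * T) = NN (Hc (C χ)) T (2 * T) ∧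
      Ns (H χ) T (2 * T) = Ns (Hc (C χ)) T (2 * T) ∧
      Nd (H χ) T (2 * T) = Nd (Hc (C χ)) T (2 * T) := fun χ hχ =>
    H_unr hbot htop hnb hn hr art χ (hC χ hχ) (hH χ).1 (hH χ).2 (hHc _) (hHcL _)
  -- splitting the sums
  have hsplit : ∀ f : (Γ →* ℂˣ) → ℝ, ∑ χ, f χ = ∑ χ ∈ R, f χ + ∑ χ ∈ Rᶜ, f χ := fun f =>
    (Finset.sum_add_sum_compl R f).symm
  obtain ⟨A, hA⟩ : ∃ A : ℝ, A = ∑ ψ ∈ S, (NN (LL K ψ) T (2 * T) : ℝ) := ⟨_, rfl⟩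
  obtain ⟨b, hb⟩ : ∃ b : ℝ, b = ∑ χ ∈ Rᶜ, (NN (H χ) T (2 * T) : ℝ) := ⟨_, rfl⟩
  have hNNsum : ∑ χ, (NN (H χ) T (2 * T) : ℝ) = A + b := by
    rw [hsplit, hb, hA, ← hsumR (fun ψ => (NN (LL K ψ) T (2 * T) : ℝ))]
    congr 1
    exact Finset.sum_congr rfl fun χ hχ => by rw [(hram χ hχ).2.1]
  have hNssum : ∑ χ, (Ns (H χ) T (2 * T) : ℝ) = ∑ ψ ∈ S, (Ns (LL K ψ) T (2 * T) : ℝ) +
      ∑ χ ∈ Rᶜ, (Ns (H χ) T (2 * T) : ℝ) := by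
    rw [hsplit, ← hsumR (fun ψ => (Ns (LL K ψ) T (2 * T) : ℝ))]
    congr 1
    exact Finset.sum_congr rfl fun χ hχ => by rw [(hram χ hχ).2.2.1]
  have hNdsum : ∑ χ, (Nd (H χ) T (2 * T) : ℝ) = ∑ ψ ∈ S, (Nd (LL K ψ) T (2 * T) : ℝ) +
      ∑ χ ∈ Rᶜ, (Nd (H χ) T (2 * T) : ℝ) := by
    rw [hsplit, ← hsumR (fun ψ => (Nd (LL K ψ) T (2 * T) : ℝ))]
    congr 1
    exact Finset.sum_congr rfl fun χ hχ => by rw [(hram χ hχ).2.2.2]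
  have hb0 : 0 ≤ b := by rw [hb]; exact Finset.sum_nonneg fun _ _ => Nat.cast_nonneg _
  have hbU : b ≤ h * B * T ^ 2 := by
    have hcard : ((Rᶜ).card : ℝ) ≤ h := by
      rw [hh]
      have : (Rᶜ).card ≤ (Finset.univ : Finset (ClassGroup (𝓞 K) →* ℂˣ)).card := by
        refine Finset.card_le_card_of_injOn C (fun _ _ => Finset.mem_univ _) ?_
        intro χ hχ χ' hχ' he
        have hχ1 : χ ∉ R := by simpa using hχ
        have hχ1' : χ' ∉ R := by simpa using hχ'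
        refine MonoidHom.ext fun g => ?_
        obtain ⟨x, rfl⟩ := hs g
        ext
        rw [← hC χ hχ1 x, ← hC χ' hχ1' x, he]
      rw [Finset.card_univ] at this
      exact_mod_cast this
    have h3 : b ≤ (Rᶜ).card * (B * T ^ 2) := by
      rw [hb, ← nsmul_eq_mul]
      refine Finset.sum_le_card_nsmul _ _ _ fun χ hχ => ?_
      have hχ1 : χ ∉ R := by simpa using hχ
      rw [(hunr χ hχ1).2.1]
      exact (hcount (C χ) T hT5).2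
    calc b ≤ (Rᶜ).card * (B * T ^ 2) := h3
      _ ≤ h * (B * T ^ 2) := mul_le_mul_of_nonneg_right hcard (by positivity)
      _ = _ := by ring
  have hAlow : (Nat.card Γ : ℝ) * T ≤ A := by rw [hA]; exact hlowT
  -- the comparison
  have hcmp : W * b ≤ ε / 4 * A := by
    have k1 := hbig _ hXN3
    have k2 : W * b ≤ W * (h * B * T ^ 2) := mul_le_mul_of_nonneg_left hbU hW0
    have k3 : W * (h * B) * (4 / ε) * T ≤ Nat.card Γ := by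
      have k4 : (Ideal.absNorm 𝔮 : ℝ) ^ (δ / 2) * (Ideal.absNorm 𝔮 : ℝ) ^ (δ / 2) =
          (Ideal.absNorm 𝔮 : ℝ) ^ δ := by
        rw [← Real.rpow_add hNp]; congr 1; ring
      have k5 : 0 ≤ W * (h * B) * (4 / ε) := by positivity
      calc W * (h * B) * (4 / ε) * T ≤
            (Ideal.absNorm 𝔮 : ℝ) ^ (δ / 2) * (Ideal.absNorm 𝔮 : ℝ) ^ (δ / 2) :=
            mul_le_mul k1 hTδ hT0 (by positivity)
        _ = _ := k4
        _ ≤ _ := hΓ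
    have k6 : W * (h * B) * T ≤ ε / 4 * Nat.card Γ := by
      have : W * (h * B) * (4 / ε) * T = (4 / ε) * (W * (h * B) * T) := by ring
      rw [this] at k3
      have k7 := mul_le_mul_of_nonneg_left k3 (show 0 ≤ ε / 4 by positivity)
      have k8 : ε / 4 * ((4 / ε) * (W * (h * B) * T)) = W * (h * B) * T := by
        field_simp
      rwa [k8] at k7
    have k9 := mul_le_mul_of_nonneg_right k6 hT0
    have k10 : ε / 4 * (Nat.card Γ * T) ≤ ε / 4 * A :=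
      mul_le_mul_of_nonneg_left hAlow (by positivity)
    calc W * b ≤ W * (h * B * T ^ 2) := k2
      _ = W * (h * B) * T * T := by ring
      _ ≤ ε / 4 * Nat.card Γ * T := k9
      _ = ε / 4 * (Nat.card Γ * T) := by ring
      _ ≤ _ := k10
  have hA0 : 0 ≤ A := by
    refine le_trans ?_ hAlow
    positivity
  refine ⟨g1, fun χ => ?_, ?_, ?_, ?_⟩
  · by_cases hχ : χ ∈ R
    · rw [(hram χ hχ).1]
      exact g2 _ (hΨ χ hχ).1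
    · rw [(hunr χ hχ).1]
      exact (hcount (C χ) T hT5).1
  · rw [hNNsum]
    linarith
  · rw [hNNsum, hNssum]
    refine fin_num (ε' := ε / 2) (W := W) ?_ hb0 ?_ (Finset.sum_nonneg fun _ _ => Nat.cast_nonneg _) ?_
    · rw [hW]
      exact le_add_of_nonneg_right (abs_nonneg _)
    · rw [hA]
      refine le_trans (le_of_eq ?_) g3
      ring
    · refine hcmp.trans ?_
      nlinarith
  · rw [hNNsum, hNdsum]
    refine fin_num (ε' := ε / 4) (W := W) ?_ hb0 ?_ (Finset.sum_nonneg fun _ _ => Nat.cast_nonneg _) hcmp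
    · rw [hW]
      exact le_add_of_nonneg_left (abs_nonneg _)
    · rw [hA]
      refine le_trans (le_of_eq ?_) g4
      ring

end Pool.Agent.Y773.AB
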