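import Pool.Agent.Y773.AB.Chr
import Pool.Agent.Y773.AB.Low

/-!
# The functions `(s - 1) L(s, χ)`, all characters
-/

set_option autoImplicit false
set_option linter.unusedSectionVars false

open NumberField Filter Topology MeasureTheory

namespace Pool.Agent.Y773.AB

open Pool.Agent.Y773 (TPos LI cc)
open Pool.Agent.Y767 (Mq Mq_cop Mq_ne_bot Cls cls cls_pi cK card_dual finite_dual eq_of_LI)
open Pool.Agent.Y773.IQ (T1 T1_cop pi1 pi1_coe absNorm_pos' cls_card_le Fam Fam_finite tM tM_coe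
  one_le_norm cd cd_spec tpos_all LL LL_eq good exists_prim exists_rep prim_unique ne_zero_of_cop
  ofM' ofM'_pos ofM'_supp cop_mono cop_one cg cg_eq exists_moving prim_congr exists_cop_lift)
open H370 (zset NN Ns Nd mult)

section

variable {K : Type} [Field K] [NumberField K]

/-- the class as a homomorphism -/
noncomputable def cgH {𝔮 : Ideal (𝓞 K)} (htop : 𝔮 ≠ ⊤) : Mq 𝔮 →* ClassGroup (𝓞 K) where
  toFun := cg htop
  map_one' := by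
    unfold cg
    rw [ClassGroup.mk0_eq_one_iff]
    change ((1 : Ideal (𝓞 K))).IsPrincipal
    rw [Ideal.one_eq_top]
    exact ⟨⟨1, by rw [← Ideal.span, Ideal.span_singleton_one]⟩⟩
  map_mul' a b := by
    unfold cg
    rw [← map_mul]
    rfl

lemma cgH_pi {𝔮 : Ideal (𝓞 K)} (htop : 𝔮 ≠ ⊤) (x : T1 htop) : cgH htop (pi1 htop x) = 1 := by
  change cg htop (pi1 htop x) = 1
  unfold cg
  rw [ClassGroup.mk0_eq_one_iff]
  exact ⟨⟨(x : 𝓞 K), rfl⟩⟩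

/-- the modulus used for the unramified characters -/
def m0 (K : Type) [Field K] [NumberField K] : Ideal (𝓞 K) := Ideal.span {((2 : ℕ) : 𝓞 K)}

lemma m0_top : m0 K ≠ ⊤ := Pool.Agent.Y773.natCast_mem_ne_top le_rfl

lemma m0_bot : m0 K ≠ ⊥ := by
  unfold m0
  rw [Ne, Ideal.span_singleton_eq_bot]
  exact Nat.cast_ne_zero.mpr (by norm_num)

theorem base_mod (c : ClassGroup (𝓞 K) →* ℂˣ) :
    ∃ e : InfinitePlace K → ℕ, G.IsModChar (m0 K * m0 K) e (res (m0 K) m0_top (psiC c)) := by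
  have h1 := etc_mod (𝔮 := m0 K) (𝔫 := m0 K) m0_bot m0_top m0_bot m0_top (fun _ _ h => h)
    (cgH m0_top) (cgH_pi m0_top) c
  rwa [etc_res m0_bot m0_top m0_top (fun _ _ h => h) (cgH m0_top) c (ψ := psiC c)
    (fun x => psiC_cg c m0_top x)] at h1

variable (K) in
theorem exists_base [Fintype (ClassGroup (𝓞 K) →* ℂˣ)] :
    ∃ (Hc : (ClassGroup (𝓞 K) →* ℂˣ) → ℂ → ℂ) (B : ℝ), 0 < B ∧
    (∀ c, Differentiable ℂ (Hc c)) ∧
    (∀ c s, 1 < s.re → Hc c s = (s - 1) * LI (res (m0 K) m0_top (psiC c)) s) ∧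
    ∀ c T, 5 ≤ T → (zset (Hc c) T (2 * T)).Finite ∧ (NN (Hc c) T (2 * T) : ℝ) ≤ B * T ^ 2 := by
  classical
  obtain ⟨A, hA, hdir⟩ := Pool.Agent.Y772.DK.t_dirK K
  have key : ∀ c : ClassGroup (𝓞 K) →* ℂˣ, ∃ (H : ℂ → ℂ) (B : ℝ), 0 < B ∧ Differentiable ℂ H ∧
      (∀ s, 1 < s.re → H s = (s - 1) * LI (res (m0 K) m0_top (psiC c)) s) ∧
      ∀ T, 5 ≤ T → (zset H T (2 * T)).Finite ∧ (NN H T (2 * T) : ℝ) ≤ B * T ^ 2 := by
    intro c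
    obtain ⟨e, he⟩ := base_mod c
    obtain ⟨H, hH, hHL, M, hM, hst⟩ := G.LI_mero he
    obtain ⟨-, -, -, -, d5, d6, -⟩ := hdir _ (norm_res_le m0_top (psiC_norm c))
    obtain ⟨B, hB, hc⟩ := zcount_crude H hH A (M) (Fintype.card (K →+* ℂ) * Real.pi) hA hM
      (by positivity) (fun s hs => by
        rw [hHL s (by linarith), norm_mul]
        exact mul_le_mul_of_nonneg_left (d5 s hs) (norm_nonneg _)) (fun s hs => by
        rw [hHL s (by linarith), norm_mul]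
        exact mul_le_mul_of_nonneg_left (d6 s hs) (norm_nonneg _)) hst
    exact ⟨H, B, hB, hH, hHL, hc⟩
  choose H B hB hH hHL hc using key
  refine ⟨H, ∑ c, B c, ?_, hH, hHL, fun c T hT => ⟨(hc c T hT).1, (hc c T hT).2.trans ?_⟩⟩
  · exact Finset.sum_pos (fun c _ => hB c) ⟨1, Finset.mem_univ _⟩
  · refine mul_le_mul_of_nonneg_right ?_ (sq_nonneg _)
    exact Finset.single_le_sum (f := B) (fun c _ => (hB c).le) (Finset.mem_univ c)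

variable {𝔮 𝔫 : Ideal (𝓞 K)} {Γ : Type} [CommGroup Γ]

/-- the ramified characters -/
theorem H_ram (hbot : 𝔮 ≠ ⊥) (htop : 𝔮 ≠ ⊤) (hnb : 𝔫 ≠ ⊥) (hn : 𝔫 ≠ ⊤) (hr : Rad 𝔮 𝔫)
    (art : Mq 𝔮 →* Γ) (χ : Γ →* ℂˣ) {ψ : Ideal (𝓞 K) →*₀ ℂ} (hψF : ψ ∈ Fam 𝔮)
    (hψ : ∀ x : Mq 𝔮, ψ (x : Ideal (𝓞 K)) = (χ (art x) : ℂˣ)) {H : ℂ → ℂ}
    (hH : Differentiable ℂ H) (hHL : ∀ s, 1 < s.re → H s = (s - 1) * LI (etc htop hn art χ) s)
    {T1 T2 : ℝ} (hT : 0 ≤ T1) :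
    zset H T1 T2 = zset (LL K ψ) T1 T2 ∧ NN H T1 T2 = NN (LL K ψ) T1 T2 ∧
      Ns H T1 T2 = Ns (LL K ψ) T1 T2 ∧ Nd H T1 T2 = Nd (LL K ψ) T1 T2 := by
  obtain ⟨𝔣, h1, h2, h3⟩ := hψF
  obtain ⟨A, hA, hgood⟩ := good K
  obtain ⟨F, hF, hFL, -⟩ := hgood 𝔣 ψ h2 h3
  rw [LL_eq K hF hFL]
  have hψ1 := h3.norm_le_one Pool.Agent.Y772.G.t_sig
  have hE := Ef_diff hnb ψ
  have heq : H = fun s => F s * ((s - 1) * Ef 𝔫 ψ s) := by
    refine eq_of_LI hH (hF.mul ((differentiable_id.sub_const 1).mul hE)) fun s hs => ?_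
    rw [hHL s hs, etc_res hbot htop hn hr art χ hψ, LI_res hnb hn hψ1 hs, ← hFL s hs]
    ring
  refine count_congr (fun s _ => hH.analyticAt s) (fun s _ => hF.analyticAt s) fun s hs => ?_
  refine order_mul_ne (hF.analyticAt s)
    (((differentiable_id.sub_const 1).mul hE).analyticAt s) ?_ (by rw [heq]; exact EventuallyEq.rfl)
  obtain ⟨s1, s2, s3, s4⟩ := hs
  refine mul_ne_zero ?_ (Ef_ne hnb hψ1 s1)
  intro h0
  have h5 := congrArg Complex.im h0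
  simp at h5
  linarith

/-- the unramified characters -/
theorem H_unr (hbot : 𝔮 ≠ ⊥) (htop : 𝔮 ≠ ⊤) (hnb : 𝔫 ≠ ⊥) (hn : 𝔫 ≠ ⊤) (hr : Rad 𝔮 𝔫)
    (art : Mq 𝔮 →* Γ) (χ : Γ →* ℂˣ) {c : ClassGroup (𝓞 K) →* ℂˣ}
    (hψ : ∀ x : Mq 𝔮, psiC c (x : Ideal (𝓞 K)) = (χ (art x) : ℂˣ)) {H : ℂ → ℂ}
    (hH : Differentiable ℂ H) (hHL : ∀ s, 1 < s.re → H s = (s - 1) * LI (etc htop hn art χ) s)
    {F : ℂ → ℂ} (hF : Differentiable ℂ F)
    (hFL : ∀ s, 1 < s.re → F s = (s - 1) * LI (res (m0 K) m0_top (psiC c)) s)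
    {T1 T2 : ℝ} :
    zset H T1 T2 = zset F T1 T2 ∧ NN H T1 T2 = NN F T1 T2 ∧
      Ns H T1 T2 = Ns F T1 T2 ∧ Nd H T1 T2 = Nd F T1 T2 := by
  have hψ1 := psiC_norm c
  have hE := Ef_diff hnb (psiC c)
  have hE0 := Ef_diff (m0_bot (K := K)) (psiC c)
  have heq : (fun s => H s * Ef (m0 K) (psiC c) s) = fun s => F s * Ef 𝔫 (psiC c) s := by
    refine eq_of_LI (hH.mul hE0) (hF.mul hE) fun s hs => ?_
    rw [hHL s hs, hFL s hs, etc_res hbot htop hn hr art χ hψ, LI_res hnb hn hψ1 hs,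
      LI_res m0_bot m0_top hψ1 hs]
    ring
  refine count_congr (fun s _ => hH.analyticAt s) (fun s _ => hF.analyticAt s) fun s hs => ?_
  rw [← order_mul_ne (hH.analyticAt s) (hE0.analyticAt s) (Ef_ne m0_bot hψ1 hs.1) EventuallyEq.rfl,
    ← order_mul_ne (hF.analyticAt s) (hE.analyticAt s) (Ef_ne hnb hψ1 hs.1) EventuallyEq.rfl, heq]

/-- a member of the family is not trivial on the principal ideals -/
theorem fam_ram (hbot : 𝔮 ≠ ⊥) (hT : ∀ x : 𝓞 K, TPos K x)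
    {ψ : Ideal (𝓞 K) →*₀ ℂ} (hψ : ψ ∈ Fam 𝔮) :
    ∃ (x : 𝓞 K) (_ : IsCoprime (Ideal.span {x}) 𝔮), ψ (Ideal.span {x}) ≠ 1 := by
  obtain ⟨𝔣, h1, h2, h3⟩ := hψ
  obtain ⟨x, -, -, hx, hx2⟩ := h3.prim ⊤ (by rw [← Ideal.one_eq_top]; exact one_dvd _)
    (fun h => h2 h.symm)
  obtain ⟨z, hz1, hz2⟩ := exists_cop_lift (Ideal.dvd_iff_le.mp h1) hbot hx
  exact ⟨z, hz1, by rw [prim_congr hT h3 h2 hz2 hx]; exact hx2⟩

end

end Pool.Agent.Y773.AB
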