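import Pool.Agent.Y773.AB.Thin
import Pool.Agent.Y773.IQ.Num
import Pool.Agent.Y693.AB.Num
import Pool.Agent.Y693.AB.Cst

/-!
# Thin families of ray class characters: the number of characters, the constants
-/

set_option autoImplicit false
set_option linter.unusedSectionVars false

open NumberField Filter Topology MeasureTheory

namespace Pool.Agent.Y773.AB

open Pool.Agent.Y773 (TPos cc)
open Pool.Agent.Y767 (Mq Mq_cop Mq_ne_bot Cls cls cls_pi cK card_dual finite_dual)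
open Pool.Agent.Y773.IQ (T1 T1_cop pi1 pi1_coe absNorm_pos' finite_units cls_card_le Fam tM tM_coe
  tM_mem tM_inj Fam_finite D0 D0_card D0_sub D1 D1_card exists_rep exists_prim card_units_le_norm
  dv divisor_bound exists_ge one_le_norm small_cond cd cd_spec tpos_all)
open H385 (Rw)

section

variable {K : Type} [Field K] [NumberField K]

/-- the primitive characters in the thin family -/
def FamH {𝔮 : Ideal (𝓞 K)} (htop : 𝔮 ≠ ⊤) (H : Subgroup (Cls (pi1 htop) →* ℂˣ)) :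
    Set (Ideal (𝓞 K) →*₀ ℂ) :=
  {ψ | ψ ∈ Fam 𝔮 ∧ ∃ F ∈ H, tM 𝔮 ψ = F.comp (cls (pi1 htop))}

lemma FamH_sub {𝔮 : Ideal (𝓞 K)} (htop : 𝔮 ≠ ⊤) (H : Subgroup (Cls (pi1 htop) →* ℂˣ)) :
    FamH htop H ⊆ Fam 𝔮 := fun _ h => h.1

lemma FamH_finite {𝔮 : Ideal (𝓞 K)} (hbot : 𝔮 ≠ ⊥) (htop : 𝔮 ≠ ⊤) (hT : ∀ x : 𝓞 K, TPos K x)
    (H : Subgroup (Cls (pi1 htop) →* ℂˣ)) : (FamH htop H).Finite :=
  (Fam_finite hbot htop hT).1.subset (FamH_sub htop H)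

lemma FamH_lower {𝔮 : Ideal (𝓞 K)} (hbot : 𝔮 ≠ ⊥) (htop : 𝔮 ≠ ⊤) (hT : ∀ x : 𝓞 K, TPos K x)
    (H : Subgroup (Cls (pi1 htop) →* ℂˣ)) :
    Nat.card H ≤ (FamH htop H).ncard + Nat.card (ClassGroup (𝓞 K)) := by
  have hfc : Finite (Cls (pi1 htop)) := (cls_card_le hbot htop).1
  have hfd := finite_dual (Cls (pi1 htop))
  have hfH : Finite H := inferInstance
  obtain ⟨h1, h2⟩ := D1_card hbot htop
  have hinj : Function.Injective (fun F : H => (F : Cls (pi1 htop) →* ℂˣ).comp (cls (pi1 htop))) := by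
    intro F F' h
    apply Subtype.ext
    refine MonoidHom.ext fun c => ?_
    obtain ⟨𝔞, rfl⟩ := exists_rep htop c
    exact DFunLike.congr_fun h 𝔞
  have hsub : Set.range (fun F : H => (F : Cls (pi1 htop) →* ℂˣ).comp (cls (pi1 htop))) ⊆
      tM 𝔮 '' FamH htop H ∪ D0 𝔮 := by
    rintro _ ⟨F, rfl⟩
    rcases exists_prim hbot htop ((F : Cls (pi1 htop) →* ℂˣ).comp (cls (pi1 htop))) (by
      intro x
      change (F : Cls (pi1 htop) →* ℂˣ) (cls (pi1 htop) (pi1 htop x)) = 1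
      rw [cls_pi, map_one]) with h | ⟨𝔣, ψ, h3, h4, h5, h6⟩
    · exact Or.inr h
    · left
      have hψ : ψ ∈ Fam 𝔮 := ⟨𝔣, h3, h4, h5 hT⟩
      have he : tM 𝔮 ψ = (F : Cls (pi1 htop) →* ℂˣ).comp (cls (pi1 htop)) := by
        ext x
        rw [tM_coe htop hψ, h6]
      exact ⟨ψ, ⟨hψ, F.1, F.2, he⟩, he⟩
  have hf := FamH_finite hbot htop hT H
  have h3 : Nat.card H = (Set.range (fun F : H =>
      (F : Cls (pi1 htop) →* ℂˣ).comp (cls (pi1 htop)))).ncard := by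
    rw [← Set.image_univ, Set.ncard_image_of_injective _ hinj, Set.ncard_univ]
  rw [h3]
  refine (Set.ncard_le_ncard hsub ((hf.image _).union (h1.subset (D0_sub htop)))).trans ?_
  refine (Set.ncard_union_le _ _).trans ?_
  exact Nat.add_le_add (Set.ncard_image_le hf) (D0_card htop hT)

lemma cls_le {𝔮 : Ideal (𝓞 K)} (hbot : 𝔮 ≠ ⊥) (htop : 𝔮 ≠ ⊤) :
    (Nat.card (Cls (pi1 htop)) : ℝ) ≤ (Ideal.absNorm 𝔮 : ℝ) * Nat.card (ClassGroup (𝓞 K)) := by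
  have h1 := (cls_card_le hbot htop).2
  have h2 := card_units_le_norm hbot
  have h3 : Nat.card (Cls (pi1 htop)) ≤ Ideal.absNorm 𝔮 * Nat.card (ClassGroup (𝓞 K)) :=
    h1.trans (Nat.mul_le_mul_right _ h2)
  exact_mod_cast h3

variable (K)

/-- the numerical facts -/
theorem numW [IsTotallyComplex K] (δ s : ℝ) (hδ0 : 0 < δ) (hs : 0 < s) (hsδ : s < δ)
    (hs1 : s ≤ 1) :
    ∃ N0 : ℝ, 3 ≤ N0 ∧ ∀ (𝔮 : Ideal (𝓞 K)) (hbot : 𝔮 ≠ ⊥) (htop : 𝔮 ≠ ⊤)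
      (H : Subgroup (Cls (pi1 htop) →* ℂˣ)), N0 ≤ (Ideal.absNorm 𝔮 : ℝ) →
      (Ideal.absNorm 𝔮 : ℝ) ^ δ ≤ Nat.card H →
      (Nat.card (ev H).ker : ℝ) ≤ (Ideal.absNorm 𝔮 : ℝ) ^ (1 - δ + s) ∧
      (1 / 2) * (Ideal.absNorm 𝔮 : ℝ) ^ δ ≤ ((FamH htop H).ncard : ℝ) ∧
      (1 + s / 2) * Nat.card H ≤ (1 + s) * ((FamH htop H).ncard : ℝ) := by
  obtain ⟨h, hh⟩ : ∃ h : ℝ, h = Nat.card (ClassGroup (𝓞 K)) := ⟨_, rfl⟩
  have hh0 : 1 ≤ h := by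
    rw [hh]
    exact_mod_cast Nat.card_pos
  obtain ⟨N1, hN1, h1⟩ := exists_ge s h hs
  obtain ⟨N2, hN2, h2⟩ := exists_ge δ (4 * h / s + 2 * h) hδ0
  refine ⟨max 3 (max N1 N2), le_max_left _ _, fun 𝔮 hbot htop H hN hH => ?_⟩
  have k1 := h1 _ (((le_max_left _ _).trans (le_max_right _ _)).trans hN)
  have k2 := h2 _ (((le_max_right _ _).trans (le_max_right _ _)).trans hN)
  have hfc : Finite (Cls (pi1 htop)) := (cls_card_le hbot htop).1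
  have hl := FamH_lower hbot htop (fun x => tpos_all x) H
  have hl' : (Nat.card H : ℝ) ≤ ((FamH htop H).ncard : ℝ) + h := by
    rw [hh]; exact_mod_cast hl
  obtain ⟨N, hNd⟩ : ∃ N : ℝ, N = (Ideal.absNorm 𝔮 : ℝ) := ⟨_, rfl⟩
  have hNge : 1 ≤ N := by rw [hNd]; exact one_le_norm K hbot
  have hNp : 0 < N := by linarith
  have hcl := cls_le hbot htop
  rw [← hNd] at k1 k2 hH hcl ⊢
  rw [← hh] at hcl
  have hNδ : 0 < N ^ δ := Real.rpow_pos_of_pos hNp _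
  have hHp : 0 < (Nat.card H : ℝ) := lt_of_lt_of_le hNδ hH
  refine ⟨?_, ?_, ?_⟩
  · have h3 : (Nat.card (ev H).ker : ℝ) * Nat.card H ≤ Nat.card (Cls (pi1 htop)) := by
      exact_mod_cast card_ker_mul H
    have h4 : (Nat.card (ev H).ker : ℝ) * N ^ δ ≤ N * N ^ s := by
      calc _ ≤ (Nat.card (ev H).ker : ℝ) * Nat.card H :=
            mul_le_mul_of_nonneg_left hH (Nat.cast_nonneg _)
        _ ≤ _ := h3
        _ ≤ N * h := hcl
        _ ≤ _ := mul_le_mul_of_nonneg_left k1 hNp.le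
    have h5 : N ^ (1 - δ + s) * N ^ δ = N * N ^ s := by
      rw [← Real.rpow_add hNp]
      calc N ^ (1 - δ + s + δ) = N ^ (1 + s) := by congr 1; ring
        _ = _ := by rw [Real.rpow_add hNp, Real.rpow_one]
    rw [← h5] at h4
    exact le_of_mul_le_mul_right h4 hNδ
  · have h3 : 2 * h ≤ N ^ δ := by
      have : 0 ≤ 4 * h / s := by positivity
      linarith
    linarith
  · have h3 : 4 * h ≤ s * N ^ δ := by
      have h4 : 4 * h / s ≤ N ^ δ := by linarith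
      rw [div_le_iff₀ hs] at h4
      linarith
    have h4 : 4 * h ≤ s * Nat.card H := h3.trans (mul_le_mul_of_nonneg_left hH hs.le)
    have h5 : (1 + s) * (Nat.card H : ℝ) ≤ (1 + s) * (((FamH htop H).ncard : ℝ) + h) :=
      mul_le_mul_of_nonneg_left hl' (by linarith)
    have h6 : (1 + s) * h ≤ 2 * h := mul_le_mul_of_nonneg_right (by linarith) (by linarith)
    nlinarith

/-- few small conductors -/
theorem numW' [IsTotallyComplex K] (δ y : ℝ) (hδ0 : 0 < δ) (hy : y < δ) (ρ : ℝ)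
    (hρ : 0 < ρ) : ∃ N0 : ℝ, 1 ≤ N0 ∧ ∀ (𝔮 : Ideal (𝓞 K)) (_ : 𝔮 ≠ ⊥) (htop : 𝔮 ≠ ⊤)
      (H : Subgroup (Cls (pi1 htop) →* ℂˣ)) (S : Finset (Ideal (𝓞 K) →*₀ ℂ)),
      (∀ ψ, ψ ∈ S ↔ ψ ∈ FamH htop H) → N0 ≤ (Ideal.absNorm 𝔮 : ℝ) →
      (1 / 2) * (Ideal.absNorm 𝔮 : ℝ) ^ δ ≤ ((FamH htop H).ncard : ℝ) →
      (open Classical in
        ((S.filter (fun ψ => (Ideal.absNorm (cd 𝔮 ψ) : ℝ) ≤ (Ideal.absNorm 𝔮 : ℝ) ^ y)).card : ℝ)) ≤
        ρ * S.card := by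
  classical
  obtain ⟨C, hC, hdiv⟩ := divisor_bound K (ε := (δ - y) / 2) (by linarith)
  obtain ⟨h, hh⟩ : ∃ h : ℝ, h = Nat.card (ClassGroup (𝓞 K)) := ⟨_, rfl⟩
  have hh0 : 0 ≤ h := by rw [hh]; exact Nat.cast_nonneg _
  obtain ⟨N1, hN1, h1⟩ := exists_ge ((δ - y) / 2) (2 * C * h / ρ) (by linarith)
  refine ⟨N1, hN1, fun 𝔮 hbot htop H S hS hN hlow => ?_⟩
  have k2 := h1 _ hN
  obtain ⟨N, hNd⟩ : ∃ N : ℝ, N = (Ideal.absNorm 𝔮 : ℝ) := ⟨_, rfl⟩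
  have hNge : 1 ≤ N := by rw [hNd]; exact one_le_norm K hbot
  have hNp : 0 < N := by linarith
  have hSc : (S.card : ℝ) = ((FamH htop H).ncard : ℝ) := by
    have : (FamH htop H) = (S : Set _) := by
      ext ψ; rw [Finset.mem_coe, hS]
    rw [this, Set.ncard_coe_finset]
  rw [← hSc] at hlow
  rw [← hNd] at k2 hlow ⊢
  have m1 := small_cond hbot (fun x => tpos_all x) (N ^ y) (Real.rpow_nonneg hNp.le _)
    (S.filter (fun ψ => (Ideal.absNorm (cd 𝔮 ψ) : ℝ) ≤ N ^ y)) (by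
    intro ψ hψ
    obtain ⟨u1, u2⟩ := Finset.mem_filter.mp hψ
    exact ⟨((hS ψ).mp u1).1, u2⟩)
  have v1 := hdiv 𝔮 hbot
  rw [← hNd] at v1
  rw [← hh] at m1
  have hNy : 0 < N ^ y := Real.rpow_pos_of_pos hNp _
  have hNe : 0 < N ^ ((δ - y) / 2) := Real.rpow_pos_of_pos hNp _
  have v2 : N ^ ((δ - y) / 2) * N ^ y * N ^ ((δ - y) / 2) = N ^ δ := by
    rw [← Real.rpow_add hNp, ← Real.rpow_add hNp]
    congr 1; ring
  rw [div_le_iff₀ hρ] at k2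
  calc _ ≤ (dv 𝔮).ncard * (N ^ y * h) := m1
    _ ≤ (C * N ^ ((δ - y) / 2)) * (N ^ y * h) := mul_le_mul_of_nonneg_right v1 (by positivity)
    _ = (N ^ ((δ - y) / 2) * N ^ y) * (C * h) := by ring
    _ ≤ (N ^ ((δ - y) / 2) * N ^ y) * (N ^ ((δ - y) / 2) * ρ / 2) := by
        refine mul_le_mul_of_nonneg_left ?_ (by positivity)
        linarith
    _ = ρ * (1 / 2 * (N ^ ((δ - y) / 2) * N ^ y * N ^ ((δ - y) / 2))) := by ring
    _ ≤ _ := by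
        rw [v2]
        exact mul_le_mul_of_nonneg_left hlow hρ.le

end

/-- the constant of the theorem -/
noncomputable def kap (δ : ℝ) : ℝ := δ / 2 + Real.cot (δ / Real.sqrt 2) / Real.sqrt 2

/-- the parameters -/
theorem constsW (δ : ℝ) (hδ : 2 / 3 < δ) (hδ1 : δ < 1) (ε : ℝ) (hε : 0 < ε) :
    ∃ γ s : ℝ, 0 < γ ∧ γ < Real.pi ∧ 0 < s ∧ s < 1 ∧ 5 * s < δ ∧ 1 - δ + 2 * s ≤ 1 / 3 ∧
      0 ≤ Rw γ 0 ∧ 0 ≤ (∫ α in (0 : ℝ)..1, α * Rw γ α) ∧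
      2 * (2 * δ - 5 * s) * (∫ α in (0 : ℝ)..1, α * Rw γ α) * (1 + s) * (2 * δ - 5 * s) ≤
        4 * Rw γ 0 * (δ - s) ∧
      2 * Rw γ 0 / (2 * δ - 5 * s) + 2 * (2 * δ - 5 * s) * (∫ α in (0 : ℝ)..1, α * Rw γ α) *
        (1 + s) / 2 + ε / 2 ≤ kap δ + ε := by
  have hδ0 : 0 < δ := by linarith
  obtain ⟨γ, hγ⟩ : ∃ γ : ℝ, γ = Real.sqrt 2 * δ := ⟨_, rfl⟩
  have h0 : 0 < γ := by rw [hγ]; positivity
  have hπ : γ < Real.pi := by
    have h1 : Real.sqrt 2 ≤ 3 / 2 := by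
      rw [Real.sqrt_le_left (by norm_num)]; norm_num
    have := Real.pi_gt_three
    rw [hγ]
    nlinarith
  have hconst := Pool.Agent.Y693.AB.const_closed δ hδ0 hδ1
  rw [← hγ] at hconst
  have hJR := Pool.Agent.Y693.AB.J_le γ h0 hπ
  obtain ⟨R, hR⟩ : ∃ R : ℝ, R = Rw γ 0 := ⟨_, rfl⟩
  obtain ⟨I1, hI1⟩ : ∃ I1 : ℝ, I1 = ∫ α in (0 : ℝ)..1, α * Rw γ α := ⟨_, rfl⟩
  have hR0 : 0 ≤ R := by rw [hR]; exact H385.Rw_nonneg γ h0 hπ 0
  have hI0 : 0 ≤ I1 := by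
    rw [hI1]
    exact intervalIntegral.integral_nonneg zero_le_one
      (fun α hα => mul_nonneg hα.1 (H385.Rw_nonneg γ h0 hπ α))
  rw [← hR, ← hI1] at hconst hJR
  have hk : kap δ = 1 / δ * R + 2 * δ * I1 := hconst.symm
  have hcont : ContinuousAt (fun s : ℝ => 2 * R / (2 * δ - 5 * s) +
      2 * (2 * δ - 5 * s) * I1 * (1 + s) / 2) 0 := by
    have : 2 * δ - 5 * (0 : ℝ) ≠ 0 := by rw [mul_zero, sub_zero]; positivity
    fun_prop (disch := assumption)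
  have hlt : (fun s : ℝ => 2 * R / (2 * δ - 5 * s) +
      2 * (2 * δ - 5 * s) * I1 * (1 + s) / 2) 0 < kap δ + ε / 2 := by
    change 2 * R / (2 * δ - 5 * 0) + 2 * (2 * δ - 5 * 0) * I1 * (1 + 0) / 2 < kap δ + ε / 2
    rw [hk]
    have : 2 * R / (2 * δ - 5 * 0) = 1 / δ * R := by
      rw [mul_zero, sub_zero]; field_simp
    rw [this]
    linarith
  have hev := hcont.eventually_lt_const hlt
  obtain ⟨r, hr, hball⟩ := Metric.eventually_nhds_iff.mp hev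
  obtain ⟨s, hs⟩ : ∃ s : ℝ, s = min (r / 2) (min ((δ - 2 / 3) / 2) ((δ - δ ^ 2) / 2)) := ⟨_, rfl⟩
  have hδδ : 0 < δ - δ ^ 2 := by nlinarith
  have hs0 : 0 < s := by
    rw [hs]
    exact lt_min (by positivity) (lt_min (by linarith) (by linarith))
  have hs1 : s ≤ r / 2 := by rw [hs]; exact min_le_left _ _
  have hs2 : s ≤ (δ - 2 / 3) / 2 := by
    rw [hs]; exact (min_le_right _ _).trans (min_le_left _ _)
  have hs3 : s ≤ (δ - δ ^ 2) / 2 := by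
    rw [hs]; exact (min_le_right _ _).trans (min_le_right _ _)
  have hδ2 : δ ^ 2 ≤ 1 := by nlinarith
  have hsr := hball (y := s) (by rw [Real.dist_eq, sub_zero, abs_of_pos hs0]; linarith)
  refine ⟨γ, s, h0, hπ, hs0, by linarith, ?_, by linarith, by rw [← hR]; exact hR0,
    by rw [← hI1]; exact hI0, ?_, ?_⟩
  · nlinarith [sq_nonneg (δ - 1 / 2)]
  · rw [← hR, ← hI1]
    have hb : 0 ≤ 2 * δ - 5 * s := by nlinarith [sq_nonneg (δ - 1 / 2)]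
    have hb2 : (2 * δ - 5 * s) ^ 2 ≤ 4 * δ ^ 2 := by nlinarith
    have h3 : (2 * δ - 5 * s) ^ 2 * (1 + s) ≤ 4 * (δ - s) := by
      calc (2 * δ - 5 * s) ^ 2 * (1 + s) ≤ 4 * δ ^ 2 * (1 + s) :=
            mul_le_mul_of_nonneg_right hb2 (by linarith)
        _ ≤ 4 * (δ - s) := by nlinarith
    calc 2 * (2 * δ - 5 * s) * I1 * (1 + s) * (2 * δ - 5 * s) =
        ((2 * δ - 5 * s) ^ 2 * (1 + s)) * (2 * I1) := by ring
      _ ≤ ((2 * δ - 5 * s) ^ 2 * (1 + s)) * R := by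
          refine mul_le_mul_of_nonneg_left hJR ?_
          have : 0 ≤ 1 + s := by linarith
          positivity
      _ ≤ (4 * (δ - s)) * R := mul_le_mul_of_nonneg_right h3 hR0
      _ = _ := by ring
  · rw [← hR, ← hI1]
    linarith

end Pool.Agent.Y773.AB
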