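import Pool.Agent.Y773.AB.Tup

/-!
# The weighted sum over the pairs of related primes

The version for an abstract commutative monoid of `Pool.Agent.Y693.AB.PBd`,
`Pool.Agent.Y693.AB.OffS` (helper693, Gaussian integers).
-/

set_option autoImplicit false

namespace Pool.Agent.Y773.AB

theorem choose_j (θ' lA lN : ℝ) (h0 : 0 < θ') (h3 : θ' ≤ 1 / 3) (hA : 0 < lA) (hN : 0 < lN)
    (hAN : lA ≤ (1 - θ') * lN) : ∃ j : ℕ, 1 ≤ j ∧ θ' * lN ≤ j * lA ∧ j * lA ≤ (1 - θ') * lN ∧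
      (j : ℝ) ≤ 1 + lN / lA := by
  by_cases h : θ' * lN ≤ lA
  · refine ⟨1, le_rfl, by simpa using h, by simpa using hAN, ?_⟩
    have : 0 ≤ lN / lA := by positivity
    push_cast
    linarith
  · rw [not_le] at h
    have h1 : 0 < θ' * lN / lA := by positivity
    refine ⟨⌈θ' * lN / lA⌉₊, Nat.ceil_pos.2 h1, ?_, ?_, ?_⟩
    · have h2 := Nat.le_ceil (θ' * lN / lA)
      rwa [div_le_iff₀ hA] at h2
    · have h2 := (Nat.ceil_lt_add_one h1.le).le
      have h4 : (⌈θ' * lN / lA⌉₊ : ℝ) * lA ≤ (θ' * lN / lA + 1) * lA :=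
        mul_le_mul_of_nonneg_right h2 hA.le
      have h5 : (θ' * lN / lA + 1) * lA = θ' * lN + lA := by
        field_simp
      nlinarith
    · have h2 := (Nat.ceil_lt_add_one h1.le).le
      have h4 : θ' * lN / lA ≤ lN / lA := by
        apply div_le_div_of_nonneg_right _ hA.le
        nlinarith
      linarith

/-- the saving -/
noncomputable def tau (θ θ' : ℝ) : ℝ := min (1 - θ / θ') ((1 - θ) / (1 - θ') - 1)

theorem tau_pos {θ θ' : ℝ} (h0 : 0 < θ) (h1 : θ < θ') (h2 : θ' ≤ 1 / 3) : 0 < tau θ θ' := by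
  unfold tau
  have hθ' : 0 < θ' := by linarith
  apply lt_min
  · rw [sub_pos, div_lt_one hθ']; exact h1
  · rw [sub_pos, one_lt_div (by linarith)]; linarith

theorem tau_le {θ θ' : ℝ} (h0 : 0 < θ) (h1 : θ < θ') : tau θ θ' ≤ 1 := by
  unfold tau
  have hθ' : 0 < θ' := by linarith
  refine (min_le_left _ _).trans ?_
  have : 0 ≤ θ / θ' := by positivity
  linarith

section

variable {M G : Type} [CommMonoid M] [CommGroup G] {nm : M →* ℕ} {φ : M →* G}
  {cop : M → M → Prop}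

/-- the bound of `card_PP_le` for the best `j` -/
theorem PP_bound (θ θ' : ℝ) (h0 : 0 < θ) (h1 : θ < θ') (h2 : θ' ≤ 1 / 3)
    {Pr : Finset M} {C V N : ℝ} (hs : Sys nm φ cop Pr C V N) (hV : V ≤ N ^ θ) (A : ℕ)
    (hA2 : 2 ≤ A) (hAN : (A : ℝ) ≤ N ^ (1 - θ'))
    (hA : ∀ a ∈ Pr, nm a ≤ A) :
    ((PP φ Pr).card : ℝ) ≤ (68 * C) * (1 + Real.log N / Real.log A) ^ 2 *
      (A : ℝ) ^ (1 - tau θ θ') := by
  have hC := hs.hC
  have hV1 := hs.hV
  have hN1 := hs.hN
  have hθ' : 0 < θ' := by linarith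
  have hA0 : (0 : ℝ) < A := by
    have : 0 < A := by omega
    exact_mod_cast this
  have hA1 : (1 : ℝ) < A := by
    have : 1 < A := by omega
    exact_mod_cast this
  have hN0 : 0 < N := by linarith
  have hlA : 0 < Real.log A := Real.log_pos hA1
  have hlAN : Real.log A ≤ (1 - θ') * Real.log N := by
    rw [← Real.log_rpow hN0]
    exact Real.log_le_log hA0 hAN
  have hlN : 0 < Real.log N := by
    by_contra hcon
    have h3 : Real.log N = 0 := le_antisymm (not_lt.1 hcon) (Real.log_nonneg hN1)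
    rw [h3] at hlAN
    linarith
  obtain ⟨j, hj1, hj2, hj3, hj4⟩ := choose_j θ' (Real.log A) (Real.log N) hθ' h2 hlA hlN hlAN
  have hj0 : (0 : ℝ) < j := by
    have : 0 < j := by omega
    exact_mod_cast this
  have hmain := card_PP_le hs A hA j hj1
  set τ := tau θ θ' with hτ
  have hτ0 : 0 < τ := tau_pos h0 h1 h2
  have hτ1 : τ ≤ 1 := tau_le h0 h1
  have e1 : τ ≤ 1 - θ / θ' := min_le_left _ _
  have e2 : τ ≤ (1 - θ) / (1 - θ') - 1 := min_le_right _ _
  -- the two exponentials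
  have a1 : (N ^ θ) ^ (1 / (j : ℝ)) ≤ (A : ℝ) ^ (1 - τ) := by
    rw [← Real.rpow_mul hN0.le, Real.rpow_def_of_pos hN0, Real.rpow_def_of_pos hA0]
    apply Real.exp_le_exp.2
    have b1 : Real.log N * (θ * (1 / (j : ℝ))) ≤ θ / θ' * Real.log A := by
      rw [mul_one_div, mul_div_assoc', div_le_iff₀ hj0]
      have b2 : Real.log N * θ = θ / θ' * (θ' * Real.log N) := by field_simp
      rw [b2]
      calc θ / θ' * (θ' * Real.log N) ≤ θ / θ' * (j * Real.log A) :=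
            mul_le_mul_of_nonneg_left hj2 (by positivity)
        _ = _ := by ring
    nlinarith
  have a2 : (N ^ (θ - 1) * ((A : ℝ) ^ j) ^ 2) ^ (1 / (j : ℝ)) ≤ (A : ℝ) ^ (1 - τ) := by
    have b0 : N ^ (θ - 1) * ((A : ℝ) ^ j) ^ 2 =
        Real.exp (Real.log N * (θ - 1) + Real.log A * (2 * j)) := by
      rw [Real.exp_add, ← Real.rpow_def_of_pos hN0, ← Real.rpow_def_of_pos hA0]
      congr 1
      rw [← pow_mul, ← Real.rpow_natCast]
      congr 1
      push_cast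
      ring
    rw [b0, ← Real.exp_mul, Real.rpow_def_of_pos hA0]
    apply Real.exp_le_exp.2
    have b1 : (Real.log N * (θ - 1) + Real.log A * (2 * j)) * (1 / (j : ℝ)) =
        2 * Real.log A - (1 - θ) * (Real.log N / j) := by
      field_simp
      ring
    rw [b1]
    have b2 : Real.log A / (1 - θ') ≤ Real.log N / j := by
      rw [div_le_div_iff₀ (by linarith) hj0]
      linarith
    have b3 : (1 - θ) * (Real.log A / (1 - θ')) ≤ (1 - θ) * (Real.log N / j) :=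
      mul_le_mul_of_nonneg_left b2 (by linarith)
    have b4 : (1 - θ) * (Real.log A / (1 - θ')) = ((1 - θ) / (1 - θ')) * Real.log A := by ring
    rw [b4] at b3
    nlinarith
  have hX : (C * V * (1 + ((A : ℝ) ^ j) ^ 2 / N)) ^ (1 / (j : ℝ)) ≤
      (2 * C) * (A : ℝ) ^ (1 - τ) := by
    have hj1' : 1 / (j : ℝ) ≤ 1 := by
      rw [div_le_one hj0]
      exact_mod_cast hj1
    have c1 : C * V * (1 + ((A : ℝ) ^ j) ^ 2 / N) ≤
        (2 * C) * max (N ^ θ) (N ^ (θ - 1) * ((A : ℝ) ^ j) ^ 2) := by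
      have d1 : N ^ (θ - 1) = N ^ θ / N := by
        rw [Real.rpow_sub hN0, Real.rpow_one]
      have d2 : V * (1 + ((A : ℝ) ^ j) ^ 2 / N) ≤
          N ^ θ * (1 + ((A : ℝ) ^ j) ^ 2 / N) :=
        mul_le_mul_of_nonneg_right hV (by positivity)
      have d3 : N ^ θ * (1 + ((A : ℝ) ^ j) ^ 2 / N) =
          N ^ θ + (N ^ (θ - 1) * ((A : ℝ) ^ j) ^ 2) := by
        rw [d1]; ring
      have d4 := le_max_left (N ^ θ) (N ^ (θ - 1) * ((A : ℝ) ^ j) ^ 2)
      have d5 := le_max_right (N ^ θ) (N ^ (θ - 1) * ((A : ℝ) ^ j) ^ 2)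
      have d6 : V * (1 + ((A : ℝ) ^ j) ^ 2 / N) ≤
          2 * max (N ^ θ) (N ^ (θ - 1) * ((A : ℝ) ^ j) ^ 2) := by linarith
      calc C * V * (1 + ((A : ℝ) ^ j) ^ 2 / N) = C * (V * (1 + ((A : ℝ) ^ j) ^ 2 / N)) := by ring
        _ ≤ C * (2 * max (N ^ θ) (N ^ (θ - 1) * ((A : ℝ) ^ j) ^ 2)) :=
            mul_le_mul_of_nonneg_left d6 (by linarith)
        _ = _ := by ring
    refine (Real.rpow_le_rpow (by positivity) c1 (by positivity)).trans ?_
    rw [Real.mul_rpow (by positivity) (le_max_of_le_left (by positivity))]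
    have c2 : (2 * C) ^ (1 / (j : ℝ)) ≤ 2 * C := by
      calc (2 * C) ^ (1 / (j : ℝ)) ≤ (2 * C) ^ (1 : ℝ) :=
            Real.rpow_le_rpow_of_exponent_le (by linarith) hj1'
        _ = 2 * C := Real.rpow_one _
    have c3 : (max (N ^ θ) (N ^ (θ - 1) * ((A : ℝ) ^ j) ^ 2)) ^ (1 / (j : ℝ)) ≤
        (A : ℝ) ^ (1 - τ) := by
      rcases max_choice (N ^ θ) (N ^ (θ - 1) * ((A : ℝ) ^ j) ^ 2) with h | h
      · rw [h]; exact a1
      · rw [h]; exact a2
    exact mul_le_mul c2 c3 (Real.rpow_nonneg (le_max_of_le_left (by positivity)) _)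
      (by positivity)
  have hApos : 1 ≤ (A : ℝ) ^ (1 - τ) := Real.one_le_rpow hA1.le (by linarith)
  have hj5 : (j : ℝ) ^ 2 ≤ (1 + Real.log N / Real.log A) ^ 2 := pow_le_pow_left₀ hj0.le hj4 2
  have hA2' : 0 ≤ (j : ℝ) ^ 2 * (A : ℝ) ^ (1 - τ) := by positivity
  calc ((PP φ Pr).card : ℝ) ≤ 64 * (j : ℝ) ^ 2 + 2 * (j : ℝ) ^ 2 *
      (C * V * (1 + ((A : ℝ) ^ j) ^ 2 / N)) ^ (1 / (j : ℝ)) := hmain
    _ ≤ 64 * (j : ℝ) ^ 2 * (A : ℝ) ^ (1 - τ) + 2 * (j : ℝ) ^ 2 * ((2 * C) * (A : ℝ) ^ (1 - τ)) := by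
        refine add_le_add ?_ (mul_le_mul_of_nonneg_left hX (by positivity))
        exact le_mul_of_one_le_right (by positivity) hApos
    _ = 64 * ((j : ℝ) ^ 2 * (A : ℝ) ^ (1 - τ)) + 4 * C * ((j : ℝ) ^ 2 * (A : ℝ) ^ (1 - τ)) := by
        ring
    _ ≤ 64 * C * ((j : ℝ) ^ 2 * (A : ℝ) ^ (1 - τ)) +
        4 * C * ((j : ℝ) ^ 2 * (A : ℝ) ^ (1 - τ)) := by
        have : 64 * ((j : ℝ) ^ 2 * (A : ℝ) ^ (1 - τ)) ≤
            64 * C * ((j : ℝ) ^ 2 * (A : ℝ) ^ (1 - τ)) :=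
          mul_le_mul_of_nonneg_right (by linarith) hA2'
        linarith
    _ = (68 * C) * (j : ℝ) ^ 2 * (A : ℝ) ^ (1 - τ) := by ring
    _ ≤ _ := by gcongr

end

/-- the weight `Λ(n) n^{-1/2} exp(-(u - log n)²/4)` -/
noncomputable def Gw (u : ℝ) (n : ℕ) : ℝ :=
  ArithmeticFunction.vonMangoldt n / Real.sqrt n * Real.exp (-(u - Real.log n) ^ 2 / 4)

theorem Gw_nonneg (u : ℝ) (n : ℕ) : 0 ≤ Gw u n := by
  unfold Gw
  exact mul_nonneg (div_nonneg ArithmeticFunction.vonMangoldt_nonneg (Real.sqrt_nonneg _))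
    (Real.exp_pos _).le

theorem Gw_le (u : ℝ) (n : ℕ) (hn : 1 ≤ n) :
    Gw u n ≤ Real.log n * (Real.exp (-u / 2) *
      Real.exp ((u - Real.log n) / 2 - (u - Real.log n) ^ 2 / 4)) := by
  have hn0 : (0 : ℝ) < n := by exact_mod_cast hn
  unfold Gw
  have h1 : ArithmeticFunction.vonMangoldt n ≤ Real.log n := ArithmeticFunction.vonMangoldt_le_log
  have h2 : (Real.sqrt n)⁻¹ = Real.exp (-u / 2) * Real.exp ((u - Real.log n) / 2) := by
    rw [← Real.exp_add]
    have : -u / 2 + (u - Real.log n) / 2 = -(Real.log n / 2) := by ring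
    rw [this, Real.exp_neg]
    congr 1
    rw [Real.exp_half, Real.exp_log hn0]
  have h3 : Real.exp ((u - Real.log n) / 2 - (u - Real.log n) ^ 2 / 4) =
      Real.exp ((u - Real.log n) / 2) * Real.exp (-(u - Real.log n) ^ 2 / 4) := by
    rw [← Real.exp_add]
    congr 1
    ring
  rw [div_eq_mul_inv, h2, h3]
  have h4 : 0 ≤ Real.exp (-u / 2) * Real.exp ((u - Real.log n) / 2) *
      Real.exp (-(u - Real.log n) ^ 2 / 4) := by positivity
  calc _ = ArithmeticFunction.vonMangoldt n * (Real.exp (-u / 2) * Real.exp ((u - Real.log n) / 2) *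
      Real.exp (-(u - Real.log n) ^ 2 / 4)) := by ring
    _ ≤ Real.log n * (Real.exp (-u / 2) * Real.exp ((u - Real.log n) / 2) *
      Real.exp (-(u - Real.log n) ^ 2 / 4)) := mul_le_mul_of_nonneg_right h1 h4
    _ = _ := by ring

/-- the weight of a bin -/
noncomputable def Wk (u : ℝ) (k : ℕ) : ℝ :=
  Real.exp 1 * ((k : ℝ) + 1) ^ 2 * (Real.exp (-u) * Real.exp (-(u - k) ^ 2 / 16))

theorem Wk_nonneg (u : ℝ) (k : ℕ) : 0 ≤ Wk u k := by
  unfold Wk
  positivity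

theorem gw_prod_le (u : ℝ) (n m : ℕ) (hn : 1 ≤ n) (hnm : n ≤ m) :
    Gw u n * Gw u m ≤ Wk u ⌊Real.log m⌋₊ := by
  have hm : 1 ≤ m := hn.trans hnm
  have hn0 : (0 : ℝ) < n := by exact_mod_cast hn
  have hm0 : (0 : ℝ) < m := by exact_mod_cast hm
  have hlm : Real.log n ≤ Real.log m := Real.log_le_log hn0 (by exact_mod_cast hnm)
  have hln0 : 0 ≤ Real.log n := Real.log_nonneg (by exact_mod_cast hn)
  have hlm0 : 0 ≤ Real.log m := hln0.trans hlm
  set k := ⌊Real.log m⌋₊ with hk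
  have hk1 : (k : ℝ) ≤ Real.log m := Nat.floor_le hlm0
  have hk2 : Real.log m < k + 1 := Nat.lt_floor_add_one _
  have h1 := Gw_le u n hn
  have h2 := Gw_le u m hm
  have h3 : Real.exp ((u - Real.log n) / 2 - (u - Real.log n) ^ 2 / 4) ≤ Real.exp (1 / 4) := by
    apply Real.exp_le_exp.2
    nlinarith [sq_nonneg (u - Real.log n - 1)]
  have h4 : Real.exp ((u - Real.log m) / 2 - (u - Real.log m) ^ 2 / 4) ≤
      Real.exp (5 / 8) * Real.exp (-(u - k) ^ 2 / 16) := by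
    rw [← Real.exp_add]
    apply Real.exp_le_exp.2
    have e1 : (u - k) ^ 2 ≤ 2 * (u - Real.log m) ^ 2 + 2 := by
      have e2 : (Real.log m - k) ^ 2 ≤ 1 := by
        rw [sq_le_one_iff_abs_le_one, abs_of_nonneg (by linarith)]
        linarith
      nlinarith [sq_nonneg ((u - Real.log m) - (Real.log m - k))]
    nlinarith [sq_nonneg (u - Real.log m - 2)]
  have h5 : Gw u n ≤ Real.log m * (Real.exp (-u / 2) * Real.exp (1 / 4)) := by
    refine h1.trans ?_
    exact mul_le_mul hlm (mul_le_mul_of_nonneg_left h3 (Real.exp_pos _).le) (by positivity) hlm0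
  have h6 : Gw u m ≤ Real.log m * (Real.exp (-u / 2) *
      (Real.exp (5 / 8) * Real.exp (-(u - k) ^ 2 / 16))) := by
    refine h2.trans ?_
    exact mul_le_mul_of_nonneg_left (mul_le_mul_of_nonneg_left h4 (Real.exp_pos _).le) hlm0
  calc Gw u n * Gw u m ≤ (Real.log m * (Real.exp (-u / 2) * Real.exp (1 / 4))) *
      (Real.log m * (Real.exp (-u / 2) * (Real.exp (5 / 8) * Real.exp (-(u - k) ^ 2 / 16)))) :=
        mul_le_mul h5 h6 (Gw_nonneg _ _) (by positivity)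
    _ = (Real.exp (1 / 4) * Real.exp (5 / 8)) * (Real.log m) ^ 2 *
        ((Real.exp (-u / 2) * Real.exp (-u / 2)) * Real.exp (-(u - k) ^ 2 / 16)) := by ring
    _ ≤ Real.exp 1 * ((k : ℝ) + 1) ^ 2 * (Real.exp (-u) * Real.exp (-(u - k) ^ 2 / 16)) := by
        have e1 : Real.exp (1 / 4) * Real.exp (5 / 8) ≤ Real.exp 1 := by
          rw [← Real.exp_add]
          apply Real.exp_le_exp.2
          norm_num
        have e2 : Real.exp (-u / 2) * Real.exp (-u / 2) = Real.exp (-u) := by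
          rw [← Real.exp_add]
          congr 1
          ring
        have e3 : (Real.log m) ^ 2 ≤ ((k : ℝ) + 1) ^ 2 := pow_le_pow_left₀ hlm0 hk2.le 2
        rw [e2]
        gcongr

/-- a discrete exponential sum -/
theorem exp_abs_sum : ∃ C : ℝ, 0 < C ∧ ∀ (u : ℝ), 0 ≤ u → ∀ n : ℕ,
    ∑ k ∈ Finset.range n, Real.exp (-|(k : ℝ) - u| / 8) ≤ C := by
  set r : ℝ := Real.exp (-(1 / 8)) with hr
  have hr0 : 0 < r := Real.exp_pos _
  have hr1 : r < 1 := by rw [hr, Real.exp_lt_one_iff]; norm_num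
  have hgeom : ∀ n : ℕ, ∑ i ∈ Finset.range n, r ^ i ≤ 1 / (1 - r) := by
    intro n
    have h1 := (summable_geometric_of_lt_one hr0.le hr1).sum_le_tsum (Finset.range n)
      (fun i _ => by positivity)
    rwa [tsum_geometric_of_lt_one hr0.le hr1, ← one_div] at h1
  refine ⟨Real.exp (1 / 8) * (2 * (1 / (1 - r))), ?_, ?_⟩
  · have : 0 < 1 - r := by linarith
    positivity
  intro u hu n
  set m0 := ⌊u⌋₊ with hm0
  have k1 : (m0 : ℝ) ≤ u := Nat.floor_le hu
  have k2 : u < m0 + 1 := Nat.lt_floor_add_one _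
  have hterm : ∀ k ∈ Finset.range n, Real.exp (-|(k : ℝ) - u| / 8) ≤
      Real.exp (1 / 8) * ((if k < m0 then r ^ (m0 - 1 - k) else 0) +
        (if m0 ≤ k then r ^ (k - m0) else 0)) := by
    intro k _
    by_cases h : k < m0
    · rw [if_pos h, if_neg (by omega), add_zero, hr, ← Real.exp_nat_mul, ← Real.exp_add]
      apply Real.exp_le_exp.2
      have h3 : ((m0 - 1 - k : ℕ) : ℝ) = (m0 : ℝ) - 1 - k := by
        rw [Nat.sub_sub, Nat.cast_sub (by omega)]
        push_cast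
        ring
      rw [h3, abs_of_nonpos (by
        have : (k : ℝ) ≤ m0 := by exact_mod_cast h.le
        linarith)]
      linarith
    · rw [if_neg h, if_pos (by omega), zero_add, hr, ← Real.exp_nat_mul, ← Real.exp_add]
      apply Real.exp_le_exp.2
      have h3 : ((k - m0 : ℕ) : ℝ) = (k : ℝ) - m0 := by
        rw [Nat.cast_sub (by omega)]
      rw [h3]
      have h4 : (k : ℝ) - u ≤ |(k : ℝ) - u| := le_abs_self _
      linarith
  refine (Finset.sum_le_sum hterm).trans ?_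
  rw [← Finset.mul_sum, Finset.sum_add_distrib]
  refine mul_le_mul_of_nonneg_left ?_ (Real.exp_pos _).le
  have s1 : ∑ k ∈ Finset.range n, (if k < m0 then r ^ (m0 - 1 - k) else 0) ≤ 1 / (1 - r) := by
    rw [← Finset.sum_filter]
    have h1 : ∑ k ∈ (Finset.range n).filter (fun k => k < m0), r ^ (m0 - 1 - k) ≤
        ∑ k ∈ Finset.range m0, r ^ (m0 - 1 - k) := by
      apply Finset.sum_le_sum_of_subset_of_nonneg
      · intro k hk
        rw [Finset.mem_filter] at hk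
        exact Finset.mem_range.2 hk.2
      · intro k _ _
        positivity
    refine h1.trans ?_
    rw [Finset.sum_range_reflect (fun i => r ^ i) m0]
    exact hgeom m0
  have s2 : ∑ k ∈ Finset.range n, (if m0 ≤ k then r ^ (k - m0) else 0) ≤ 1 / (1 - r) := by
    rw [← Finset.sum_filter]
    have h1 : ∑ k ∈ (Finset.range n).filter (fun k => m0 ≤ k), r ^ (k - m0) ≤
        ∑ i ∈ Finset.range n, r ^ i := by
      rw [← Finset.sum_image (s := (Finset.range n).filter (fun k => m0 ≤ k))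
        (g := fun k => k - m0) (f := fun i => r ^ i)]
      · apply Finset.sum_le_sum_of_subset_of_nonneg
        · intro i hi
          rw [Finset.mem_image] at hi
          obtain ⟨k, hk, rfl⟩ := hi
          rw [Finset.mem_filter, Finset.mem_range] at hk
          rw [Finset.mem_range]
          omega
        · intro k _ _
          positivity
      · intro a ha b hb hab
        rw [Finset.mem_coe, Finset.mem_filter] at ha hb
        simp only at hab
        omega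
    exact h1.trans (hgeom n)
  linarith

/-- a convergent sum -/
theorem poly_exp_sum : ∃ C : ℝ, 0 < C ∧ ∀ n : ℕ,
    ∑ k ∈ Finset.range n, ((k : ℝ) + 1) ^ 2 * Real.exp (-(k : ℝ)) ≤ C := by
  have h2 : Summable (fun k : ℕ => ((k : ℝ)) ^ 2 * Real.exp (-1 * k)) :=
    Real.summable_pow_mul_exp_neg_nat_mul 2 one_pos
  have h0 : Summable (fun k : ℕ => ((k : ℝ)) ^ 0 * Real.exp (-1 * k)) :=
    Real.summable_pow_mul_exp_neg_nat_mul 0 one_pos
  have h : Summable (fun k : ℕ => 2 * (((k : ℝ)) ^ 2 * Real.exp (-1 * k)) +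
      2 * (((k : ℝ)) ^ 0 * Real.exp (-1 * k))) := (h2.mul_left 2).add (h0.mul_left 2)
  refine ⟨(∑' k : ℕ, (2 * (((k : ℝ)) ^ 2 * Real.exp (-1 * k)) +
      2 * (((k : ℝ)) ^ 0 * Real.exp (-1 * k)))) + 1, ?_, ?_⟩
  · have : 0 ≤ ∑' k : ℕ, (2 * (((k : ℝ)) ^ 2 * Real.exp (-1 * k)) +
      2 * (((k : ℝ)) ^ 0 * Real.exp (-1 * k))) := tsum_nonneg fun k => by positivity
    linarith
  · intro n
    have h3 : ∑ k ∈ Finset.range n, ((k : ℝ) + 1) ^ 2 * Real.exp (-(k : ℝ)) ≤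
        ∑ k ∈ Finset.range n, (2 * (((k : ℝ)) ^ 2 * Real.exp (-1 * k)) +
      2 * (((k : ℝ)) ^ 0 * Real.exp (-1 * k))) := by
      refine Finset.sum_le_sum fun k _ => ?_
      have e : Real.exp (-1 * (k : ℝ)) = Real.exp (-(k : ℝ)) := by congr 1; ring
      rw [e, pow_zero, one_mul]
      have h4 : ((k : ℝ) + 1) ^ 2 ≤ 2 * (k : ℝ) ^ 2 + 2 := by nlinarith [sq_nonneg ((k : ℝ) - 1)]
      have h5 := mul_le_mul_of_nonneg_right h4 (Real.exp_pos (-(k : ℝ))).le
      linarith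
    have h4 := h.sum_le_tsum (Finset.range n) (fun k _ => by positivity)
    linarith

section
variable {M G : Type} [CommMonoid M] [CommGroup G] (nm : M →* ℕ) (φ : M →* G) (Pr : Finset M)

/-- the bin of a pair -/
noncomputable def bin (p : M × M) : ℕ := ⌊Real.log ((max (nm p.1) (nm p.2) : ℕ) : ℝ)⌋₊

open Classical in
/-- the number of pairs in a bin -/
noncomputable def Fk (k : ℕ) : ℕ := ((PP φ Pr).filter (fun p => bin nm p = k)).card

theorem off_le_bins (h1 : ∀ a ∈ Pr, 1 ≤ nm a) (u : ℝ) : ∃ K : ℕ,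
    ∑ p ∈ PP φ Pr, Gw u (nm p.1) * Gw u (nm p.2) ≤
      ∑ k ∈ Finset.range K, (Fk nm φ Pr k : ℝ) * Wk u k := by
  classical
  obtain ⟨K, hK⟩ : ∃ K : ℕ, ∀ p ∈ PP φ Pr, bin nm p < K := by
    refine ⟨(PP φ Pr).sup (bin nm) + 1, fun p hp => ?_⟩
    have : bin nm p ≤ (PP φ Pr).sup (bin nm) := Finset.le_sup (f := bin nm) hp
    omega
  refine ⟨K, ?_⟩
  have h2 : ∑ p ∈ PP φ Pr, Gw u (nm p.1) * Gw u (nm p.2) ≤ ∑ p ∈ PP φ Pr, Wk u (bin nm p) := by
    refine Finset.sum_le_sum fun p hp => ?_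
    rw [mem_PP] at hp
    unfold bin
    rcases le_total (nm p.1) (nm p.2) with h | h
    · rw [max_eq_right h]
      exact gw_prod_le u _ _ (h1 _ hp.1) h
    · rw [max_eq_left h, mul_comm]
      exact gw_prod_le u _ _ (h1 _ hp.2.1) h
  refine h2.trans (le_of_eq ?_)
  rw [← Finset.sum_fiberwise_of_maps_to (s := PP φ Pr) (t := Finset.range K) (g := bin nm)
    (fun p hp => Finset.mem_range.2 (hK p hp))]
  refine Finset.sum_congr rfl fun k _ => ?_
  unfold Fk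
  rw [Finset.sum_congr rfl (g := fun _ => Wk u k), Finset.sum_const, nsmul_eq_mul]
  intro p hp
  rw [(Finset.mem_filter.1 hp).2]

variable {nm φ} {Pr}

/-- a bin is contained in the pairs of norm at most `A` -/
theorem Fk_le (N0 : ℕ) (hN0 : ∀ a ∈ Pr, nm a ≤ N0) (h1 : ∀ a ∈ Pr, 1 ≤ nm a) (k : ℕ) :
    Fk nm φ Pr k = 0 ∨ ∃ A : ℕ, (A : ℝ) ≤ Real.exp (k + 1) ∧ Real.exp k ≤ A ∧ A ≤ N0 ∧
      Fk nm φ Pr k ≤ (PP φ (Pr.filter (fun a => nm a ≤ A))).card := by
  classical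
  by_cases h : Fk nm φ Pr k = 0
  · exact Or.inl h
  right
  unfold Fk at h
  obtain ⟨p0, hp0⟩ := Finset.card_ne_zero.1 h
  rw [Finset.mem_filter, mem_PP] at hp0
  obtain ⟨⟨a1, a2, a3, a4⟩, hb⟩ := hp0
  have key : ∀ p : M × M, 1 ≤ nm p.1 → bin nm p = k →
      Real.exp k ≤ ((max (nm p.1) (nm p.2) : ℕ) : ℝ) ∧
      ((max (nm p.1) (nm p.2) : ℕ) : ℝ) ≤ Real.exp (k + 1) := by
    intro p hp hbp
    have hm1 : (1 : ℝ) ≤ ((max (nm p.1) (nm p.2) : ℕ) : ℝ) := by
      have : 1 ≤ max (nm p.1) (nm p.2) := hp.trans (le_max_left _ _)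
      exact_mod_cast this
    have hl := Real.log_nonneg hm1
    unfold bin at hbp
    have k1 := Nat.floor_le hl
    have k2 := Nat.lt_floor_add_one (Real.log ((max (nm p.1) (nm p.2) : ℕ) : ℝ))
    rw [hbp] at k1 k2
    constructor
    · rw [← Real.le_log_iff_exp_le (by linarith)]; exact k1
    · rw [← Real.log_le_iff_le_exp (by linarith)]; exact k2.le
  refine ⟨min ⌊Real.exp (k + 1)⌋₊ N0, ?_, ?_, min_le_right _ _, ?_⟩
  · have h2 : ((min ⌊Real.exp (k + 1)⌋₊ N0 : ℕ) : ℝ) ≤ (⌊Real.exp ((k : ℝ) + 1)⌋₊ : ℝ) := by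
      exact_mod_cast min_le_left _ _
    exact h2.trans (Nat.floor_le (Real.exp_pos _).le)
  · obtain ⟨b1, b2⟩ := key p0 (h1 _ a1) hb
    refine b1.trans ?_
    have h3 : max (nm p0.1) (nm p0.2) ≤ min ⌊Real.exp ((k : ℝ) + 1)⌋₊ N0 := by
      apply le_min
      · exact Nat.le_floor b2
      · exact max_le (hN0 _ a1) (hN0 _ a2)
    exact_mod_cast h3
  · unfold Fk
    apply Finset.card_le_card
    intro p hp
    rw [Finset.mem_filter, mem_PP] at hp
    obtain ⟨⟨c1, c2, c3, c4⟩, hbp⟩ := hp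
    obtain ⟨b1, b2⟩ := key p (h1 _ c1) hbp
    have h3 : max (nm p.1) (nm p.2) ≤ min ⌊Real.exp ((k : ℝ) + 1)⌋₊ N0 := by
      apply le_min
      · exact Nat.le_floor b2
      · exact max_le (hN0 _ c1) (hN0 _ c2)
    rw [mem_PP, Finset.mem_filter, Finset.mem_filter]
    exact ⟨⟨c1, (le_max_left _ _).trans h3⟩, ⟨c2, (le_max_right _ _).trans h3⟩, c3, c4⟩

end

/-- trivial bound for the number of pairs -/
theorem PP_trivial {M G : Type} [CommMonoid M] [CommGroup G] {nm : M →* ℕ} {φ : M →* G}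
    {cop : M → M → Prop} {Pr : Finset M} {C V N : ℝ} (hs : Sys nm φ cop Pr C V N) (A : ℕ)
    (hA : ∀ a ∈ Pr, nm a ≤ A) : ((PP φ Pr).card : ℝ) ≤ C ^ 2 * (A : ℝ) ^ 2 := by
  classical
  have hC := hs.hC
  have h1 : (PP φ Pr).card ≤ Pr.card * Pr.card := by
    unfold PP
    exact (Finset.card_filter_le _ _).trans (le_of_eq (Finset.card_product _ _))
  have h2 := hs.lin A Pr hA
  have h3 : ((PP φ Pr).card : ℝ) ≤ (Pr.card : ℝ) * Pr.card := by exact_mod_cast h1
  have h4 : (Pr.card : ℝ) * Pr.card ≤ (C * A) * (C * A) :=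
    mul_le_mul h2 h2 (Nat.cast_nonneg _) (by positivity)
  calc _ ≤ (C * A) * (C * A) := h3.trans h4
    _ = _ := by ring

/-- bound for bounded `u` -/
theorem off_small (C0 M0 : ℝ) (hC0 : 1 ≤ C0) : ∃ C : ℝ, 0 < C ∧ ∀ {M G : Type} [CommMonoid M]
    [CommGroup G] {nm : M →* ℕ} {φ : M →* G} {cop : M → M → Prop} {Pr : Finset M} {V N : ℝ}
    (_ : Sys nm φ cop Pr C0 V N) (u : ℝ), 0 ≤ u → u ≤ M0 →
    ∑ p ∈ PP φ Pr, Gw u (nm p.1) * Gw u (nm p.2) ≤ C := by
  classical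
  obtain ⟨C1, hC1, h1⟩ := poly_exp_sum
  refine ⟨C0 ^ 2 * Real.exp 1 * Real.exp (74 + M0 ^ 2 / 16) * C1, by positivity, ?_⟩
  intro M G _ _ nm φ cop Pr V N hs u hu hM
  have hPr : ∀ a ∈ Pr, 1 ≤ nm a := fun a _ => hs.pos a
  obtain ⟨K, hK⟩ := off_le_bins nm φ Pr hPr u
  refine hK.trans ?_
  have hterm : ∀ k ∈ Finset.range K, (Fk nm φ Pr k : ℝ) * Wk u k ≤
      C0 ^ 2 * Real.exp 1 * Real.exp (74 + M0 ^ 2 / 16) * (((k : ℝ) + 1) ^ 2 * Real.exp (-(k : ℝ))) := by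
    intro k _
    rcases Fk_le (φ := φ) (Pr.sup nm) (fun a ha => Finset.le_sup (f := nm) ha) hPr k with h0 | h0
    · rw [h0, Nat.cast_zero, zero_mul]
      positivity
    · obtain ⟨A, hA1, hA2, -, hA3⟩ := h0
      have hA4 : 1 ≤ A := by
        have h2 : (1 : ℝ) ≤ A := (Real.one_le_exp (Nat.cast_nonneg k)).trans hA2
        exact_mod_cast h2
      have h5 := PP_trivial (hs.mono (Finset.filter_subset (fun a => nm a ≤ A) Pr)) A
        (fun a ha => (Finset.mem_filter.1 ha).2)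
      have h6 : (Fk nm φ Pr k : ℝ) ≤ C0 ^ 2 * (Real.exp (k + 1)) ^ 2 := by
        have h7 : (Fk nm φ Pr k : ℝ) ≤ ((PP φ (Pr.filter (fun a => nm a ≤ A))).card : ℝ) := by
          exact_mod_cast hA3
        refine (h7.trans h5).trans ?_
        gcongr
      have h8 := mul_le_mul_of_nonneg_right h6 (Wk_nonneg u k)
      refine h8.trans ?_
      unfold Wk
      have h9 : (Real.exp ((k : ℝ) + 1)) ^ 2 * (Real.exp (-u) * Real.exp (-(u - k) ^ 2 / 16)) ≤
          Real.exp (74 + M0 ^ 2 / 16) * Real.exp (-(k : ℝ)) := by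
        rw [← Real.exp_nat_mul, ← Real.exp_add, ← Real.exp_add, ← Real.exp_add]
        apply Real.exp_le_exp.2
        push_cast
        have e1 : u ^ 2 ≤ M0 ^ 2 := pow_le_pow_left₀ hu hM 2
        nlinarith [sq_nonneg ((k : ℝ) - 2 * u), sq_nonneg ((k : ℝ) - 48)]
      calc C0 ^ 2 * (Real.exp ((k : ℝ) + 1)) ^ 2 * (Real.exp 1 * ((k : ℝ) + 1) ^ 2 *
          (Real.exp (-u) * Real.exp (-(u - k) ^ 2 / 16))) =
          C0 ^ 2 * Real.exp 1 * ((k : ℝ) + 1) ^ 2 * ((Real.exp ((k : ℝ) + 1)) ^ 2 *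
            (Real.exp (-u) * Real.exp (-(u - k) ^ 2 / 16))) := by ring
        _ ≤ C0 ^ 2 * Real.exp 1 * ((k : ℝ) + 1) ^ 2 *
            (Real.exp (74 + M0 ^ 2 / 16) * Real.exp (-(k : ℝ))) := by gcongr
        _ = _ := by ring
  refine (Finset.sum_le_sum hterm).trans ?_
  rw [← Finset.mul_sum]
  exact mul_le_mul_of_nonneg_left (h1 K) (by positivity)

/-- bound with a saving -/
theorem off_large (C0 : ℝ) (hC0 : 1 ≤ C0) (θ θ' : ℝ) (h0 : 0 < θ) (h1 : θ < θ')
    (h2 : θ' ≤ 1 / 3) : ∃ C : ℝ, 0 < C ∧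
    ∀ {M G : Type} [CommMonoid M] [CommGroup G] {nm : M →* ℕ} {φ : M →* G} {cop : M → M → Prop}
    {Pr : Finset M} {V N : ℝ} (_ : Sys nm φ cop Pr C0 V N) (_ : V ≤ N ^ θ) (N0 : ℕ)
    (_ : (N0 : ℝ) ≤ N ^ (1 - θ')) (_ : ∀ a ∈ Pr, 3 ≤ nm a ∧ nm a ≤ N0)
    (u : ℝ) (_ : 0 ≤ u),
    ∑ p ∈ PP φ Pr, Gw u (nm p.1) * Gw u (nm p.2) ≤
      C * (1 + Real.log N) ^ 2 * Real.exp (-(tau θ θ' * u)) := by
  classical
  obtain ⟨C1, hC1, hsum⟩ := exp_abs_sum
  refine ⟨(68 * C0) * 16 * Real.exp 1 * Real.exp 7 * C1, by positivity, ?_⟩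
  intro M G _ _ nm φ cop Pr V N hs hV N0 hN0 hPr u hu
  set τ := tau θ θ' with hτ
  have hτ0 : 0 < τ := tau_pos h0 h1 h2
  have hτ1 : τ ≤ 1 := tau_le h0 h1
  have hN1 : (1 : ℝ) ≤ N := hs.hN
  set L := Real.log N with hL
  have hL0 : 0 ≤ L := Real.log_nonneg hN1
  have hPr1 : ∀ a ∈ Pr, 1 ≤ nm a := fun a ha => by have := (hPr a ha).1; omega
  obtain ⟨K, hK⟩ := off_le_bins nm φ Pr hPr1 u
  refine hK.trans ?_
  have hterm : ∀ k ∈ Finset.range K, (Fk nm φ Pr k : ℝ) * Wk u k ≤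
      (68 * C0) * 16 * Real.exp 1 * Real.exp 7 * ((1 + L) ^ 2 * Real.exp (-(τ * u))) *
        Real.exp (-|(k : ℝ) - u| / 8) := by
    intro k _
    rcases Fk_le (φ := φ) N0 (fun a ha => (hPr a ha).2) hPr1 k with h3 | h3
    · rw [h3, Nat.cast_zero, zero_mul]
      positivity
    · by_cases hF0 : Fk nm φ Pr k = 0
      · rw [hF0, Nat.cast_zero, zero_mul]
        positivity
      obtain ⟨A, hA1, hA2, hA4, hA3⟩ := h3
      -- `k ≥ 1`
      have hk1 : 1 ≤ k := by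
        unfold Fk at hF0
        obtain ⟨p0, hp0⟩ := Finset.card_ne_zero.1 hF0
        rw [Finset.mem_filter, mem_PP] at hp0
        obtain ⟨⟨a1, a2, a3, a4⟩, hb⟩ := hp0
        rw [← hb]
        unfold bin
        apply Nat.le_floor
        rw [Nat.cast_one, Real.le_log_iff_exp_le]
        · have h5 : 3 ≤ max (nm p0.1) (nm p0.2) := ((hPr _ a1).1).trans (le_max_left _ _)
          have h6 : (3 : ℝ) ≤ ((max (nm p0.1) (nm p0.2) : ℕ) : ℝ) := by exact_mod_cast h5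
          have := Real.exp_one_lt_d9
          linarith
        · have h5 : 3 ≤ max (nm p0.1) (nm p0.2) := ((hPr _ a1).1).trans (le_max_left _ _)
          have h6 : (3 : ℝ) ≤ ((max (nm p0.1) (nm p0.2) : ℕ) : ℝ) := by exact_mod_cast h5
          linarith
      have hk1' : (1 : ℝ) ≤ k := by exact_mod_cast hk1
      have hA5 : (2 : ℝ) < A := by
        refine lt_of_lt_of_le ?_ hA2
        have h5 : Real.exp 1 ≤ Real.exp k := Real.exp_le_exp.2 hk1'
        have := Real.exp_one_gt_d9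
        linarith
      have hA6 : 2 ≤ A := by
        have : (2 : ℝ) ≤ A := hA5.le
        exact_mod_cast this
      have hA0 : (0 : ℝ) < A := by linarith
      have hAN : (A : ℝ) ≤ N ^ (1 - θ') := by
        refine le_trans ?_ hN0
        exact_mod_cast hA4
      have h5 := PP_bound θ θ' h0 h1 h2 (hs.mono (Finset.filter_subset (fun a => nm a ≤ A) Pr))
        hV A hA6 hAN (fun a ha => (Finset.mem_filter.1 ha).2)
      have hlA : (k : ℝ) ≤ Real.log A := by
        rw [Real.le_log_iff_exp_le hA0]; exact hA2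
      have hkL : (k : ℝ) ≤ L := by
        refine hlA.trans ?_
        rw [hL]
        apply Real.log_le_log hA0
        refine hAN.trans ?_
        calc N ^ (1 - θ') ≤ N ^ (1 : ℝ) :=
              Real.rpow_le_rpow_of_exponent_le hN1 (by linarith)
          _ = _ := Real.rpow_one _
      have h6 : (Fk nm φ Pr k : ℝ) ≤ (68 * C0) * (1 + L / k) ^ 2 * Real.exp ((1 - τ) * (k + 1)) := by
        have h7 : (Fk nm φ Pr k : ℝ) ≤ ((PP φ (Pr.filter (fun a => nm a ≤ A))).card : ℝ) := by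
          exact_mod_cast hA3
        refine (h7.trans h5).trans ?_
        have h8 : L / Real.log A ≤ L / k := div_le_div_of_nonneg_left hL0 (by linarith) hlA
        have h9 : 0 ≤ L / Real.log A := div_nonneg hL0 (by linarith)
        have h10 : (A : ℝ) ^ (1 - τ) ≤ Real.exp ((1 - τ) * (k + 1)) := by
          rw [mul_comm, Real.exp_mul]
          exact Real.rpow_le_rpow hA0.le hA1 (by linarith)
        gcongr
      have h8 := mul_le_mul_of_nonneg_right h6 (Wk_nonneg u k)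
      refine h8.trans ?_
      unfold Wk
      have h9 : Real.exp ((1 - τ) * (k + 1)) * (Real.exp (-u) * Real.exp (-(u - k) ^ 2 / 16)) ≤
          Real.exp 7 * Real.exp (-(τ * u)) * Real.exp (-|(k : ℝ) - u| / 8) := by
        rw [← Real.exp_add, ← Real.exp_add, ← Real.exp_add, ← Real.exp_add]
        apply Real.exp_le_exp.2
        set y := (k : ℝ) - u with hy
        have e1 : (1 - τ) * ((k : ℝ) + 1) - u = -(τ * u) + (1 - τ) * y + (1 - τ) := by
          rw [hy]; ring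
        have e2 : (1 - τ) * y ≤ |y| := by
          have e3 : y ≤ |y| := le_abs_self y
          have e4 : 0 ≤ |y| := abs_nonneg y
          nlinarith
        have e5 : (u - k) ^ 2 = |y| ^ 2 := by
          rw [sq_abs, hy]; ring
        rw [e5]
        nlinarith [sq_nonneg (|y| - 9)]
      have h10 : (1 + L / k) * ((k : ℝ) + 1) ≤ 4 * (1 + L) := by
        have e1 : (k : ℝ) + 1 ≤ 2 * k := by linarith
        have e2 : (1 + L / k) * ((k : ℝ) + 1) ≤ (1 + L / k) * (2 * k) :=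
          mul_le_mul_of_nonneg_left e1 (by positivity)
        have e3 : (1 + L / k) * (2 * (k : ℝ)) = 2 * k + 2 * L := by
          field_simp
        linarith
      have h11 : ((1 + L / k) * ((k : ℝ) + 1)) ^ 2 ≤ (4 * (1 + L)) ^ 2 :=
        pow_le_pow_left₀ (by positivity) h10 2
      calc (68 * C0) * (1 + L / k) ^ 2 * Real.exp ((1 - τ) * (k + 1)) * (Real.exp 1 *
          ((k : ℝ) + 1) ^ 2 * (Real.exp (-u) * Real.exp (-(u - k) ^ 2 / 16))) =
          (68 * C0) * Real.exp 1 * ((1 + L / k) * ((k : ℝ) + 1)) ^ 2 *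
          (Real.exp ((1 - τ) * (k + 1)) * (Real.exp (-u) * Real.exp (-(u - k) ^ 2 / 16))) := by
            ring
        _ ≤ (68 * C0) * Real.exp 1 * (4 * (1 + L)) ^ 2 *
          (Real.exp 7 * Real.exp (-(τ * u)) * Real.exp (-|(k : ℝ) - u| / 8)) := by gcongr
        _ = _ := by ring
  refine (Finset.sum_le_sum hterm).trans ?_
  rw [← Finset.mul_sum]
  have h3 := mul_le_mul_of_nonneg_left (hsum u hu K) (show 0 ≤ (68 * C0) * 16 * Real.exp 1 * Real.exp 7 *
    ((1 + L) ^ 2 * Real.exp (-(τ * u))) by positivity)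
  refine h3.trans (le_of_eq ?_)
  ring

/-- the off-diagonal sum -/
theorem off_bound (C0 : ℝ) (hC0 : 1 ≤ C0) (θ θ' : ℝ) (h0 : 0 < θ) (h1 : θ < θ')
    (h2 : θ' ≤ 1 / 3) : ∃ c : ℝ, 0 < c ∧
    ∀ ε : ℝ, 0 < ε → ∃ C : ℝ, 0 < C ∧
    ∀ {M G : Type} [CommMonoid M] [CommGroup G] {nm : M →* ℕ} {φ : M →* G} {cop : M → M → Prop}
    {Pr : Finset M} {V N : ℝ} (_ : Sys nm φ cop Pr C0 V N) (_ : V ≤ N ^ θ) (N0 : ℕ)
    (_ : (N0 : ℝ) ≤ N ^ (1 - θ')) (_ : ∀ a ∈ Pr, 3 ≤ nm a ∧ nm a ≤ N0)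
    (u : ℝ) (_ : 0 ≤ u),
    ∑ p ∈ PP φ Pr, Gw u (nm p.1) * Gw u (nm p.2) ≤
      C + ε * (1 + Real.log N) ^ 2 * Real.exp (-(c * u)) := by
  obtain ⟨C1, hC1, hl⟩ := off_large C0 hC0 θ θ' h0 h1 h2
  have hτ0 : 0 < tau θ θ' := tau_pos h0 h1 h2
  set τ := tau θ θ' with hτ
  refine ⟨τ / 2, by positivity, fun ε hε => ?_⟩
  -- choose `M0`
  obtain ⟨M0, hM0⟩ : ∃ M0 : ℝ, C1 * Real.exp (-(τ / 2 * M0)) ≤ ε := by
    refine ⟨2 / τ * |Real.log (ε / C1)|, ?_⟩
    have e1 : τ / 2 * (2 / τ * |Real.log (ε / C1)|) = |Real.log (ε / C1)| := by field_simp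
    rw [e1]
    have e2 : Real.exp (-|Real.log (ε / C1)|) ≤ ε / C1 := by
      calc Real.exp (-|Real.log (ε / C1)|) ≤ Real.exp (Real.log (ε / C1)) := by
            apply Real.exp_le_exp.2
            have := neg_abs_le (Real.log (ε / C1))
            exact this
        _ = ε / C1 := Real.exp_log (by positivity)
    calc C1 * Real.exp (-|Real.log (ε / C1)|) ≤ C1 * (ε / C1) :=
          mul_le_mul_of_nonneg_left e2 hC1.le
      _ = ε := by field_simp
  obtain ⟨C2, hC2, hsm⟩ := off_small C0 M0 hC0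
  refine ⟨C2, hC2, ?_⟩
  intro M G _ _ nm φ cop Pr V N hs hV N0 hN0 hPr u hu
  have hN1 : (1 : ℝ) ≤ N := hs.hN
  have hsq : 0 ≤ (1 + Real.log N) ^ 2 := sq_nonneg _
  by_cases hu' : u ≤ M0
  · have h3 := hsm hs u hu hu'
    have : 0 ≤ ε * (1 + Real.log N) ^ 2 * Real.exp (-(τ / 2 * u)) := by positivity
    linarith
  · rw [not_le] at hu'
    have h3 := hl hs hV N0 hN0 hPr u hu
    refine h3.trans ?_
    have e1 : Real.exp (-(τ * u)) = Real.exp (-(τ / 2 * u)) * Real.exp (-(τ / 2 * u)) := by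
      rw [← Real.exp_add]
      congr 1
      ring
    have e2 : Real.exp (-(τ / 2 * u)) ≤ Real.exp (-(τ / 2 * M0)) := by
      apply Real.exp_le_exp.2
      nlinarith
    have e3 : C1 * Real.exp (-(τ / 2 * u)) ≤ ε :=
      (mul_le_mul_of_nonneg_left e2 hC1.le).trans hM0
    calc C1 * (1 + Real.log N) ^ 2 * Real.exp (-(τ * u)) =
        (C1 * Real.exp (-(τ / 2 * u))) * ((1 + Real.log N) ^ 2 *
          Real.exp (-(τ / 2 * u))) := by rw [e1]; ring
      _ ≤ ε * ((1 + Real.log N) ^ 2 * Real.exp (-(τ / 2 * u))) :=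
          mul_le_mul_of_nonneg_right e3 (by positivity)
      _ ≤ _ := by
          have : ε * ((1 + Real.log N) ^ 2 * Real.exp (-(τ / 2 * u))) =
              ε * (1 + Real.log N) ^ 2 * Real.exp (-(τ / 2 * u)) := by ring
          linarith

end Pool.Agent.Y773.AB
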