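import Pool.Agent.Y773.AB.Off
import Pool.Agent.H385R2.NTW2

/-!
The contribution of the proper prime powers (copy of `Pool.Agent.Y693.AB.PPow`, helper693).
-/

set_option autoImplicit false


namespace Pool.Agent.Y773.AB

/-- the convergent majorant -/
noncomputable def gpk (x : ℕ × ℕ) : ℝ :=
  (4 * (1 / (x.1 : ℝ) ^ (5 / 4 : ℝ))) * (1 / Real.sqrt 2) ^ x.2

theorem gpk_nonneg (x : ℕ × ℕ) : 0 ≤ gpk x := by
  unfold gpk
  positivity

theorem gpk_summable : Summable gpk := by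
  have h1 : Summable (fun n : ℕ => 4 * (1 / (n : ℝ) ^ (5 / 4 : ℝ))) :=
    (Real.summable_one_div_nat_rpow.2 (by norm_num)).mul_left 4
  have hs : 1 < Real.sqrt 2 := by
    rw [Real.lt_sqrt (by norm_num)]
    norm_num
  have h2 : Summable (fun k : ℕ => (1 / Real.sqrt 2) ^ k) := by
    apply summable_geometric_of_lt_one (by positivity)
    rw [div_lt_one (by linarith)]
    exact hs
  exact h1.mul_of_nonneg h2 (fun n => by positivity) (fun k => by positivity)

theorem pk_le (p k : ℕ) (hp : 2 ≤ p) :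
    Real.log p / Real.sqrt ((p ^ (k + 3) : ℕ) : ℝ) ≤ gpk (p, k) := by
  have hp0 : (0 : ℝ) < p := by
    have : 0 < p := by omega
    exact_mod_cast this
  have hp2 : (2 : ℝ) ≤ p := by exact_mod_cast hp
  set s := Real.sqrt p with hs
  have hs0 : 0 < s := Real.sqrt_pos.2 hp0
  have h1 : Real.sqrt ((p ^ (k + 3) : ℕ) : ℝ) = s ^ k * s ^ 3 := by
    rw [← pow_add]
    push_cast
    rw [Real.sqrt_eq_iff_mul_self_eq (by positivity) (by positivity), ← mul_pow, hs,
      Real.mul_self_sqrt hp0.le]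
  have h2 : Real.log p ≤ 4 * (p : ℝ) ^ (1 / 4 : ℝ) := by
    have := Real.log_le_rpow_div hp0.le (show (0 : ℝ) < 1 / 4 by norm_num)
    calc _ ≤ (p : ℝ) ^ (1 / 4 : ℝ) / (1 / 4) := this
      _ = _ := by ring
  have h3 : s ^ 3 = (p : ℝ) ^ (3 / 2 : ℝ) := by
    rw [hs, Real.sqrt_eq_rpow, ← Real.rpow_natCast, ← Real.rpow_mul hp0.le]
    norm_num
  have h4 : (p : ℝ) ^ (1 / 4 : ℝ) / (p : ℝ) ^ (3 / 2 : ℝ) = 1 / (p : ℝ) ^ (5 / 4 : ℝ) := by
    rw [div_eq_div_iff (by positivity) (by positivity), one_mul, ← Real.rpow_add hp0]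
    norm_num
  have h5 : Real.sqrt 2 ≤ s := Real.sqrt_le_sqrt hp2
  have h6 : Real.sqrt 2 ^ k ≤ s ^ k := pow_le_pow_left₀ (Real.sqrt_nonneg _) h5 k
  rw [h1]
  unfold gpk
  simp only
  calc Real.log p / (s ^ k * s ^ 3) ≤ 4 * (p : ℝ) ^ (1 / 4 : ℝ) / (Real.sqrt 2 ^ k * s ^ 3) := by
        gcongr
    _ = (4 * ((p : ℝ) ^ (1 / 4 : ℝ) / s ^ 3)) * (1 / Real.sqrt 2) ^ k := by
        rw [one_div_pow]
        field_simp
    _ = _ := by rw [h3, h4]

/-- the contribution of the proper prime powers is bounded -/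
theorem pp_bound : ∃ C : ℝ, 0 < C ∧ ∀ (u : ℝ) (N : ℕ),
    ∑ n ∈ (Finset.Icc 1 N).filter (fun n => ¬ n.Prime), Gw u n ≤ C := by
  classical
  obtain ⟨C1, hC1, h1⟩ := H385.lam_one_gen 1 one_pos
  refine ⟨C1 + ∑' x, gpk x + 1, ?_, ?_⟩
  · have : 0 ≤ ∑' x, gpk x := tsum_nonneg gpk_nonneg
    linarith
  intro u N
  set S := ((Finset.Icc 1 N).filter (fun n => ¬ n.Prime)).filter
    (fun n => ArithmeticFunction.vonMangoldt n ≠ 0) with hS
  have e1 : ∑ n ∈ (Finset.Icc 1 N).filter (fun n => ¬ n.Prime), Gw u n = ∑ n ∈ S, Gw u n := by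
    symm
    apply Finset.sum_filter_of_ne
    intro n _ hn h0
    apply hn
    unfold Gw
    rw [h0, zero_div, zero_mul]
  have hSm : ∀ n ∈ S, ∃ p k : ℕ, p.Prime ∧ 2 ≤ k ∧ p ^ k = n := by
    intro n hn
    rw [hS, Finset.mem_filter, Finset.mem_filter] at hn
    obtain ⟨⟨-, h3⟩, h4⟩ := hn
    rw [ArithmeticFunction.vonMangoldt_ne_zero_iff, isPrimePow_nat_iff] at h4
    obtain ⟨p, k, hp, hk, rfl⟩ := h4
    refine ⟨p, k, hp, ?_, rfl⟩
    by_contra hcon
    have : k = 1 := by omega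
    rw [this, pow_one] at h3
    exact h3 hp
  rw [e1, ← Finset.sum_filter_add_sum_filter_not S (fun n => IsSquare n)]
  have hA : ∑ n ∈ S.filter (fun n => IsSquare n), Gw u n ≤ C1 := by
    have h2 : ∀ n ∈ S.filter (fun n => IsSquare n), Gw u n =
        ArithmeticFunction.vonMangoldt (Nat.sqrt n) / (Nat.sqrt n : ℕ) *
          Real.exp (-1 * (u / 2 - Real.log (Nat.sqrt n : ℕ)) ^ 2) := by
      intro n hn
      rw [Finset.mem_filter] at hn
      obtain ⟨hn, m, rfl⟩ := hn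
      rw [hS, Finset.mem_filter, Finset.mem_filter, Finset.mem_Icc] at hn
      have hm : m ≠ 0 := by
        rintro rfl
        omega
      have hm0 : (0 : ℝ) < m := by
        have : 0 < m := by omega
        exact_mod_cast this
      rw [Nat.sqrt_eq]
      unfold Gw
      have e2 : ArithmeticFunction.vonMangoldt (m * m) = ArithmeticFunction.vonMangoldt m := by
        rw [← pow_two]
        exact ArithmeticFunction.vonMangoldt_apply_pow two_ne_zero
      rw [e2]
      push_cast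
      rw [Real.sqrt_mul_self hm0.le, Real.log_mul hm0.ne' hm0.ne']
      congr 2
      ring
    rw [Finset.sum_congr rfl h2, ← Finset.sum_image (s := S.filter (fun n => IsSquare n))
      (g := Nat.sqrt) (f := fun m => ArithmeticFunction.vonMangoldt m / (m : ℕ) *
          Real.exp (-1 * (u / 2 - Real.log (m : ℕ)) ^ 2))]
    · refine le_trans ?_ (h1 (u / 2)).2
      refine (h1 (u / 2)).1.sum_le_tsum _ (fun n _ => ?_)
      exact mul_nonneg (div_nonneg ArithmeticFunction.vonMangoldt_nonneg (Nat.cast_nonneg _))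
        (Real.exp_pos _).le
    · intro a ha b hb hab
      rw [Finset.mem_coe, Finset.mem_filter] at ha hb
      obtain ⟨-, x, rfl⟩ := ha
      obtain ⟨-, y, rfl⟩ := hb
      simp only [Nat.sqrt_eq] at hab
      rw [hab]
  have hB : ∑ n ∈ S.filter (fun n => ¬ IsSquare n), Gw u n ≤ ∑' x, gpk x := by
    have h2 : ∀ n ∈ S.filter (fun n => ¬ IsSquare n), ∃ x : ℕ × ℕ, Gw u n ≤ gpk x ∧
        n = x.1 ^ (x.2 + 3) ∧ x.1.Prime := by
      intro n hn
      rw [Finset.mem_filter] at hn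
      obtain ⟨hn, hsq⟩ := hn
      obtain ⟨p, k, hp, hk, rfl⟩ := hSm n hn
      have hk3 : 3 ≤ k := by
        by_contra hcon
        have : k = 2 := by omega
        rw [this] at hsq
        exact hsq ⟨p, by ring⟩
      obtain ⟨j, rfl⟩ : ∃ j, k = j + 3 := ⟨k - 3, by omega⟩
      refine ⟨(p, j), ?_, rfl, hp⟩
      refine le_trans ?_ (pk_le p j hp.two_le)
      unfold Gw
      rw [ArithmeticFunction.vonMangoldt_apply_pow (by omega),
        ArithmeticFunction.vonMangoldt_apply_prime hp]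
      have h3 : Real.exp (-(u - Real.log ((p ^ (j + 3) : ℕ) : ℝ)) ^ 2 / 4) ≤ 1 := by
        rw [Real.exp_le_one_iff]
        have := sq_nonneg (u - Real.log ((p ^ (j + 3) : ℕ) : ℝ))
        linarith
      have h4 : 0 ≤ Real.log p / Real.sqrt ((p ^ (j + 3) : ℕ) : ℝ) :=
        div_nonneg (Real.log_natCast_nonneg p) (Real.sqrt_nonneg _)
      calc _ ≤ Real.log p / Real.sqrt ((p ^ (j + 3) : ℕ) : ℝ) * 1 :=
            mul_le_mul_of_nonneg_left h3 h4
        _ = _ := mul_one _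
    choose! x hx using h2
    have h3 : ∑ n ∈ S.filter (fun n => ¬ IsSquare n), Gw u n ≤
        ∑ n ∈ S.filter (fun n => ¬ IsSquare n), gpk (x n) :=
      Finset.sum_le_sum fun n hn => (hx n hn).1
    refine h3.trans ?_
    rw [← Finset.sum_image (s := S.filter (fun n => ¬ IsSquare n)) (g := x) (f := gpk)]
    · exact gpk_summable.sum_le_tsum _ (fun y _ => gpk_nonneg y)
    · intro a ha b hb hab
      rw [(hx a ha).2.1, (hx b hb).2.1, hab]
  linarith

end Pool.Agent.Y773.AB
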