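import Pool.Agent.W164.RC.Split
import Pool.Agent.Y773.AB.Chr

/-!
# The Euler factors of an abelian extension with a given Artin map
-/

set_option autoImplicit false
set_option linter.unusedSectionVars false

open NumberField Complex Filter Topology Set

namespace Pool.Agent.Y773.AB

open Pool.Agent.Y773 (LI zz hasSum_log norm_zz_lt)
open Pool.Agent.Y767 (Mq Mq_cop Mq_ne_bot)
open Pool.Agent.Y773.IQ (T1 pi1 ofM' ofM'_pos)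

section abs

variable {K E : Type} [Field K] [NumberField K] [Field E] [NumberField E] [Algebra K E]

/-- `P` lies above `𝔭` -/
def Ab (𝔭 : Ideal (𝓞 K)) (P : Ideal (𝓞 E)) : Prop :=
  P.IsPrime ∧ ∀ x ∈ 𝔭, algebraMap (𝓞 K) (𝓞 E) x ∈ P

lemma comap_of_ab {𝔭 : Ideal (𝓞 K)} (h𝔭 : Prime 𝔭) {P : Ideal (𝓞 E)} (h : Ab 𝔭 P) :
    P.comap (algebraMap (𝓞 K) (𝓞 E)) = 𝔭 := by
  have h1 : 𝔭.IsMaximal := (Ideal.isPrime_of_prime h𝔭).isMaximal h𝔭.ne_zero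
  have h2 : 𝔭 ≤ P.comap (algebraMap (𝓞 K) (𝓞 E)) := fun x hx => h.2 x hx
  have h3 : P.comap (algebraMap (𝓞 K) (𝓞 E)) ≠ ⊤ := by
    have := h.1
    exact (Ideal.comap_isPrime (algebraMap (𝓞 K) (𝓞 E)) P).ne_top
  exact (h1.eq_of_le h3 h2).symm

/-- unramified, with Frobenius element `σ` -/
def FrobAt (𝔭 : Ideal (𝓞 K)) (σ : E ≃ₐ[K] E) : Prop :=
  ∀ P : Ideal (𝓞 E), Ab 𝔭 P →
    (∀ g : E ≃ₐ[K] E, (∀ x : 𝓞 E, g • x - x ∈ P) → g = 1) ∧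
      ∀ x : 𝓞 E, σ • x - x ^ Ideal.absNorm 𝔭 ∈ P

lemma ne_bot_of_ab {𝔭 : Ideal (𝓞 K)} (h𝔭 : Prime 𝔭) {P : Ideal (𝓞 E)} (h : Ab 𝔭 P) : P ≠ ⊥ := by
  rintro rfl
  have h1 := comap_of_ab h𝔭 h
  have h2 : (⊥ : Ideal (𝓞 E)).comap (algebraMap (𝓞 K) (𝓞 E)) = ⊥ := by
    rw [eq_bot_iff]
    intro x hx
    rw [Ideal.mem_comap, Ideal.mem_bot] at hx
    rw [Ideal.mem_bot]
    exact (FaithfulSMul.algebraMap_injective (𝓞 K) (𝓞 E)) (hx.trans (map_zero _).symm)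
  rw [h2] at h1
  exact h𝔭.ne_zero h1.symm

lemma card_quot (𝔭 : Ideal (𝓞 K)) : Nat.card (𝓞 K ⧸ 𝔭) = Ideal.absNorm 𝔭 := by
  rw [Ideal.absNorm_apply, Submodule.cardQuot_apply]

lemma finite_quot {𝔭 : Ideal (𝓞 K)} (h : 𝔭 ≠ ⊥) : Finite (𝓞 K ⧸ 𝔭) := by
  refine Nat.finite_of_card_ne_zero ?_
  rw [card_quot]
  exact fun h0 => h (Ideal.absNorm_eq_zero_iff.mp h0)

theorem split_prime [IsGalois K E] {𝔭 : Ideal (𝓞 K)} (h𝔭 : Prime 𝔭) {σ : E ≃ₐ[K] E}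
    (hσ : FrobAt 𝔭 σ) {P : Ideal (𝓞 E)} (hP : Ab 𝔭 P) :
    Ideal.absNorm P = Ideal.absNorm 𝔭 ^ orderOf σ ∧
      (𝔭.primesOver (𝓞 E)).ncard * orderOf σ = Nat.card (E ≃ₐ[K] E) := by
  have h1 : 𝔭.IsMaximal := (Ideal.isPrime_of_prime h𝔭).isMaximal h𝔭.ne_zero
  have hPb := ne_bot_of_ab h𝔭 hP
  have h2 : P.IsMaximal := hP.1.isMaximal hPb
  have h3 : P.LiesOver 𝔭 := ⟨(comap_of_ab h𝔭 hP).symm⟩
  have h4 : Finite (𝓞 K ⧸ 𝔭) := finite_quot h𝔭.ne_zero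
  have h5 : Finite (𝓞 E ⧸ P) := finite_quot hPb
  have h6 := Pool.Agent.W164.RC.split_abs (E ≃ₐ[K] E) 𝔭 P (hσ P hP).1 σ (by
    rw [card_quot]
    exact (hσ P hP).2)
  rw [card_quot, card_quot] at h6
  exact h6

lemma mem_primesOver {𝔭 : Ideal (𝓞 K)} (h𝔭 : Prime 𝔭) (P : Ideal (𝓞 E)) :
    P ∈ 𝔭.primesOver (𝓞 E) ↔ Ab 𝔭 P := by
  constructor
  · rintro ⟨h1, h2⟩
    refine ⟨h1, fun x hx => ?_⟩
    have h3 : 𝔭 = P.comap (algebraMap (𝓞 K) (𝓞 E)) := h2.over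
    rw [h3] at hx
    exact hx
  · intro h
    exact ⟨h.1, ⟨(comap_of_ab h𝔭 h).symm⟩⟩

lemma exists_ab {𝔭 : Ideal (𝓞 K)} (h𝔭 : Prime 𝔭) : ∃ P : Ideal (𝓞 E), Ab 𝔭 P := by
  have h1 : 𝔭.IsMaximal := (Ideal.isPrime_of_prime h𝔭).isMaximal h𝔭.ne_zero
  obtain ⟨Q, hQ, hQ2⟩ := Ideal.exists_maximal_ideal_liesOver_of_isIntegral (S := 𝓞 E) 𝔭
  exact ⟨Q, (mem_primesOver h𝔭 Q).mp ⟨hQ.isPrime, hQ2⟩⟩

/-- the prime below -/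
def und (P : {P : Ideal (𝓞 E) // Prime P}) : {𝔭 : Ideal (𝓞 K) // Prime 𝔭} :=
  ⟨(P : Ideal (𝓞 E)).comap (algebraMap (𝓞 K) (𝓞 E)), by
    have h1 : (P : Ideal (𝓞 E)).IsPrime := Ideal.isPrime_of_prime P.2
    refine Ideal.prime_of_isPrime (fun h => P.2.ne_zero (Ideal.eq_bot_of_comap_eq_bot h)) ?_
    exact Ideal.comap_isPrime _ _⟩

lemma und_ab (P : {P : Ideal (𝓞 E) // Prime P}) : Ab (und (K := K) P : Ideal (𝓞 K)) (P : Ideal (𝓞 E)) :=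
  ⟨Ideal.isPrime_of_prime P.2, fun _ hx => hx⟩

lemma und_eq (𝔭 : {𝔭 : Ideal (𝓞 K) // Prime 𝔭}) (P : {P : Ideal (𝓞 E) // Prime P}) :
    und P = 𝔭 ↔ Ab (𝔭 : Ideal (𝓞 K)) (P : Ideal (𝓞 E)) := by
  constructor
  · rintro rfl
    exact und_ab P
  · intro h
    exact Subtype.ext (comap_of_ab 𝔭.2 h)

/-- the number of primes above -/
lemma card_fiber (𝔭 : {𝔭 : Ideal (𝓞 K) // Prime 𝔭}) :
    Nat.card ↑(und (E := E) ⁻¹' {𝔭}) = ((𝔭 : Ideal (𝓞 K)).primesOver (𝓞 E)).ncard := by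
  rw [← Nat.card_coe_set_eq]
  refine Nat.card_congr ⟨fun P => ⟨P.1.1, (mem_primesOver 𝔭.2 _).mpr ((und_eq _ _).mp P.2)⟩,
    fun P => ⟨⟨P.1, Ideal.prime_of_isPrime
      (ne_bot_of_ab 𝔭.2 ((mem_primesOver 𝔭.2 _).mp P.2)) P.2.1⟩, ?_⟩, fun P => rfl, fun P => rfl⟩
  exact (und_eq _ _).mpr ((mem_primesOver 𝔭.2 _).mp P.2)

lemma cop_map {𝔫 : Ideal (𝓞 K)} {𝔭 : Ideal (𝓞 K)} (h𝔭 : Prime 𝔭) {P : Ideal (𝓞 E)}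
    (hP : Ab 𝔭 P) : IsCoprime P (𝔫.map (algebraMap (𝓞 K) (𝓞 E))) ↔ IsCoprime 𝔭 𝔫 := by
  have hPp : Prime P := Ideal.prime_of_isPrime (ne_bot_of_ab h𝔭 hP) hP.1
  rw [cop_iff hPp, cop_iff h𝔭, Ideal.dvd_iff_le, Ideal.dvd_iff_le, Ideal.map_le_iff_le_comap,
    comap_of_ab h𝔭 hP]

lemma map_ne_top {𝔫 : Ideal (𝓞 K)} (h : 𝔫 ≠ ⊤) (h0 : 𝔫 ≠ ⊥) :
    𝔫.map (algebraMap (𝓞 K) (𝓞 E)) ≠ ⊤ := by
  obtain ⟨𝔭, h𝔭, hle⟩ := Ideal.exists_le_maximal _ h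
  have h1 : 𝔭 ≠ ⊥ := by
    rintro rfl
    exact h0 (le_bot_iff.mp hle)
  have hp : Prime 𝔭 := Ideal.prime_of_isPrime h1 h𝔭.isPrime
  obtain ⟨P, hP⟩ := exists_ab (E := E) hp
  intro h2
  have h3 : 𝔫.map (algebraMap (𝓞 K) (𝓞 E)) ≤ P := by
    rw [Ideal.map_le_iff_le_comap, comap_of_ab hp hP]
    exact hle
  rw [h2] at h3
  exact hP.1.ne_top (top_le_iff.mp h3)

lemma map_ne_bot' {𝔫 : Ideal (𝓞 K)} (h0 : 𝔫 ≠ ⊥) :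
    𝔫.map (algebraMap (𝓞 K) (𝓞 E)) ≠ ⊥ := by
  intro h
  obtain ⟨x, hx, hx0⟩ := Submodule.exists_mem_ne_zero_of_ne_bot h0
  have h1 : algebraMap (𝓞 K) (𝓞 E) x ∈ 𝔫.map (algebraMap (𝓞 K) (𝓞 E)) :=
    Ideal.mem_map_of_mem _ hx
  rw [h, Ideal.mem_bot] at h1
  exact hx0 ((FaithfulSMul.algebraMap_injective (𝓞 K) (𝓞 E)) (h1.trans (map_zero _).symm))

end abs

section glob

variable {K E : Type} [Field K] [NumberField K] [Field E] [NumberField E] [Algebra K E]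

/-- the trivial character of the ideals prime to `𝔪` -/
noncomputable def eta (𝔪 : Ideal (𝓞 E)) (h : 𝔪 ≠ ⊤) : Ideal (𝓞 E) →*₀ ℂ := res 𝔪 h (psiC 1)

lemma eta_cop {𝔪 : Ideal (𝓞 E)} (h : 𝔪 ≠ ⊤) {P : Ideal (𝓞 E)} (hP : Prime P)
    (hc : IsCoprime P 𝔪) : eta 𝔪 h P = 1 := by
  unfold eta
  rw [res_cop h _ hc, psiC_apply 1 hP.ne_zero]
  rfl

lemma eta_not {𝔪 : Ideal (𝓞 E)} (h : 𝔪 ≠ ⊤) {P : Ideal (𝓞 E)}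
    (hc : ¬ IsCoprime P 𝔪) : eta 𝔪 h P = 0 := res_not h _ hc

lemma eta_norm {𝔪 : Ideal (𝓞 E)} (h : 𝔪 ≠ ⊤) (𝔞 : Ideal (𝓞 E)) : ‖eta 𝔪 h 𝔞‖ ≤ 1 :=
  norm_res_le h (psiC_norm 1) 𝔞

lemma pow_cpow (N f : ℕ) (s : ℂ) : (((N ^ f : ℕ) : ℂ)) ^ s = ((N : ℂ) ^ s) ^ f := by
  induction f with
  | zero => simp
  | succ f ih =>
    rw [pow_succ, Nat.cast_mul, Complex.natCast_mul_natCast_cpow, ih, pow_succ]

variable {𝔮 𝔫 : Ideal (𝓞 K)} {Γ : Type} [CommGroup Γ] [Finite Γ]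

/-- the local identity -/
theorem local_eq [IsGalois K E] [Fintype (Γ →* ℂˣ)] (hbot : 𝔮 ≠ ⊥) (htop : 𝔮 ≠ ⊤)
    (hnb : 𝔫 ≠ ⊥) (hn : 𝔫 ≠ ⊤)
    (hr : Rad 𝔮 𝔫) (art : Mq 𝔮 →* Γ) (φ : Γ ≃* (E ≃ₐ[K] E))
    (hfr : ∀ (𝔭 : Ideal (𝓞 K)) (hc : IsCoprime 𝔭 𝔮), Prime 𝔭 → FrobAt 𝔭 (φ (art ⟨𝔭, hc⟩)))
    {s : ℂ} (hs : 1 < s.re) (𝔭 : {𝔭 : Ideal (𝓞 K) // Prime 𝔭}) :
    ∑' P : ↑(und (E := E) ⁻¹' {𝔭}),
      -Complex.log (1 - zz (eta (𝔫.map (algebraMap (𝓞 K) (𝓞 E))) (map_ne_top hn hnb)) s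
        (P : {P : Ideal (𝓞 E) // Prime P})) =
      ∑ χ : Γ →* ℂˣ, -Complex.log (1 - zz (etc htop hn art χ) s 𝔭) := by
  have hx : ‖((Ideal.absNorm (𝔭 : Ideal (𝓞 K)) : ℕ) : ℂ) ^ (-s)‖ < 1 := by
    have h1 := fac_ne (ψ := psiC (K := K) 1) (psiC_norm 1) 𝔭.2 (s := s) (by linarith)
    rw [psiC_apply 1 𝔭.2.ne_zero, MonoidHom.one_apply, Units.val_one, one_mul] at h1
    exact h1
  by_cases hc : IsCoprime (𝔭 : Ideal (𝓞 K)) 𝔫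
  · have hcq := cop_of_rad hbot hr hc
    have hF := hfr 𝔭 hcq 𝔭.2
    have h1 : ∀ P : ↑(und (E := E) ⁻¹' {𝔭}),
        -Complex.log (1 - zz (eta (𝔫.map (algebraMap (𝓞 K) (𝓞 E))) (map_ne_top hn hnb)) s
        (P : {P : Ideal (𝓞 E) // Prime P})) = -Complex.log (1 -
          (((Ideal.absNorm (𝔭 : Ideal (𝓞 K)) : ℕ) : ℂ) ^ (-s)) ^ orderOf (art ⟨𝔭, hcq⟩)) := by
      intro P
      have hab := (und_eq _ _).mp P.2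
      unfold zz
      rw [eta_cop _ P.1.2 ((cop_map 𝔭.2 hab).mpr hc), one_mul, (split_prime 𝔭.2 hF hab).1,
        pow_cpow, MulEquiv.orderOf_eq]
    rw [tsum_congr h1, tsum_const, card_fiber, nsmul_eq_mul]
    obtain ⟨P, hP⟩ := exists_ab (E := E) 𝔭.2
    have h2 := (split_prime 𝔭.2 hF hP).2
    rw [MulEquiv.orderOf_eq, ← Nat.card_congr φ.toEquiv] at h2
    have h3 : ∀ χ : Γ →* ℂˣ, zz (etc htop hn art χ) s 𝔭 =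
        ((χ (art ⟨𝔭, hcq⟩) : ℂˣ) : ℂ) * ((Ideal.absNorm (𝔭 : Ideal (𝓞 K)) : ℕ) : ℂ) ^ (-s) := by
      intro χ
      unfold zz
      rw [etc_cop hbot htop hn hr art χ hc]
    simp_rw [h3]
    rw [sum_log _ hx, ← h2]
    have h4 : (orderOf (art ⟨𝔭, hcq⟩) : ℂ) ≠ 0 := by
      exact_mod_cast (orderOf_pos (art ⟨𝔭, hcq⟩)).ne'
    push_cast
    rw [mul_div_assoc, div_self h4, mul_one]
  · have h1 : ∀ P : ↑(und (E := E) ⁻¹' {𝔭}),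
        -Complex.log (1 - zz (eta (𝔫.map (algebraMap (𝓞 K) (𝓞 E))) (map_ne_top hn hnb)) s
        (P : {P : Ideal (𝓞 E) // Prime P})) = 0 := by
      intro P
      have hab := (und_eq _ _).mp P.2
      unfold zz
      rw [eta_not _ (fun h => hc ((cop_map 𝔭.2 hab).mp h)), zero_mul, sub_zero, Complex.log_one,
        neg_zero]
    rw [tsum_congr h1, tsum_zero]
    refine (Finset.sum_eq_zero fun χ _ => ?_).symm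
    unfold zz
    rw [etc_not htop hn art χ hc, zero_mul, sub_zero, Complex.log_one, neg_zero]

/-- **the factorisation** -/
theorem prod_LI [IsGalois K E] [Fintype (Γ →* ℂˣ)] (hbot : 𝔮 ≠ ⊥) (htop : 𝔮 ≠ ⊤)
    (hnb : 𝔫 ≠ ⊥) (hn : 𝔫 ≠ ⊤)
    (hr : Rad 𝔮 𝔫) (art : Mq 𝔮 →* Γ) (φ : Γ ≃* (E ≃ₐ[K] E))
    (hfr : ∀ (𝔭 : Ideal (𝓞 K)) (hc : IsCoprime 𝔭 𝔮), Prime 𝔭 → FrobAt 𝔭 (φ (art ⟨𝔭, hc⟩)))
    {s : ℂ} (hs : 1 < s.re) :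
    ∏ χ : Γ →* ℂˣ, LI (etc htop hn art χ) s =
      LI (eta (𝔫.map (algebraMap (𝓞 K) (𝓞 E))) (map_ne_top hn hnb)) s := by
  have hψ : ∀ (χ : Γ →* ℂˣ) (𝔞 : Ideal (𝓞 K)), ‖etc htop hn art χ 𝔞‖ ≤ 1 := by
    intro χ 𝔞
    by_cases h : IsCoprime 𝔞 𝔫
    · rw [etc_cop hbot htop hn hr art χ h, norm_char]
    · rw [etc_not htop hn art χ h, norm_zero]
      exact zero_le_one
  have h1 := (hasSum_log (eta_norm (map_ne_top (E := E) hn hnb)) hs).tsum_fiberwise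
    (und (K := K) (E := E))
  have h2 := hasSum_sum (s := Finset.univ)
    (fun χ (_ : χ ∈ (Finset.univ : Finset (Γ →* ℂˣ))) => hasSum_log (hψ χ) hs)
  have h3 := h1.unique (h2.congr_fun fun 𝔭 => local_eq hbot htop hnb hn hr art φ hfr hs 𝔭)
  rw [Pool.Agent.Y772.DK.LI_eq_exp _ (eta_norm (map_ne_top (E := E) hn hnb)) hs, h3,
    Complex.exp_sum]
  exact Finset.prod_congr rfl fun χ _ => Pool.Agent.Y772.DK.LI_eq_exp _ (hψ χ) hs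

end glob

end Pool.Agent.Y773.AB
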