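import Mathlib

/-!
# Products of pairs of primes in a fixed relation

The version for an abstract commutative monoid of `Pool.Agent.Y693.AB.Tup` (helper693, Gaussian
integers): `φ` is a homomorphism to an abelian group, two elements are related if they have the
same image.
-/

set_option autoImplicit false

namespace Pool.Agent.Y773.AB

/-- the data: a norm, a homomorphism, primes `Pr`, the bounds for the number of pairs and of
elements -/
structure Sys {M G : Type} [CommMonoid M] [CommGroup G] (nm : M →* ℕ) (φ : M →* G)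
    (cop : M → M → Prop) (Pr : Finset M) (C V N : ℝ) : Prop where
  hC : 1 ≤ C
  hV : 1 ≤ V
  hN : 1 ≤ N
  pos : ∀ a : M, 1 ≤ nm a
  cnt : ∀ (B : ℕ) (S : Finset (M × M)), (∀ v ∈ S, φ v.1 = φ v.2 ∧ cop v.1 v.2 ∧ nm v.1 ≤ B ∧
    nm v.2 ≤ B) → (S.card : ℝ) ≤ C * V * (1 + (B : ℝ) ^ 2 / N)
  lin : ∀ (A : ℕ) (S : Finset M), (∀ a ∈ S, nm a ≤ A) → (S.card : ℝ) ≤ C * A
  prod : ∀ (j : ℕ) (f g : Fin j → M), (∀ i, f i ∈ Pr) → (∀ i, g i ∈ Pr) →
    (∀ i k, f i ≠ g k) → cop (∏ i, f i) (∏ i, g i)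
  dvd : ∀ (j : ℕ) (a : M) (f : Fin j → M), a ∈ Pr → (∀ i, f i ∈ Pr) → a ∣ ∏ i, f i →
    ∃ k, a = f k

theorem Sys.mono {M G : Type} [CommMonoid M] [CommGroup G] {nm : M →* ℕ} {φ : M →* G}
    {cop : M → M → Prop} {Pr Pr' : Finset M} {C V N : ℝ} (h : Sys nm φ cop Pr C V N)
    (hs : Pr' ⊆ Pr) : Sys nm φ cop Pr' C V N where
  hC := h.hC
  hV := h.hV
  hN := h.hN
  pos := h.pos
  cnt := h.cnt
  lin := h.lin
  prod j f g hf hg := h.prod j f g (fun i => hs (hf i)) (fun i => hs (hg i))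
  dvd j a f ha hf := h.dvd j a f (hs ha) (fun i => hs (hf i))

section

variable {M : Type}

open Classical in
/-- the `j`-tuples of pairs in `P` without repeated entries -/
noncomputable def Tup (P : Finset (M × M)) (j : ℕ) : Finset (Fin j → M × M) :=
  (Fintype.piFinset (fun _ : Fin j => P)).filter (fun f =>
    (∀ i k, i ≠ k → (f i).1 ≠ (f k).1 ∧ (f i).2 ≠ (f k).2) ∧ ∀ i k, (f i).1 ≠ (f k).2)

theorem mem_Tup {P : Finset (M × M)} {j : ℕ} {f : Fin j → M × M} : f ∈ Tup P j ↔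
    (∀ i, f i ∈ P) ∧ (∀ i k, i ≠ k → (f i).1 ≠ (f k).1 ∧ (f i).2 ≠ (f k).2) ∧
      ∀ i k, (f i).1 ≠ (f k).2 := by
  classical
  unfold Tup
  rw [Finset.mem_filter, Fintype.mem_piFinset]

open Classical in
theorem card_Tup_succ (P : Finset (M × M)) (hP : ∀ p ∈ P, p.1 ≠ p.2) (D : ℕ)
    (hD1 : ∀ e : M, (P.filter (fun p : M × M => p.1 = e)).card ≤ D)
    (hD2 : ∀ e : M, (P.filter (fun p : M × M => p.2 = e)).card ≤ D) (j : ℕ) :
    (Tup P j).card * (P.card - 4 * j * D) ≤ (Tup P (j + 1)).card := by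
  classical
  let comp : (Fin j → M × M) → M × M → Prop := fun f p =>
    ∀ i, p.1 ≠ (f i).1 ∧ p.2 ≠ (f i).2 ∧ p.1 ≠ (f i).2 ∧ p.2 ≠ (f i).1
  have hcount : ∀ f : Fin j → M × M, P.card - 4 * j * D ≤ (P.filter (comp f)).card := by
    intro f
    have h1 : P ⊆ P.filter (comp f) ∪ (Finset.univ : Finset (Fin j)).biUnion (fun i =>
        ((P.filter (fun p => p.1 = (f i).1) ∪ P.filter (fun p => p.2 = (f i).2)) ∪
          (P.filter (fun p => p.1 = (f i).2) ∪ P.filter (fun p => p.2 = (f i).1)))) := by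
      intro p hp
      by_cases hc : comp f p
      · exact Finset.mem_union_left _ (Finset.mem_filter.2 ⟨hp, hc⟩)
      · apply Finset.mem_union_right
        have hc' : ∃ i, p.1 = (f i).1 ∨ p.2 = (f i).2 ∨ p.1 = (f i).2 ∨ p.2 = (f i).1 := by
          by_contra hcon
          apply hc
          intro i
          refine ⟨fun h => hcon ⟨i, Or.inl h⟩, fun h => hcon ⟨i, Or.inr (Or.inl h)⟩,
            fun h => hcon ⟨i, Or.inr (Or.inr (Or.inl h))⟩,
            fun h => hcon ⟨i, Or.inr (Or.inr (Or.inr h))⟩⟩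
        obtain ⟨i, hi⟩ := hc'
        rw [Finset.mem_biUnion]
        refine ⟨i, Finset.mem_univ _, ?_⟩
        simp only [Finset.mem_union, Finset.mem_filter]
        rcases hi with h | h | h | h
        · exact Or.inl (Or.inl ⟨hp, h⟩)
        · exact Or.inl (Or.inr ⟨hp, h⟩)
        · exact Or.inr (Or.inl ⟨hp, h⟩)
        · exact Or.inr (Or.inr ⟨hp, h⟩)
    have h2 := (Finset.card_le_card h1).trans (Finset.card_union_le _ _)
    have h3 : ((Finset.univ : Finset (Fin j)).biUnion (fun i =>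
        ((P.filter (fun p => p.1 = (f i).1) ∪ P.filter (fun p => p.2 = (f i).2)) ∪
          (P.filter (fun p => p.1 = (f i).2) ∪ P.filter (fun p => p.2 = (f i).1))))).card ≤
        4 * j * D := by
      refine Finset.card_biUnion_le.trans ?_
      calc _ ≤ ∑ _i : Fin j, 4 * D := by
            refine Finset.sum_le_sum fun i _ => ?_
            have a1 := hD1 (f i).1
            have a2 := hD2 (f i).2
            have a3 := hD1 (f i).2
            have a4 := hD2 (f i).1
            refine (Finset.card_union_le _ _).trans ?_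
            have b1 := Finset.card_union_le (P.filter (fun p => p.1 = (f i).1))
              (P.filter (fun p => p.2 = (f i).2))
            have b2 := Finset.card_union_le (P.filter (fun p => p.1 = (f i).2))
              (P.filter (fun p => p.2 = (f i).1))
            omega
        _ = 4 * j * D := by
            rw [Finset.sum_const, Finset.card_univ, Fintype.card_fin, smul_eq_mul]
            ring
    omega
  have hsig : (Tup P j).card * (P.card - 4 * j * D) ≤
      ((Tup P j).sigma (fun f => P.filter (comp f))).card := by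
    rw [Finset.card_sigma]
    calc (Tup P j).card * (P.card - 4 * j * D) = ∑ _f ∈ Tup P j, (P.card - 4 * j * D) := by
          rw [Finset.sum_const, smul_eq_mul]
      _ ≤ _ := Finset.sum_le_sum fun f _ => hcount f
  refine hsig.trans ?_
  refine Finset.card_le_card_of_injOn (fun x => (Fin.cons x.2 x.1 : Fin (j + 1) → M × M)) ?_ ?_
  · rintro ⟨f, p⟩ hx
    rw [Finset.mem_coe, Finset.mem_sigma, Finset.mem_filter, mem_Tup] at hx
    obtain ⟨⟨f1, f2, f3⟩, hpP, hc⟩ := hx
    simp only at f1 f2 f3 hpP hc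
    rw [Finset.mem_coe, mem_Tup]
    simp only
    refine ⟨?_, ?_, ?_⟩
    · intro i
      refine Fin.cases ?_ (fun i => ?_) i
      · simpa using hpP
      · simpa using f1 i
    · intro i k
      refine Fin.cases ?_ (fun i => ?_) i
      · refine Fin.cases ?_ (fun k => ?_) k
        · intro h; exact absurd rfl h
        · intro _
          simpa using ⟨(hc k).1, (hc k).2.1⟩
      · refine Fin.cases ?_ (fun k => ?_) k
        · intro _
          simpa using ⟨(hc i).1.symm, (hc i).2.1.symm⟩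
        · intro h
          have h' : i ≠ k := fun e => h (by rw [e])
          simpa using f2 i k h'
    · intro i k
      refine Fin.cases ?_ (fun i => ?_) i
      · refine Fin.cases ?_ (fun k => ?_) k
        · simpa using hP p hpP
        · simpa using (hc k).2.2.1
      · refine Fin.cases ?_ (fun k => ?_) k
        · simpa using (hc i).2.2.2.symm
        · simpa using f3 i k
  · rintro ⟨f, p⟩ _ ⟨g, r⟩ _ h
    simp only at h
    have h1 := Fin.cons_injective2 h
    obtain ⟨h2, h3⟩ := h1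
    subst h2
    subst h3
    rfl

open Classical in
theorem card_Tup_lower (P : Finset (M × M)) (hP : ∀ p ∈ P, p.1 ≠ p.2) (D : ℕ)
    (hD1 : ∀ e : M, (P.filter (fun p : M × M => p.1 = e)).card ≤ D)
    (hD2 : ∀ e : M, (P.filter (fun p : M × M => p.2 = e)).card ≤ D) (J j : ℕ) (hj : j ≤ J) :
    (P.card - 4 * J * D) ^ j ≤ (Tup P j).card := by
  induction j with
  | zero =>
    rw [pow_zero, Nat.one_le_iff_ne_zero, Finset.card_ne_zero]
    refine ⟨fun i => i.elim0, ?_⟩
    rw [mem_Tup]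
    exact ⟨fun i => i.elim0, fun i => i.elim0, fun i => i.elim0⟩
  | succ j ih =>
    have h1 := ih (by omega)
    have h2 := card_Tup_succ P hP D hD1 hD2 j
    refine le_trans ?_ h2
    rw [pow_succ]
    refine Nat.mul_le_mul h1 ?_
    have : 4 * j * D ≤ 4 * J * D := Nat.mul_le_mul_right _ (by omega)
    omega

end

section

variable {M G : Type} [CommMonoid M] [CommGroup G] {nm : M →* ℕ} {φ : M →* G}
  {cop : M → M → Prop}

theorem nm_prod_le {j : ℕ} (nm : M →* ℕ) (f : Fin j → M) (A : ℕ) (h : ∀ i, nm (f i) ≤ A) :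
    nm (∏ i, f i) ≤ A ^ j := by
  induction j with
  | zero => simp
  | succ j ih =>
    rw [Fin.prod_univ_succ, map_mul, pow_succ, mul_comm]
    exact Nat.mul_le_mul (ih (fun i => f i.succ) (fun i => h i.succ)) (h 0)

/-- upper bound for the number of tuples -/
theorem card_Tup_upper {Pr : Finset M} {C V N : ℝ} (hs : Sys nm φ cop Pr C V N) (A : ℕ)
    (hA : ∀ a ∈ Pr, nm a ≤ A) (P : Finset (M × M))
    (hP : ∀ p ∈ P, p.1 ∈ Pr ∧ p.2 ∈ Pr ∧ φ p.1 = φ p.2) (j : ℕ) :
    ((Tup P j).card : ℝ) ≤ ((j : ℝ) ^ j * (j : ℝ) ^ j) * (C * V * (1 + ((A : ℝ) ^ j) ^ 2 / N)) := by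
  classical
  let Φ : (Fin j → M × M) → M × M := fun f => (∏ i, (f i).1, ∏ i, (f i).2)
  have himg : (((Tup P j).image Φ).card : ℝ) ≤ C * V * (1 + ((A : ℝ) ^ j) ^ 2 / N) := by
    have := hs.cnt (A ^ j) ((Tup P j).image Φ) (by
      intro v hv
      rw [Finset.mem_image] at hv
      obtain ⟨f, hf, rfl⟩ := hv
      rw [mem_Tup] at hf
      obtain ⟨f1, f2, f3⟩ := hf
      refine ⟨?_, ?_, ?_, ?_⟩
      · change φ (∏ i, (f i).1) = φ (∏ i, (f i).2)
        rw [map_prod, map_prod]
        exact Finset.prod_congr rfl fun i _ => (hP _ (f1 i)).2.2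
      · exact hs.prod j _ _ (fun i => (hP _ (f1 i)).1) (fun i => (hP _ (f1 i)).2.1) f3
      · exact nm_prod_le nm _ A (fun i => hA _ (hP _ (f1 i)).1)
      · exact nm_prod_le nm _ A (fun i => hA _ (hP _ (f1 i)).2.1))
    push_cast at this
    exact this
  have hfib : ∀ v ∈ (Tup P j).image Φ, ((Tup P j).filter (fun f => Φ f = v)).card ≤
      j ^ j * j ^ j := by
    intro v _
    rcases ((Tup P j).filter (fun f => Φ f = v)).eq_empty_or_nonempty with he | ⟨f0, hf0⟩
    · rw [he]; simp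
    rw [Finset.mem_filter, mem_Tup] at hf0
    obtain ⟨⟨g1, g2, g3⟩, hv0⟩ := hf0
    have key : ∀ f : Fin j → M × M, ∃ σ : (Fin j → Fin j) × (Fin j → Fin j),
        f ∈ (Tup P j).filter (fun f => Φ f = v) →
        ∀ i, (f i).1 = (f0 (σ.1 i)).1 ∧ (f i).2 = (f0 (σ.2 i)).2 := by
      intro f
      by_cases hf : f ∈ (Tup P j).filter (fun f => Φ f = v)
      · have hf' := hf
        rw [Finset.mem_filter, mem_Tup] at hf'
        obtain ⟨⟨f1, f2, f3⟩, hv1⟩ := hf'
        have e : Φ f = Φ f0 := by rw [hv1, hv0]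
        have e1 : ∏ i, (f i).1 = ∏ i, (f0 i).1 := congrArg Prod.fst e
        have e2 : ∏ i, (f i).2 = ∏ i, (f0 i).2 := congrArg Prod.snd e
        have k1 : ∀ i, ∃ k, (f i).1 = (f0 k).1 := by
          intro i
          have h1 : (f i).1 ∣ ∏ i, (f0 i).1 := by
            rw [← e1]
            exact Finset.dvd_prod_of_mem (fun i => (f i).1) (Finset.mem_univ i)
          exact hs.dvd j _ (fun k => (f0 k).1) (hP _ (f1 i)).1 (fun k => (hP _ (g1 k)).1) h1
        have k2 : ∀ i, ∃ k, (f i).2 = (f0 k).2 := by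
          intro i
          have h1 : (f i).2 ∣ ∏ i, (f0 i).2 := by
            rw [← e2]
            exact Finset.dvd_prod_of_mem (fun i => (f i).2) (Finset.mem_univ i)
          exact hs.dvd j _ (fun k => (f0 k).2) (hP _ (f1 i)).2.1 (fun k => (hP _ (g1 k)).2.1) h1
        choose s hs using k1
        choose s' hs' using k2
        exact ⟨(s, s'), fun _ i => ⟨hs i, hs' i⟩⟩
      · exact ⟨(fun i => i, fun i => i), fun h => absurd h hf⟩
    choose σ hσ using key
    have hinj : Set.InjOn σ ((Tup P j).filter (fun f => Φ f = v) : Set (Fin j → M × M)) := by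
      intro f hf f' hf' heq
      rw [Finset.mem_coe] at hf hf'
      funext i
      have h1 := hσ f hf i
      have h2 := hσ f' hf' i
      rw [heq] at h1
      exact Prod.ext (h1.1.trans h2.1.symm) (h1.2.trans h2.2.symm)
    calc ((Tup P j).filter (fun f => Φ f = v)).card ≤
        (Finset.univ : Finset ((Fin j → Fin j) × (Fin j → Fin j))).card :=
          Finset.card_le_card_of_injOn σ (fun _ _ => Finset.mem_univ _) hinj
      _ = j ^ j * j ^ j := by
          rw [Finset.card_univ, Fintype.card_prod, Fintype.card_fun, Fintype.card_fin]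
  have h1 := Finset.card_le_mul_card_image (f := Φ) (Tup P j) (j ^ j * j ^ j) hfib
  have h2 : ((Tup P j).card : ℝ) ≤ ((j : ℝ) ^ j * (j : ℝ) ^ j) * ((Tup P j).image Φ).card := by
    exact_mod_cast h1
  exact h2.trans (mul_le_mul_of_nonneg_left himg (by positivity))

open Classical in
/-- the pairs of different related primes -/
noncomputable def PP (φ : M →* G) (Pr : Finset M) : Finset (M × M) :=
  (Pr ×ˢ Pr).filter (fun p => p.1 ≠ p.2 ∧ φ p.1 = φ p.2)

theorem mem_PP {Pr : Finset M} {p : M × M} :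
    p ∈ PP φ Pr ↔ p.1 ∈ Pr ∧ p.2 ∈ Pr ∧ p.1 ≠ p.2 ∧ φ p.1 = φ p.2 := by
  classical
  unfold PP
  rw [Finset.mem_filter, Finset.mem_product, and_assoc]

open Classical in
/-- the degree -/
theorem degree_le (φ : M →* G) (Pr : Finset M) (e : M) :
    ((PP φ Pr).filter (fun p : M × M => p.1 = e)).card ≤ Nat.sqrt (PP φ Pr).card ∧
    ((PP φ Pr).filter (fun p : M × M => p.2 = e)).card ≤ Nat.sqrt (PP φ Pr).card := by
  classical
  have h1 : ((PP φ Pr).filter (fun p : M × M => p.1 = e)).card ≤ Nat.sqrt (PP φ Pr).card := by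
    rw [Nat.le_sqrt]
    set F := (PP φ Pr).filter (fun p : M × M => p.1 = e) with hF
    rw [← Finset.card_product]
    -- (e, b), (e, c) ↦ (b, c) if b ≠ c, (e, b) otherwise
    refine Finset.card_le_card_of_injOn
      (fun x : (M × M) × (M × M) => if x.1.2 = x.2.2 then x.1 else (x.1.2, x.2.2)) ?_ ?_
    · rintro ⟨x, y⟩ hxy
      rw [Finset.mem_coe, Finset.mem_product, hF, Finset.mem_filter, Finset.mem_filter] at hxy
      obtain ⟨⟨hx, hx1⟩, ⟨hy, hy1⟩⟩ := hxy
      simp only at hx hx1 hy hy1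
      rw [Finset.mem_coe]
      simp only
      split_ifs with h
      · exact hx
      · rw [mem_PP] at hx hy ⊢
        obtain ⟨a1, a2, a3, a4⟩ := hx
        obtain ⟨b1, b2, b3, b4⟩ := hy
        refine ⟨a2, b2, h, ?_⟩
        rw [hx1] at a4
        rw [hy1] at b4
        exact a4.symm.trans b4
    · rintro ⟨x, y⟩ hxy ⟨x', y'⟩ hxy' h
      rw [Finset.mem_coe, Finset.mem_product, hF, Finset.mem_filter, Finset.mem_filter] at hxy hxy'
      obtain ⟨⟨hx, hx1⟩, ⟨hy, hy1⟩⟩ := hxy
      obtain ⟨⟨hx', hx1'⟩, ⟨hy', hy1'⟩⟩ := hxy'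
      simp only at hx hx1 hy hy1 hx' hx1' hy' hy1' h
      have hne : ∀ z : M × M, z ∈ PP φ Pr → z.1 ≠ z.2 := fun z hz => (mem_PP.1 hz).2.2.1
      split_ifs at h with c1 c2 c2
      · -- both diagonal
        subst h
        have e1 : y = x := Prod.ext (hy1.trans hx1.symm) c1.symm
        have e2 : y' = x := Prod.ext (hy1'.trans hx1.symm) c2.symm
        rw [e1, e2]
      · exfalso
        have e1 : x.1 = x'.2 := congrArg Prod.fst h
        exact hne x' hx' (by rw [hx1', ← hx1, e1])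
      · exfalso
        have e1 : x.2 = x'.1 := congrArg Prod.fst h
        exact hne x hx (by rw [hx1, ← hx1', e1])
      · have e1 : x.2 = x'.2 := (Prod.mk.inj h).1
        have e2 : y.2 = y'.2 := (Prod.mk.inj h).2
        have e3 : x = x' := Prod.ext (hx1.trans hx1'.symm) e1
        have e4 : y = y' := Prod.ext (hy1.trans hy1'.symm) e2
        rw [e3, e4]
  refine ⟨h1, ?_⟩
  refine le_trans ?_ h1
  refine Finset.card_le_card_of_injOn (fun x : M × M => (x.2, x.1)) ?_ ?_
  · intro x hx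
    rw [Finset.mem_coe, Finset.mem_filter] at hx ⊢
    obtain ⟨h2, h3⟩ := hx
    rw [mem_PP] at h2 ⊢
    obtain ⟨a1, a2, a3, a4⟩ := h2
    exact ⟨⟨a2, a1, a3.symm, a4.symm⟩, h3⟩
  · intro x _ y _ h
    simp only [Prod.mk.injEq] at h
    exact Prod.ext h.2 h.1

/-- the bound for the number of pairs -/
theorem card_PP_le {Pr : Finset M} {C V N : ℝ} (hs : Sys nm φ cop Pr C V N) (A : ℕ)
    (hA : ∀ a ∈ Pr, nm a ≤ A) (j : ℕ) (hj : 1 ≤ j) :
    ((PP φ Pr).card : ℝ) ≤ 64 * (j : ℝ) ^ 2 + 2 * (j : ℝ) ^ 2 *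
      (C * V * (1 + ((A : ℝ) ^ j) ^ 2 / N)) ^ (1 / (j : ℝ)) := by
  classical
  have hC := hs.hC
  have hV := hs.hV
  have hN := hs.hN
  set P := PP φ Pr with hPdef
  have hj0 : (0 : ℝ) < j := by exact_mod_cast hj
  set X : ℝ := C * V * (1 + ((A : ℝ) ^ j) ^ 2 / N) with hX
  have hX0 : 0 ≤ X := by positivity
  set D := Nat.sqrt P.card with hD
  by_cases hbig : (P.card : ℝ) ≤ 64 * (j : ℝ) ^ 2
  · have : 0 ≤ 2 * (j : ℝ) ^ 2 * X ^ (1 / (j : ℝ)) := by positivity
    linarith
  rw [not_le] at hbig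
  have hDs : (D : ℝ) ^ 2 ≤ P.card := by
    have := Nat.sqrt_le' P.card
    exact_mod_cast this
  have hD4 : 4 * (j : ℝ) * D ≤ P.card / 2 := by
    by_contra hcon
    rw [not_le] at hcon
    have h1 : (P.card : ℝ) < 8 * j * D := by linarith
    have h2 : (P.card : ℝ) ^ 2 < (8 * j * D) ^ 2 :=
      pow_lt_pow_left₀ h1 (Nat.cast_nonneg _) (by norm_num)
    have h3 : (8 * (j : ℝ) * D) ^ 2 ≤ 64 * (j : ℝ) ^ 2 * P.card := by
      have : (8 * (j : ℝ) * D) ^ 2 = 64 * (j : ℝ) ^ 2 * (D : ℝ) ^ 2 := by ring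
      rw [this]
      exact mul_le_mul_of_nonneg_left hDs (by positivity)
    have h4 : (P.card : ℝ) * P.card < 64 * (j : ℝ) ^ 2 * P.card := by
      rw [← sq]; linarith
    have hc : (0 : ℝ) < P.card := by
      have : 0 ≤ 64 * (j : ℝ) ^ 2 := by positivity
      linarith
    have := lt_of_mul_lt_mul_right h4 hc.le
    linarith
  have hlow := card_Tup_lower P (fun p h => (mem_PP.1 h).2.2.1) D
    (fun e => (degree_le φ Pr e).1) (fun e => (degree_le φ Pr e).2) j j le_rfl
  have hupp := card_Tup_upper hs A hA P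
    (fun p h => ⟨(mem_PP.1 h).1, (mem_PP.1 h).2.1, (mem_PP.1 h).2.2.2⟩) j
  rw [← hX] at hupp
  have hle : 4 * j * D ≤ P.card := by
    have h2 : 4 * (j : ℝ) * D ≤ P.card := by
      have : (0 : ℝ) ≤ P.card := Nat.cast_nonneg _
      linarith
    exact_mod_cast h2
  have h2 : (((P.card - 4 * j * D : ℕ) : ℝ)) ^ j ≤ ((j : ℝ) ^ j * (j : ℝ) ^ j) * X := by
    have h3 : (((P.card - 4 * j * D : ℕ) : ℝ)) ^ j ≤ ((Tup P j).card : ℝ) := by exact_mod_cast hlow
    exact h3.trans hupp
  have h3 : ((P.card : ℝ) / 2) ^ j ≤ ((j : ℝ) ^ 2) ^ j * X := by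
    have h4 : (P.card : ℝ) / 2 ≤ ((P.card - 4 * j * D : ℕ) : ℝ) := by
      rw [Nat.cast_sub hle]
      push_cast
      linarith
    calc ((P.card : ℝ) / 2) ^ j ≤ (((P.card - 4 * j * D : ℕ) : ℝ)) ^ j :=
          pow_le_pow_left₀ (by positivity) h4 j
      _ ≤ ((j : ℝ) ^ j * (j : ℝ) ^ j) * X := h2
      _ = ((j : ℝ) ^ 2) ^ j * X := by ring
  have h4 : (P.card : ℝ) / 2 ≤ (j : ℝ) ^ 2 * X ^ (1 / (j : ℝ)) := by
    have h5 : ((j : ℝ) ^ 2 * X ^ (1 / (j : ℝ))) ^ j = ((j : ℝ) ^ 2) ^ j * X := by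
      rw [mul_pow, ← Real.rpow_natCast (X ^ (1 / (j : ℝ))) j, ← Real.rpow_mul hX0,
        one_div_mul_cancel hj0.ne', Real.rpow_one]
    rw [← h5] at h3
    exact (pow_le_pow_iff_left₀ (by positivity) (by positivity) (by omega)).1 h3
  have h5 : 0 ≤ 64 * (j : ℝ) ^ 2 := by positivity
  linarith

end

end Pool.Agent.Y773.AB
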