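import Pool.Agent.Y773.IQ.Msq
import Pool.Agent.Y773.AB.Off

/-!
The extra part of the majorant (copy of `Pool.Agent.Y693.AB.Ext`, helper693).
-/

set_option autoImplicit false

open Complex MeasureTheory
open H385 (Gq Rw)

namespace Pool.Agent.Y773.AB

/-- the extra part of the majorant -/
noncomputable def XU (δ M C2 Ce ε c : ℝ) (n : ℕ) (T u : ℝ) : ℝ :=
  (T + C2) * ((1 + δ) * (Ce + ε * (1 + Real.log n) ^ 2 * Real.exp (-(c * u))) +
    (1 + 1 / δ) * (M * (Gq n u + 1) ^ 2))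

theorem XU_cont (δ M C2 Ce ε c : ℝ) (n : ℕ) (T : ℝ) : Continuous (XU δ M C2 Ce ε c n T) := by
  unfold XU
  have h2 := H385.Gq_cont n
  fun_prop

/-- estimates of the extra part -/
theorem XU_est (c M C2 : ℝ) (hc : 0 < c) (hM : 0 < M) (hC2 : 0 < C2) (γ β ε1 δ : ℝ) (hγ : 0 < γ)
    (hπ : γ < Real.pi) (hβ : 0 < β) (hε1 : 0 < ε1) (hδ : 0 < δ) (hδ1 : δ ≤ 1) :
    ∃ ε : ℝ, 0 < ε ∧ ∀ Ce : ℝ, 0 < Ce → ∃ L0 : ℝ, 0 < L0 ∧ ∀ (n : ℕ) (T ℒ : ℝ), 1 ≤ n → 1 ≤ T →
      L0 ≤ ℒ → Real.log n ≤ 2 * ℒ →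
      (∃ y : ℝ, 0 ≤ y ∧ (∀ u : ℝ, 0 ≤ u → XU δ M C2 Ce ε c n T u ≤ T * y) ∧
        Real.sqrt y ≤ ε1 * ℒ) ∧
      (2 / (Real.sqrt Real.pi * (β * ℒ))) *
        (∫ u in (0 : ℝ)..(β * ℒ), Rw γ (u / (β * ℒ)) * XU δ M C2 Ce ε c n T u) ≤
      T / (2 * Real.pi) * ℒ * ε1 := by
  have hR0 : 0 ≤ Rw γ 0 := H385.Rw_nonneg γ hγ hπ 0
  set R0 : ℝ := Rw γ 0 with hR0d
  set D : ℝ := (1 + 1 / δ) * M with hD
  have hD0 : 0 < D := by positivity
  -- parameters
  set ε : ℝ := min (ε1 ^ 2 / (512 * (1 + C2))) (ε1 * c * β / (1152 * 2 * (1 + C2) * (R0 + 1)))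
    with hε
  have hε0 : 0 < ε := by positivity
  have hεa : ε * (512 * (1 + C2)) ≤ ε1 ^ 2 := by
    rw [← le_div_iff₀ (by positivity)]
    exact min_le_left _ _
  have hεb : ε * (1152 * 2 * (1 + C2) * (R0 + 1)) ≤ ε1 * c * β := by
    rw [← le_div_iff₀ (by positivity)]
    exact min_le_right _ _
  set e2 : ℝ := ε1 / (16 * Real.sqrt ((1 + C2) * D)) with he2
  have hs0 : 0 < Real.sqrt ((1 + C2) * D) := Real.sqrt_pos.2 (by positivity)
  have he20 : 0 < e2 := by positivity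
  set e3 : ℝ := ε1 * β / (1024 * (1 + C2) * (R0 + 1) * D) with he3
  have he30 : 0 < e3 := by positivity
  obtain ⟨C7, hC7, h7⟩ := H385.noncop_bound e2 he20
  obtain ⟨C8, hC8, h8⟩ := H385.noncop_sq e3 he30
  refine ⟨ε, hε0, fun Ce hCe => ?_⟩
  set K1 : ℝ := Real.sqrt ((1 + C2) * (2 * Ce)) + Real.sqrt ((1 + C2) * (2 * ε)) +
    Real.sqrt ((1 + C2) * D) * (C7 + 1) with hK1
  set K2 : ℝ := (1 + C2) * (2 * (R0 + 1)) * (2 * Ce + D * (2 * C8 + 2)) with hK2
  have hK10 : 0 ≤ K1 := by positivity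
  have hK20 : 0 ≤ K2 := by positivity
  refine ⟨1 + 1 / β + 4 * K1 / ε1 + 32 * K2 / ε1, by positivity, ?_⟩
  intro n T ℒ hn hT hℒ hlogn
  have hT0 : 0 < T := by linarith
  have hn1 : (1 : ℝ) ≤ n := by exact_mod_cast hn
  have hβi : 0 < 1 / β := by positivity
  have hq1 : 0 ≤ 4 * K1 / ε1 := by positivity
  have hq2 : 0 ≤ 32 * K2 / ε1 := by positivity
  have hℒ1 : 1 ≤ ℒ := by linarith
  have hℒ0 : 0 < ℒ := by linarith
  have hΛ1 : 1 ≤ β * ℒ := by
    have : 1 / β ≤ ℒ := by linarith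
    rw [div_le_iff₀ hβ] at this
    linarith
  set Λ := β * ℒ with hΛ
  have hΛ0 : 0 < Λ := by linarith
  have hlog0 : 0 ≤ Real.log n := Real.log_nonneg hn1
  have hsq : (1 + Real.log n) ^ 2 ≤ (1 + 2 * ℒ) ^ 2 :=
    pow_le_pow_left₀ (by linarith) (by linarith) 2
  have hTC : T + C2 ≤ T * (1 + C2) := by
    have : 1 * C2 ≤ T * C2 := mul_le_mul_of_nonneg_right hT hC2.le
    linarith
  refine ⟨?_, ?_⟩
  · -- pointwise
    set g : ℝ := e2 * (2 * ℒ) + C7 + 1 with hg
    have hg0 : 0 ≤ g := by positivity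
    refine ⟨(1 + C2) * (2 * Ce) + (1 + C2) * (2 * ε) * (1 + 2 * ℒ) ^ 2 + (1 + C2) * D * g ^ 2,
      by positivity, ?_, ?_⟩
    · intro u hu
      have hG := (h7 n u hn hu).2
      have hG0 := H385.Gq_nonneg n u
      have hGg : Gq n u + 1 ≤ g := by
        have : Gq n u ≤ e2 * Real.log n + C7 := hG
        have h2 : e2 * Real.log n ≤ e2 * (2 * ℒ) := mul_le_mul_of_nonneg_left hlogn he20.le
        rw [hg]; linarith
      have hG2 : (Gq n u + 1) ^ 2 ≤ g ^ 2 := pow_le_pow_left₀ (by linarith) hGg 2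
      have hex : Real.exp (-(c * u)) ≤ 1 := by
        rw [Real.exp_le_one_iff]
        have : 0 ≤ c * u := by positivity
        linarith
      unfold XU
      calc (T + C2) * ((1 + δ) * (Ce + ε * (1 + Real.log n) ^ 2 * Real.exp (-(c * u))) +
          (1 + 1 / δ) * (M * (Gq n u + 1) ^ 2)) ≤
          (T * (1 + C2)) * (2 * (Ce + ε * (1 + 2 * ℒ) ^ 2 * 1) +
          (1 + 1 / δ) * (M * g ^ 2)) := by
            gcongr
            linarith
        _ = _ := by rw [hD]; ring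
    · have s1 : Real.sqrt ((1 + C2) * (2 * Ce) + (1 + C2) * (2 * ε) * (1 + 2 * ℒ) ^ 2 +
          (1 + C2) * D * g ^ 2) ≤ Real.sqrt ((1 + C2) * (2 * Ce)) +
          Real.sqrt ((1 + C2) * (2 * ε)) * (1 + 2 * ℒ) + Real.sqrt ((1 + C2) * D) * g := by
        refine (H385.sqrt_add_le_c _ _ (by positivity) (by positivity)).trans ?_
        have t1 := H385.sqrt_add_le_c ((1 + C2) * (2 * Ce))
          ((1 + C2) * (2 * ε) * (1 + 2 * ℒ) ^ 2) (by positivity) (by positivity)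
        have t2 : Real.sqrt ((1 + C2) * (2 * ε) * (1 + 2 * ℒ) ^ 2) =
            Real.sqrt ((1 + C2) * (2 * ε)) * (1 + 2 * ℒ) := by
          rw [Real.sqrt_mul (by positivity), Real.sqrt_sq (by positivity)]
        have t3 : Real.sqrt ((1 + C2) * D * g ^ 2) = Real.sqrt ((1 + C2) * D) * g := by
          rw [Real.sqrt_mul (by positivity), Real.sqrt_sq hg0]
        rw [t2] at t1
        rw [t3]
        linarith
      refine s1.trans ?_
      have s2 : Real.sqrt ((1 + C2) * D) * g = ε1 / 8 * ℒ +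
          Real.sqrt ((1 + C2) * D) * (C7 + 1) := by
        rw [hg, he2]; field_simp; ring
      have s3 : Real.sqrt ((1 + C2) * (2 * ε)) ≤ ε1 / 16 := by
        rw [Real.sqrt_le_left (by positivity)]
        have : (ε1 / 16) ^ 2 = ε1 ^ 2 / 256 := by ring
        rw [this, le_div_iff₀ (by norm_num)]
        linarith
      have s4 : K1 ≤ ε1 / 4 * ℒ := by
        have h1 : 4 * K1 / ε1 ≤ ℒ := by linarith
        rw [div_le_iff₀ hε1] at h1
        linarith
      have s5 : Real.sqrt ((1 + C2) * (2 * ε)) * (1 + 2 * ℒ) ≤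
          Real.sqrt ((1 + C2) * (2 * ε)) + ε1 / 8 * ℒ := by
        have : Real.sqrt ((1 + C2) * (2 * ε)) * (2 * ℒ) ≤ ε1 / 16 * (2 * ℒ) :=
          mul_le_mul_of_nonneg_right s3 (by positivity)
        linarith
      have s6 : 0 ≤ ε1 * ℒ := by positivity
      rw [hK1] at s4
      linarith
  · -- integral
    have hRc := H385.Rw_cont γ hγ hπ
    have hG := H385.Gq_cont n
    set E : ℝ → ℝ := fun u => T * (1 + C2) * (2 * (Ce + ε * (1 + Real.log n) ^ 2 *
      Real.exp (-(c * u))) + D * (2 * Gq n u ^ 2 + 2)) with hE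
    have hEc : Continuous E := by rw [hE]; fun_prop
    have hpt : ∀ u ∈ Set.Icc 0 Λ, Rw γ (u / Λ) * XU δ M C2 Ce ε c n T u ≤ R0 * E u := by
      intro u hu
      obtain ⟨hu0, hu2⟩ := hu
      have hG0 := H385.Gq_nonneg n u
      have hGs : (Gq n u + 1) ^ 2 ≤ 2 * Gq n u ^ 2 + 2 := by nlinarith [sq_nonneg (Gq n u - 1)]
      have hRn : 0 ≤ Rw γ (u / Λ) := H385.Rw_nonneg γ hγ hπ _
      have hRle : Rw γ (u / Λ) ≤ R0 := H385.Rw_le γ hγ hπ _ (div_nonneg hu0 hΛ0.le)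
      have hXE : XU δ M C2 Ce ε c n T u ≤ E u := by
        unfold XU
        rw [hE]
        simp only
        calc (T + C2) * ((1 + δ) * (Ce + ε * (1 + Real.log n) ^ 2 * Real.exp (-(c * u))) +
            (1 + 1 / δ) * (M * (Gq n u + 1) ^ 2)) ≤
            (T * (1 + C2)) * (2 * (Ce + ε * (1 + Real.log n) ^ 2 * Real.exp (-(c * u))) +
            (1 + 1 / δ) * (M * (2 * Gq n u ^ 2 + 2))) := by
              gcongr
              linarith
          _ = _ := by rw [hD]; ring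
      have hX0 : 0 ≤ XU δ M C2 Ce ε c n T u := by
        unfold XU
        positivity
      exact mul_le_mul hRle hXE hX0 hR0
    have hI1 : ∫ u in (0 : ℝ)..Λ, Rw γ (u / Λ) * XU δ M C2 Ce ε c n T u ≤
        ∫ u in (0 : ℝ)..Λ, R0 * E u := by
      refine intervalIntegral.integral_mono_on hΛ0.le ?_ ?_ hpt
      · exact ((hRc.comp (continuous_id.div_const Λ)).mul
          (XU_cont _ _ _ _ _ _ _ _)).intervalIntegrable _ _
      · exact (hEc.const_mul _).intervalIntegrable _ _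
    have hexpI : ∫ u in (0 : ℝ)..Λ, Real.exp (-(c * u)) ≤ 1 / c := by
      have e1 : ∫ u in (0 : ℝ)..Λ, Real.exp (-(c * u)) = (1 - Real.exp (-(c * Λ))) / c := by
        have h3 : ∀ u ∈ Set.uIcc (0 : ℝ) Λ, HasDerivAt (fun u : ℝ => -(Real.exp (-(c * u)) / c))
            (Real.exp (-(c * u))) u := by
          intro u _
          have h4 : HasDerivAt (fun u : ℝ => -(c * u)) (-c) u := by
            have h6 := ((hasDerivAt_id u).const_mul c).neg
            rw [mul_one] at h6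
            exact h6
          have h5 := (h4.exp.div_const c).neg
          refine h5.congr_deriv ?_
          field_simp
        rw [intervalIntegral.integral_eq_sub_of_hasDerivAt h3
          ((by fun_prop : Continuous (fun u : ℝ => Real.exp (-(c * u)))).intervalIntegrable _ _)]
        rw [mul_zero, neg_zero, Real.exp_zero]
        ring
      rw [e1]
      apply div_le_div_of_nonneg_right _ hc.le
      have := Real.exp_pos (-(c * Λ))
      linarith
    have hI3 : ∫ u in (0 : ℝ)..Λ, E u = T * (1 + C2) * (2 * (Ce * Λ + ε * (1 + Real.log n) ^ 2 *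
        ∫ u in (0 : ℝ)..Λ, Real.exp (-(c * u))) + D * (2 * (∫ u in (0 : ℝ)..Λ, Gq n u ^ 2) +
          2 * Λ)) := by
      have j1 : IntervalIntegrable (fun u : ℝ => 2 * (Ce + ε * (1 + Real.log n) ^ 2 *
          Real.exp (-(c * u)))) volume 0 Λ := by
        apply Continuous.intervalIntegrable; fun_prop
      have j2 : IntervalIntegrable (fun u : ℝ => D * (2 * Gq n u ^ 2 + 2)) volume 0 Λ := by
        apply Continuous.intervalIntegrable; fun_prop
      have j3 : IntervalIntegrable (fun u : ℝ => ε * (1 + Real.log n) ^ 2 *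
          Real.exp (-(c * u))) volume 0 Λ := by
        apply Continuous.intervalIntegrable; fun_prop
      have j4 : IntervalIntegrable (fun u : ℝ => 2 * Gq n u ^ 2) volume 0 Λ := by
        apply Continuous.intervalIntegrable; fun_prop
      rw [hE, intervalIntegral.integral_const_mul, intervalIntegral.integral_add j1 j2,
        intervalIntegral.integral_const_mul, intervalIntegral.integral_const_mul,
        intervalIntegral.integral_add (continuous_const.intervalIntegrable _ _) j3,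
        intervalIntegral.integral_add j4 (continuous_const.intervalIntegrable _ _),
        intervalIntegral.integral_const_mul, intervalIntegral.integral_const_mul]
      simp only [intervalIntegral.integral_const, smul_eq_mul]
      ring
    have hG4 : ∫ u in (0 : ℝ)..Λ, Gq n u ^ 2 ≤ e3 * (4 * ℒ ^ 2) + C8 := by
      refine le_trans (h8 n Λ hn hΛ0.le) ?_
      have : Real.log n ^ 2 ≤ (2 * ℒ) ^ 2 := pow_le_pow_left₀ hlog0 hlogn 2
      have h2 := mul_le_mul_of_nonneg_left this he30.le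
      have h3 : e3 * (2 * ℒ) ^ 2 = e3 * (4 * ℒ ^ 2) := by ring
      linarith
    have hsp : 1 ≤ Real.sqrt Real.pi := by
      rw [Real.one_le_sqrt]; linarith [Real.pi_gt_three]
    have hsp0 : 0 < Real.sqrt Real.pi := by linarith
    have hpi := Real.pi_pos
    set P : ℝ := 2 / (Real.sqrt Real.pi * Λ) with hP
    have hP0 : 0 ≤ P := by positivity
    have hPΛ : P * Λ ≤ 2 := by
      rw [hP]
      have : 2 / (Real.sqrt Real.pi * Λ) * Λ = 2 / Real.sqrt Real.pi := by field_simp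
      rw [this, div_le_iff₀ hsp0]; linarith
    have hP2 : P ≤ 2 / Λ := by
      rw [hP]
      apply div_le_div_of_nonneg_left (by norm_num) hΛ0
      calc Λ = 1 * Λ := (one_mul _).symm
        _ ≤ _ := mul_le_mul_of_nonneg_right hsp hΛ0.le
    have hP3 : P ≤ 2 := by
      refine hP2.trans ?_
      rw [div_le_iff₀ hΛ0]; linarith
    have n1 : P * ℒ ^ 2 ≤ 2 / β * ℒ := by
      calc P * ℒ ^ 2 ≤ 2 / Λ * ℒ ^ 2 := by gcongr
        _ = _ := by rw [hΛ]; field_simp
    have h9 : (1 + 2 * ℒ) ^ 2 ≤ 9 * ℒ ^ 2 := by nlinarith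
    have hsq9 : (1 + Real.log n) ^ 2 ≤ 9 * ℒ ^ 2 := hsq.trans h9
    have hTR : 0 ≤ T * (1 + C2) * (R0 + 1) := by positivity
    have main : P * (∫ u in (0 : ℝ)..Λ, Rw γ (u / Λ) * XU δ M C2 Ce ε c n T u) ≤
        T * (1 + C2) * (R0 + 1) * (2 * (Ce * (P * Λ) + ε * (9 * (P * ℒ ^ 2)) * (1 / c)) +
          D * (2 * (e3 * (4 * (P * ℒ ^ 2)) + C8 * P) + 2 * (P * Λ))) := by
      have h1 : ∫ u in (0 : ℝ)..Λ, Rw γ (u / Λ) * XU δ M C2 Ce ε c n T u ≤
          (R0 + 1) * (T * (1 + C2) * (2 * (Ce * Λ + ε * (9 * ℒ ^ 2) * (1 / c)) +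
            D * (2 * (e3 * (4 * ℒ ^ 2) + C8) + 2 * Λ))) := by
        refine hI1.trans ?_
        rw [intervalIntegral.integral_const_mul, hI3]
        have hi0 : 0 ≤ ∫ u in (0 : ℝ)..Λ, Real.exp (-(c * u)) :=
          intervalIntegral.integral_nonneg hΛ0.le fun u _ => (Real.exp_pos _).le
        have hi1 : 0 ≤ ∫ u in (0 : ℝ)..Λ, Gq n u ^ 2 :=
          intervalIntegral.integral_nonneg hΛ0.le fun u _ => sq_nonneg _
        generalize (∫ u in (0 : ℝ)..Λ, Real.exp (-(c * u))) = IE at hexpI hi0 ⊢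
        generalize (∫ u in (0 : ℝ)..Λ, Gq n u ^ 2) = IG at hG4 hi1 ⊢
        have w1 : ε * (1 + Real.log n) ^ 2 * IE ≤ ε * (9 * ℒ ^ 2) * (1 / c) :=
          mul_le_mul (mul_le_mul_of_nonneg_left hsq9 hε0.le) hexpI hi0 (by positivity)
        have w2 : 2 * (Ce * Λ + ε * (1 + Real.log n) ^ 2 * IE) + D * (2 * IG + 2 * Λ) ≤
            2 * (Ce * Λ + ε * (9 * ℒ ^ 2) * (1 / c)) +
            D * (2 * (e3 * (4 * ℒ ^ 2) + C8) + 2 * Λ) := by
          have w3 := mul_le_mul_of_nonneg_left (show 2 * IG + 2 * Λ ≤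
            2 * (e3 * (4 * ℒ ^ 2) + C8) + 2 * Λ by linarith) hD0.le
          linarith
        have w4 : T * (1 + C2) * (2 * (Ce * Λ + ε * (1 + Real.log n) ^ 2 * IE) +
            D * (2 * IG + 2 * Λ)) ≤ T * (1 + C2) * (2 * (Ce * Λ + ε * (9 * ℒ ^ 2) * (1 / c)) +
            D * (2 * (e3 * (4 * ℒ ^ 2) + C8) + 2 * Λ)) :=
          mul_le_mul_of_nonneg_left w2 (by positivity)
        have w5 : 0 ≤ T * (1 + C2) * (2 * (Ce * Λ + ε * (1 + Real.log n) ^ 2 * IE) +
            D * (2 * IG + 2 * Λ)) := by positivity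
        exact mul_le_mul (by linarith) w4 w5 (by positivity)
      calc _ ≤ P * ((R0 + 1) * (T * (1 + C2) * (2 * (Ce * Λ + ε * (9 * ℒ ^ 2) * (1 / c)) +
            D * (2 * (e3 * (4 * ℒ ^ 2) + C8) + 2 * Λ)))) := mul_le_mul_of_nonneg_left h1 hP0
        _ = _ := by ring
    have hbd : T * (1 + C2) * (R0 + 1) * (2 * (Ce * (P * Λ) + ε * (9 * (P * ℒ ^ 2)) * (1 / c)) +
          D * (2 * (e3 * (4 * (P * ℒ ^ 2)) + C8 * P) + 2 * (P * Λ))) ≤
        T * (1 + C2) * (R0 + 1) * (2 * (Ce * 2 + ε * (9 * (2 / β * ℒ)) * (1 / c)) +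
          D * (2 * (e3 * (4 * (2 / β * ℒ)) + C8 * 2) + 2 * 2)) := by
      gcongr
    refine (main.trans hbd).trans ?_
    have hA : (1 + C2) * (R0 + 1) * (2 * (ε * (9 * (2 / β * ℒ)) * (1 / c))) ≤ ε1 / 64 * ℒ := by
      have : (1 + C2) * (R0 + 1) * (2 * (ε * (9 * (2 / β * ℒ)) * (1 / c))) =
          (ε * (1152 * 2 * (1 + C2) * (R0 + 1))) * (ℒ / (64 * c * β)) := by
        field_simp
        ring
      rw [this]
      calc _ ≤ (ε1 * c * β) * (ℒ / (64 * c * β)) := by gcongr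
        _ = _ := by field_simp
    have hB : (1 + C2) * (R0 + 1) * (D * (2 * (e3 * (4 * (2 / β * ℒ))))) = ε1 / 64 * ℒ := by
      rw [he3]
      field_simp
      ring
    have hC : K2 ≤ ε1 / 32 * ℒ := by
      have h1 : 32 * K2 / ε1 ≤ ℒ := by linarith
      rw [div_le_iff₀ hε1] at h1
      linarith
    have h3 : 1 / 8 ≤ 1 / (2 * Real.pi) := by
      apply one_div_le_one_div_of_le (by positivity)
      linarith [Real.pi_lt_four]
    have hfin : T * (ε1 / 8 * ℒ) ≤ T / (2 * Real.pi) * ℒ * ε1 := by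
      have n : 0 ≤ T * ℒ * ε1 := by positivity
      calc T * (ε1 / 8 * ℒ) = (1 / 8) * (T * ℒ * ε1) := by ring
        _ ≤ (1 / (2 * Real.pi)) * (T * ℒ * ε1) := by gcongr
        _ = _ := by ring
    refine le_trans ?_ hfin
    have e9 : T * (1 + C2) * (R0 + 1) * (2 * (Ce * 2 + ε * (9 * (2 / β * ℒ)) * (1 / c)) +
          D * (2 * (e3 * (4 * (2 / β * ℒ)) + C8 * 2) + 2 * 2)) =
        T * ((1 + C2) * (R0 + 1) * (2 * (ε * (9 * (2 / β * ℒ)) * (1 / c))) +
          (1 + C2) * (R0 + 1) * (D * (2 * (e3 * (4 * (2 / β * ℒ))))) + K2) := by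
      rw [hK2]; ring
    rw [e9]
    refine mul_le_mul_of_nonneg_left ?_ hT0.le
    rw [hB]
    have : 0 ≤ ε1 * ℒ := by positivity
    linarith

end Pool.Agent.Y773.AB
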